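import Pool.Agent.Helper4.SQ.Seq
import Pool.Agent.Helper67.SQ4.DATAw

/-!
# SQ, stages 4 and 5, block SEQw: a subsequence with constant group, subgroup and decomposition sets
-/

set_option autoImplicit false

namespace Pool.Agent.SQ

open NumberField Filter Module MvPolynomial
open Pool.Agent.Helper64.Vojta (Pl nv sn above)
open Pool.Agent.V2
open Pool.Agent.Chart (fld dg crd hgt)

universe u

theorem finrank_gal_le {k : Type u} [Field k] [NumberField k] {N : ℕ} (x : Fin N → AlgebraicClosure k) :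
    finrank k (gal x) ≤ (dg x).factorial := by
  classical
  have h1 : FiniteDimensional k (fld x) :=
    IntermediateField.finiteDimensional_adjoin fun x _ => Algebra.IsIntegral.isIntegral x
  have h2 := fing_finDim x
  have h3 := fing_isGalois x
  have h4 : Nat.card (gal x ≃ₐ[k] gal x) = finrank k (gal x) := IsGalois.card_aut_eq_finrank k _
  have h6 : Fintype.card (fld x →ₐ[k] AlgebraicClosure k) = dg x := AlgHom.card k (fld x) (AlgebraicClosure k)
  let Φ : (gal x ≃ₐ[k] gal x) → Equiv.Perm (fld x →ₐ[k] AlgebraicClosure k) := fun σ =>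
    { toFun := fun f => (σ.liftNormal (AlgebraicClosure k)).toAlgHom.comp f
      invFun := fun f => (σ.liftNormal (AlgebraicClosure k)).symm.toAlgHom.comp f
      left_inv := fun f => by
        ext z
        simp
      right_inv := fun f => by
        ext z
        simp }
  have hΦ : Function.Injective Φ := by
    intro σ τ h
    have h7 : ∀ f : fld x →ₐ[k] AlgebraicClosure k, ∀ z, σ.liftNormal (AlgebraicClosure k) (f z) =
        τ.liftNormal (AlgebraicClosure k) (f z) := by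
      intro f z
      have h8 : Φ σ f = Φ τ f := by rw [h]
      exact DFunLike.congr_fun h8 z
    have h8 : gal x ≤ { AlgHom.equalizer (σ.liftNormal (AlgebraicClosure k)).toAlgHom
        (τ.liftNormal (AlgebraicClosure k)).toAlgHom with
          inv_mem' := fun y hy => by
            have : σ.liftNormal (AlgebraicClosure k) y = τ.liftNormal (AlgebraicClosure k) y := hy
            show σ.liftNormal (AlgebraicClosure k) y⁻¹ = τ.liftNormal (AlgebraicClosure k) y⁻¹
            rw [map_inv₀, map_inv₀, this] } := by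
      unfold gal IntermediateField.normalClosure
      refine iSup_le fun f => ?_
      rintro _ ⟨z, rfl⟩
      exact h7 f z
    ext z
    have h9 : σ.liftNormal (AlgebraicClosure k) (z : AlgebraicClosure k) =
        τ.liftNormal (AlgebraicClosure k) (z : AlgebraicClosure k) := h8 z.2
    have h10 := σ.liftNormal_commutes (AlgebraicClosure k) z
    have h11 := τ.liftNormal_commutes (AlgebraicClosure k) z
    have h12 : algebraMap (gal x) (AlgebraicClosure k) (σ z) = algebraMap (gal x) (AlgebraicClosure k) (τ z) := by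
      rw [← h10, ← h11]
      exact h9
    exact h12
  have h7 := Nat.card_le_card_of_injective Φ hΦ
  rw [h4, Nat.card_eq_fintype_card, Fintype.card_perm, h6] at h7
  exact h7

theorem exists_seq_w {k : Type u} [Field k] [NumberField k] {N r : ℕ} {T : Type} [Finite T] (x : ℕ → Fin (N + 1) → AlgebraicClosure k)
    (h1 : ∀ a, ∃ j, x a j = 1) (hr : ∀ a, dg (x a) ≤ r) (w : ∀ a, Pl k → Pl (fld (x a)))
    (hw : ∀ a v, w a v ∈ above (fld (x a)) v) (S : Finset (Pl k)) (τ : ℕ → T) :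
    ∃ (G : Type) (_ : Group G) (_ : Fintype G) (Hs : Subgroup G) (Cv Dv : Pl k → Finset G) (t : T) (φ : ℕ → ℕ), StrictMono φ ∧
      (∀ a, τ (φ a) = t) ∧ (∀ a, Nat.card Hs * dg (x (φ a)) = Fintype.card G) ∧
      (∀ a, ∀ v ∈ S, (Dv v).card * gnum (x (φ a)) v = Fintype.card G) ∧
      ∃ (y : ∀ a, Fin (N + 1) → gal (x (φ a))) (M : ∀ a, Pl k → gal (x (φ a)) → ℝ)
        (s : ∀ a, G →* (gal (x (φ a)) ≃ₐ[k] gal (x (φ a)))),
        (∀ a j, (y a j : AlgebraicClosure k) = x (φ a) j) ∧ (∀ a, QSG (s a) (M a)) ∧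
        (∀ a, (Fintype.card G : ℝ) * hgt (x (φ a)) = Hg (s a) (M a) (y a)) ∧
        (∀ a, ∀ h ∈ Hs, ∀ j, s a h (y a j) = y a j) ∧
        (∀ a, ∀ v ∈ S, ∀ g ∈ Cv v, ∀ z : gal (x (φ a)), (∀ h ∈ Hs, s a h z = z) → M a v (s a g z) = M a v z) ∧
        (∀ a, ∀ v ∈ S, ∀ u ∈ Dv v, ∀ (g : G) (z : gal (x (φ a))), (∀ h ∈ Hs, s a h z = z) →
          M a v (s a (u * g) z) = M a v (s a g z)) ∧
        (∀ (a : ℕ) (v : Pl k) (d : ℕ) (f : MvPolynomial (Fin (N + 1)) k), aeval (crd (x (φ a))) f ≠ 0 →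
          (Fintype.card G : ℝ) * lamP d f v (x (φ a)) =
            ∑ g, (d * Real.log (mxn (M a v) fun j => s a g (y a j)) - Real.log (M a v (s a g (aeval (y a) f))))) ∧
        ∀ (a : ℕ), ∀ v ∈ S, ∀ (d : ℕ) (f : MvPolynomial (Fin (N + 1)) k), aeval (crd (x (φ a))) f ≠ 0 →
          (Fintype.card G : ℝ) * lamW d f (x (φ a)) (w (φ a) v) =
            (Cv v).card * (d * Real.log (mxn (M a v) (y a)) - Real.log (M a v (aeval (y a) f))) := by
  classical
  have h5 := fun a => data_w (x a) (h1 a) (w a) (hw a)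
  choose y M ft Hs' Cv' Dv' h6 h7 h8 hfix hcard' hCv hDv hDc h9 h10 using h5
  have key : ∀ a, ∃ t : (Σ c : Fin (r.factorial + 1), (FinG c → FinG c → FinG c) × (FinG c → Prop) × (S → FinG c → Prop) × (S → FinG c → Prop) × T),
      finrank k (gal (x a)) = t.1 ∧ τ a = t.2.2.2.2.2 ∧
      ∃ e : FinG t.1 ≃ (gal (x a) ≃ₐ[k] gal (x a)), (∀ i j, e (t.2.1 i j) = e i * e j) ∧
        (∀ i, t.2.2.1 i ↔ e i ∈ Hs' a) ∧ (∀ v i, t.2.2.2.1 v i ↔ e i ∈ Cv' a v) ∧
        ∀ v i, t.2.2.2.2.1 v i ↔ e i ∈ Dv' a v := by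
    intro a
    have h2 := fing_finDim (x a)
    have h3 := fing_isGalois (x a)
    have h4 : Nat.card (gal (x a) ≃ₐ[k] gal (x a)) = finrank k (gal (x a)) := IsGalois.card_aut_eq_finrank k _
    have h5 : Finite (gal (x a) ≃ₐ[k] gal (x a)) := inferInstance
    have e0 : FinG (finrank k (gal (x a))) ≃ (gal (x a) ≃ₐ[k] gal (x a)) :=
      ((Finite.equivFin _).trans (finCongr h4)).symm
    refine ⟨⟨⟨finrank k (gal (x a)), Nat.lt_succ_of_le ((finrank_gal_le (x a)).trans (Nat.factorial_le (hr a)))⟩,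
      fun i j => e0.symm (e0 i * e0 j), fun i => e0 i ∈ Hs' a, fun v i => e0 i ∈ Cv' a v, fun v i => e0 i ∈ Dv' a v, τ a⟩, rfl, rfl, e0,
      fun i j => ?_, fun i => Iff.rfl, fun v i => Iff.rfl, fun v i => Iff.rfl⟩
    exact e0.apply_symm_apply _
  choose σ hσ using key
  have hfin : Finite (Σ c : Fin (r.factorial + 1), (FinG c → FinG c → FinG c) × (FinG c → Prop) × (S → FinG c → Prop) × (S → FinG c → Prop) × T) := by
    have : ∀ c : Fin (r.factorial + 1), Finite ((FinG c → FinG c → FinG c) × (FinG c → Prop) × (S → FinG c → Prop) × (S → FinG c → Prop) × T) :=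
      fun c => inferInstance
    infer_instance
  obtain ⟨t, ht⟩ := Finite.exists_infinite_fiber σ
  have h2 : ∃ᶠ a in atTop, σ a = t := by
    rw [Nat.frequently_atTop_iff_infinite]
    exact Set.infinite_coe_iff.1 ht
  obtain ⟨φ, hφ, hφt⟩ := extraction_of_frequently_atTop h2
  obtain ⟨⟨c, hc⟩, tb, sH, sC, sD, t'⟩ := t
  have h3 : ∀ a, finrank k (gal (x (φ a))) = c ∧ τ (φ a) = t' ∧
      ∃ e : FinG c ≃ (gal (x (φ a)) ≃ₐ[k] gal (x (φ a))), (∀ i j, e (tb i j) = e i * e j) ∧
        (∀ i, sH i ↔ e i ∈ Hs' (φ a)) ∧ (∀ v i, sC v i ↔ e i ∈ Cv' (φ a) v) ∧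
        ∀ v i, sD v i ↔ e i ∈ Dv' (φ a) v := by
    intro a
    have := hσ (φ a)
    rw [hφt a] at this
    exact this
  obtain ⟨hc0, -, e0, he0, -⟩ := h3 0
  let gr : Group (FinG c) := e0.group
  have hcard : Fintype.card (FinG c) = c := Fintype.card_fin c
  have hmul : ∀ i j : FinG c, i * j = tb i j := by
    intro i j
    apply e0.injective
    rw [he0]
    exact e0.apply_symm_apply _
  have h4 : ∀ a, ∃ e : FinG c ≃* (gal (x (φ a)) ≃ₐ[k] gal (x (φ a))), (∀ i, sH i ↔ e i ∈ Hs' (φ a)) ∧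
      (∀ v i, sC v i ↔ e i ∈ Cv' (φ a) v) ∧ ∀ v i, sD v i ↔ e i ∈ Dv' (φ a) v := by
    intro a
    obtain ⟨-, -, e, he, he1, he2, he3⟩ := h3 a
    exact ⟨MulEquiv.mk' e fun i j => by rw [hmul, he], he1, he2, he3⟩
  choose e heH heC heD using h4
  let Hs : Subgroup (FinG c) := (Hs' (φ 0)).comap (e 0).toMonoidHom
  have hHs : ∀ a i, i ∈ Hs ↔ e a i ∈ Hs' (φ a) := by
    intro a i
    rw [← heH a i, heH 0 i]
    rfl
  let Cv : Pl k → Finset (FinG c) := fun v => if hv : v ∈ S then Finset.univ.filter fun i => sC ⟨v, hv⟩ i else ∅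
  have hCv1 : ∀ a, ∀ v ∈ S, ∀ i, i ∈ Cv v ↔ e a i ∈ Cv' (φ a) v := by
    intro a v hv i
    simp only [Cv, dif_pos hv, Finset.mem_filter, Finset.mem_univ, true_and]
    exact heC a ⟨v, hv⟩ i
  have hCv2 : ∀ a, ∀ v ∈ S, (Cv v).card = (Cv' (φ a) v).card := by
    intro a v hv
    refine Finset.card_bij (fun i _ => e a i) (fun i hi => (hCv1 a v hv i).1 hi) (fun i _ j _ h => (e a).injective h) ?_
    intro g hg
    exact ⟨(e a).symm g, (hCv1 a v hv _).2 (by rwa [MulEquiv.apply_symm_apply]), (e a).apply_symm_apply g⟩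
  let Dv : Pl k → Finset (FinG c) := fun v => if hv : v ∈ S then Finset.univ.filter fun i => sD ⟨v, hv⟩ i else ∅
  have hDv1 : ∀ a, ∀ v ∈ S, ∀ i, i ∈ Dv v ↔ e a i ∈ Dv' (φ a) v := by
    intro a v hv i
    simp only [Dv, dif_pos hv, Finset.mem_filter, Finset.mem_univ, true_and]
    exact heD a ⟨v, hv⟩ i
  have hDv2 : ∀ a, ∀ v ∈ S, (Dv v).card = (Dv' (φ a) v).card := by
    intro a v hv
    refine Finset.card_bij (fun i _ => e a i) (fun i hi => (hDv1 a v hv i).1 hi) (fun i _ j _ h => (e a).injective h) ?_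
    intro g hg
    exact ⟨(e a).symm g, (hDv1 a v hv _).2 (by rwa [MulEquiv.apply_symm_apply]), (e a).apply_symm_apply g⟩
  have hHc : ∀ a, Nat.card Hs = Nat.card (Hs' (φ a)) := by
    intro a
    exact Nat.card_congr ((e a).toEquiv.subtypeEquiv (hHs a))
  refine ⟨FinG c, gr, inferInstance, Hs, Cv, Dv, t', φ, hφ, fun a => (h3 a).2.1, ?_, ?_, fun a => y (φ a), fun a => M (φ a),
    fun a => (e a).toMonoidHom, fun a => h6 (φ a), ?_, ?_, ?_, ?_, ?_, ?_, ?_⟩
  · intro a
    rw [hHc a, hcard' (φ a), (h3 a).1, hcard]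
  · intro a v hv
    rw [hDv2 a v hv, hDc (φ a) v, (h3 a).1, hcard]
  · intro a
    exact (h7 (φ a)).comp_equiv (e a)
  · intro a
    have h11 := h8 (φ a)
    rw [(h3 a).1] at h11
    rw [hcard, h11]
    exact (Hg_comp_equiv (MonoidHom.id _) (M (φ a)) (e a) (y (φ a))).symm
  · intro a h hh j
    exact hfix (φ a) (e a h) ((hHs a h).1 hh) j
  · intro a v hv g hg z hz
    refine hCv (φ a) v (e a g) ((hCv1 a v hv g).1 hg) z fun h hh => ?_
    have h11 := hz ((e a).symm h) ((hHs a _).2 (by rwa [MulEquiv.apply_symm_apply]))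
    have h12 : (e a).toMonoidHom ((e a).symm h) = h := (e a).apply_symm_apply h
    rwa [h12] at h11
  · intro a v hv u hu g z hz
    have h11 := hDv (φ a) v (e a u) ((hDv1 a v hv u).1 hu) (e a g) z fun h hh => by
      have h12 := hz ((e a).symm h) ((hHs a _).2 (by rwa [MulEquiv.apply_symm_apply]))
      have h13 : (e a).toMonoidHom ((e a).symm h) = h := (e a).apply_symm_apply h
      rwa [h13] at h12
    rw [map_mul]
    exact h11
  · intro a v d f hf
    have h11 := h9 (φ a) v d f hf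
    rw [(h3 a).1] at h11
    rw [hcard, h11]
    exact (Equiv.sum_comp (e a).toEquiv fun g =>
      (d * Real.log (mxn (M (φ a) v) fun j => g (y (φ a) j)) - Real.log (M (φ a) v (g (aeval (y (φ a)) f))))).symm
  · intro a v hv d f hf
    have h11 := h10 (φ a) v d f hf
    rw [(h3 a).1] at h11
    rw [hcard, h11, hCv2 a v hv]

end Pool.Agent.SQ
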