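import Pool.Agent.Helper42.SQ.GDefs2

/-!
# SQ, stages 4 and 5: definitions (all points of bounded degree; one place above each `v`, or all of them)
-/

set_option autoImplicit false

namespace Pool.Agent.SQ

open NumberField Filter Module MvPolynomial
open Pool.Agent.Helper64.Vojta (Pl nv sn above)
open Pool.Agent.V2
open Pool.Agent.Chart (fld dg crd hgt)

universe u

/-- the contribution of one place `w` of `k(x)` to the Weil function `lamP` of the section `f` of degree `d` -/
noncomputable def lamW {k : Type u} [Field k] [NumberField k] (d : ℕ) {N : ℕ} (f : MvPolynomial (Fin N) k)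
    (x : Fin N → AlgebraicClosure k) (w : Pl (fld x)) : ℝ :=
  (d * Real.log (sn w (crd x)) - Real.log (nv w (aeval (crd x) f))) / dg x

theorem finDim_gal {k : Type u} [Field k] [NumberField k] {N : ℕ} (x : Fin N → AlgebraicClosure k) :
    FiniteDimensional k (gal x) := by
  have h1 : FiniteDimensional k (fld x) :=
    IntermediateField.finiteDimensional_adjoin fun x _ => Algebra.IsIntegral.isIntegral x
  unfold gal
  infer_instance

theorem numField_gal {k : Type u} [Field k] [NumberField k] {N : ℕ} (x : Fin N → AlgebraicClosure k) :
    NumberField (gal x) := by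
  have h := finDim_gal x
  have : CharZero (gal x) := charZero_of_injective_algebraMap (algebraMap k (gal x)).injective
  exact { to_finiteDimensional := FiniteDimensional.trans ℚ k (gal x) }

/-- one if there is one place of `k(x)` above `v`, else the number of places of the Galois closure of `k(x)` above `v` -/
noncomputable def gnum {k : Type u} [Field k] [NumberField k] {N : ℕ} (x : Fin N → AlgebraicClosure k) (v : Pl k) : ℕ :=
  haveI : NumberField (gal x) := numField_gal x
  if (above (fld x) v).card = 1 then 1 else (above (gal x) v).card

/-- the mean value of `min q u` for the distribution `P (u > s) = (1 - s) ^ n` -/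
noncomputable def Eq (n : ℕ) (q : ℝ) : ℝ := (1 - (1 - q) ^ (n + 1)) / (n + 1)

/-- the inverse of the constant for all points of degree at most `r` -/
noncomputable def cnr (n r : ℕ) : ℝ := (1 - n * (r - 1) * (1 - (1 - 1 / (r : ℝ)) ^ (1 / (n : ℝ)))) / (n + 1)

end Pool.Agent.SQ
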