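import Pool.Agent.Helper67.SQ4.CNT
import Pool.Agent.Helper42.SQ.EFX

/-!
# SQ, stages 4 and 5, block EFXq: families of products of forms in the coordinate ring, one more count
-/

set_option autoImplicit false

namespace Pool.Agent.SQ

open Module MvPolynomial Filter

universe u

private theorem card_pi38 (n e : ℕ) :
    ((Finset.univ : Finset (Fin (n + 1))).piAntidiag e).card = (n + e).choose e := by
  have h1 : ((Finset.univ : Finset (Fin (n + 1))).finsuppAntidiag e).card = (n + e).choose e := by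
    rw [Finset.card_finsuppAntidiag_nat_eq_choose, Finset.card_univ, Fintype.card_fin]
    congr 1
    omega
  rw [← h1]
  refine (Finset.card_nbij' (fun α : Fin (n + 1) →₀ ℕ => (α : Fin (n + 1) → ℕ))
    (fun a : Fin (n + 1) → ℕ => (Finsupp.equivFunOnFinite.symm a : Fin (n + 1) →₀ ℕ)) ?_ ?_ ?_ ?_).symm
  · intro α hα
    rw [Finset.mem_coe, Finset.mem_finsuppAntidiag] at hα
    rw [Finset.mem_coe, Finset.mem_piAntidiag]
    exact ⟨hα.1, fun i _ => Finset.mem_univ i⟩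
  · intro a ha
    rw [Finset.mem_coe, Finset.mem_piAntidiag] at ha
    rw [Finset.mem_coe, Finset.mem_finsuppAntidiag]
    exact ⟨ha.1, Finset.subset_univ _⟩
  · intro α _
    ext i
    rfl
  · intro a _
    rfl

private theorem Eq_nonneg38 (n : ℕ) {q : ℝ} (hq : 0 ≤ q) (hq1 : q ≤ 1) : 0 ≤ Eq n q := by
  unfold Eq
  refine div_nonneg (sub_nonneg.2 ?_) (by positivity)
  exact pow_le_one₀ (by linarith) (by linarith)

private theorem asym38 (n c : ℕ) {ε : ℝ} (hε : 0 < ε) : ∃ e0 : ℕ, ∀ e ≥ e0,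
    (1 - ε) * ((n + (e + c)).choose (e + c) : ℝ) ≤ (1 - ε / 2) * ((n + e).choose e : ℝ) := by
  have h2 := (efx_tend n c).const_mul (1 - ε)
  have h3 : (1 - ε) * 1 < 1 - ε / 2 := by linarith
  obtain ⟨e0, he0⟩ := eventually_atTop.1 (h2.eventually (gt_mem_nhds h3))
  refine ⟨e0, fun e he => ?_⟩
  have h5 := he0 e he
  have h8 : (0 : ℝ) < ((n + e).choose e : ℝ) := by exact_mod_cast Nat.choose_pos (by omega)
  rw [← mul_div_assoc, div_lt_iff₀ h8] at h5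
  exact h5.le

theorem efx_q {k : Type u} [Field k] {N n d : ℕ} (hd : 0 < d) (I : Ideal (MvPolynomial (Fin (N + 1)) k)) [I.IsPrime]
    (hI : ∀ p ∈ I, ∀ m, MvPolynomial.homogeneousComponent m p ∈ I)
    (hdim : Algebra.trdeg k (MvPolynomial (Fin (N + 1)) k ⧸ I) = n + 1)
    (f : Fin (n + 1) → MvPolynomial (Fin (N + 1)) k) (hf : ∀ i, (f i).IsHomogeneous d)
    (hfin : ∃ M, ∀ j, (MvPolynomial.X j) ^ M ∈ I ⊔ Ideal.span (Set.range f)) {q : ℝ} (hq : 0 ≤ q) (hq1 : q ≤ 1)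
    {ε : ℝ} (hε : 0 < ε) :
    ∃ m0 : ℕ, ∀ m ≥ m0, ∃ (r : ℕ) (α : Fin r → Fin (n + 1) → ℕ) (β : Fin r → ℕ) (b : Fin r → MvPolynomial (Fin (N + 1)) k),
      (∀ t, ∑ i, α t i + β t = m) ∧ (∀ t, (b t).IsHomogeneous (d * β t)) ∧
      LinearIndependent k (fun t => Ideal.Quotient.mk I ((∏ i, f i ^ α t i) * b t)) ∧
      ∀ i, (1 - ε) * (m * Eq n q) * finrank k ((MvPolynomial.homogeneousSubmodule (Fin (N + 1)) k (d * m)).map
        (Ideal.Quotient.mkₐ k I).toLinearMap) ≤ ∑ t, min (q * m) (α t i : ℝ) := by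
  obtain ⟨D, c0, ρ, hcore⟩ := efx_core hd I hI hdim f hf hfin
  obtain ⟨e0, he0⟩ := asym38 n c0 hε
  obtain ⟨m1, hm1⟩ := cnt n D hq hq1 (half_pos hε)
  refine ⟨max (D + e0) m1, fun m hm => ?_⟩
  have hme : D + e0 ≤ m := (le_max_left _ _).trans hm
  have hmm : m1 ≤ m := (le_max_right _ _).trans hm
  obtain ⟨e, rfl⟩ : ∃ e, m = D + e := ⟨m - D, by omega⟩
  have hee : e ≥ e0 := by omega
  obtain ⟨hF, r, α, b, h1, h2, h3, h4⟩ := hcore e
  refine ⟨r, α, fun _ => D, b, fun t => by rw [h1, add_comm], h2, h3, fun i => ?_⟩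
  obtain ⟨F, hF'⟩ : ∃ F : ℕ, F = finrank k ((MvPolynomial.homogeneousSubmodule (Fin (N + 1)) k (d * (D + e))).map
        (Ideal.Quotient.mkₐ k I).toLinearMap) := ⟨_, rfl⟩
  rw [← hF'] at hF ⊢
  rw [h4 fun a => min (q * ((D + e : ℕ) : ℝ)) (a i : ℝ)]
  have h5 := hm1 (D + e) hmm i
  rw [add_tsub_cancel_left, card_pi38] at h5
  have h6 := he0 e hee
  have h7 : (F : ℝ) ≤ ρ * ((n + (e + c0)).choose (e + c0) : ℝ) := by exact_mod_cast hF
  obtain ⟨Y, hY⟩ : ∃ Y, Y = ((D + e : ℕ) : ℝ) * Eq n q := ⟨_, rfl⟩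
  have hY0 : 0 ≤ Y := by
    rw [hY]
    exact mul_nonneg (Nat.cast_nonneg _) (Eq_nonneg38 n hq hq1)
  obtain ⟨Z, hZ⟩ : ∃ Z, Z = ∑ a ∈ (Finset.univ : Finset (Fin (n + 1))).piAntidiag e,
    min (q * ((D + e : ℕ) : ℝ)) (a i : ℝ) := ⟨_, rfl⟩
  rw [← hY, ← hZ] at h5
  rw [← hY, ← hZ]
  by_cases hε1 : 1 - ε ≤ 0
  · have hZ0 : 0 ≤ Z := by
      rw [hZ]
      exact Finset.sum_nonneg fun a _ => le_min (mul_nonneg hq (Nat.cast_nonneg _)) (Nat.cast_nonneg _)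
    have h8 : (1 - ε) * Y * F ≤ 0 :=
      mul_nonpos_of_nonpos_of_nonneg (mul_nonpos_of_nonpos_of_nonneg hε1 hY0) (Nat.cast_nonneg _)
    exact h8.trans (mul_nonneg (Nat.cast_nonneg _) hZ0)
  · push Not at hε1
    calc (1 - ε) * Y * F ≤ (1 - ε) * Y * (ρ * ((n + (e + c0)).choose (e + c0) : ℝ)) :=
          mul_le_mul_of_nonneg_left h7 (mul_nonneg hε1.le hY0)
      _ = ρ * (Y * ((1 - ε) * ((n + (e + c0)).choose (e + c0) : ℝ))) := by ring
      _ ≤ ρ * (Y * ((1 - ε / 2) * ((n + e).choose e : ℝ))) :=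
          mul_le_mul_of_nonneg_left (mul_le_mul_of_nonneg_left h6 hY0) (Nat.cast_nonneg _)
      _ = ρ * ((1 - ε / 2) * Y * ((n + e).choose e : ℝ)) := by ring
      _ ≤ ρ * Z := mul_le_mul_of_nonneg_left h5 (Nat.cast_nonneg _)

end Pool.Agent.SQ
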