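import Pool.Agent.Helper67.SQ4.GAm
import Pool.Agent.Helper67.SQ4.VERmA

/-!
# SQ, stage 5, block VERm
-/

set_option autoImplicit false

namespace Pool.Agent.SQ

open NumberField Filter Module MvPolynomial
open Pool.Agent.Helper64.Vojta (Pl nv sn above)
open Pool.Agent.V2
open Pool.Agent.Chart (fld dg crd hgt)

universe u

variable {k : Type u} [Field k] [NumberField k] {G : Type} [Group G] [Fintype G] {D : SqG k G}

theorem ver_m {N δ : ℕ} (hδ : 0 < δ) (x : ∀ n, Fin (N + 1) → D.L n) (hx : Ptg D x) (P : Finset (Pl k))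
    (Hs : Subgroup G) (hH : ∀ a, ∀ h ∈ Hs, ∀ j, D.s a h (x a j) = x a j)
    (lin : Pl k → Prop) [DecidablePred lin] (Gd T : Pl k → Finset G)
    (hC : ∀ a, ∀ v ∈ P, lin v → ∀ u ∈ Gd v, ∀ g ∈ T v, ∀ z : D.L a, (∀ h ∈ Hs, D.s a h z = z) →
      D.N a v (D.s a (u * g) z) = D.N a v (D.s a g z))
    {r : ℕ} (ρ : Fin r → G) (hρ : ∀ g, ∃! j, (ρ j)⁻¹ * g ∈ Hs)
    (n : Pl k → G → ℕ) (e : ∀ v g, Fin (n v g) → MvPolynomial (Fin (N + 1)) k) (hh : ∀ v g i, (e v g i).IsHomogeneous δ)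
    (he : ∀ v ∈ P, ∀ g, LinearIndependent k fun i => Ideal.Quotient.mk (vanI D x) (e v g i))
    (B : Pl k → Fin r → ℝ) (hB : ∀ v j, 0 ≤ B v j) (n' : Pl k → Fin r → ℕ)
    (e' : ∀ v j, Fin (n' v j) → MvPolynomial (Fin (N + 1)) k) (hh' : ∀ v j i, (e' v j i).IsHomogeneous δ)
    (he' : ∀ v ∈ P, ∀ j, LinearIndependent k fun i => Ideal.Quotient.mk (vanI D x) (e' v j i)) {ε : ℝ} (hε : 0 < ε) :
    ∀ᶠ a in (D.U : Filter ℕ), ∑ v ∈ P, (if lin v then ((Gd v).card : ℝ) * ∑ g ∈ T v,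
        ∑ i, (δ * Real.log (mxn (D.N a v) fun l => D.s a g (x a l)) - Real.log (D.N a v (D.s a g (aeval (x a) (e v g i))))) else
      (Fintype.card G : ℝ) ^ 2 * ∑ j, (∑ i, min (B v j * D.H a) (δ * Real.log (mxn (D.N a v) fun l => D.s a (ρ j) (x a l)) -
        Real.log (D.N a v (D.s a (ρ j) (aeval (x a) (e' v j i))))) -
        (1 - 1 / (r : ℝ)) * (B v j * D.H a) * hilb (vanI D x) δ)) ≤
      (Fintype.card G * hilb (vanI D x) δ * δ + ε) * D.H a :=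
  ver_m_of (fun _ {_} [_] x hx P Hs hH lin [_] Gd T hC {_} ρ hρ n e he B hB n' e' he' {_} hε =>
    germs_m x hx P Hs hH lin Gd T hC ρ hρ n e he B hB n' e' he' hε) hδ x hx P Hs hH lin Gd T hC ρ hρ n e hh he B hB n' e' hh'
    he' hε

end Pool.Agent.SQ
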