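import Pool.Agent.Helper24.SQ.TenG

/-!
# Semistability of tensor products for arbitrary flags

Spaces `V a` (`a ∈ Γ`) of dimension `r`, flags `F a i` on `V a`, the same slope for all `a`; `Θ i` is any filtration which contains
the products of elements of the flags.  From `Pool/Agent/Helper24/SQ` (`bal'`, `count`).
-/

set_option autoImplicit false

open Polynomial Module Pointwise

namespace Pool.Agent.SQ

open SQ24

variable {k K : Type*} [Field k] [Field K] [Algebra k K]

attribute [local instance] Polynomial.algebra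

section

variable {Γ : Type*} [Fintype Γ] [DecidableEq Γ]

/-- the elements whose products with elements of the remaining factors have the expected level -/
private def RS (V : Γ → Submodule k K) (F : Γ → ℕ → Submodule k K) (Θ : ℕ → Submodule k K) (s : Finset Γ) (μ : ℕ) :
    Submodule k K where
  carrier := {z | ∀ (j : Γ → ℕ) (b : Γ → K), (∀ a, b a ∈ V a) → (∀ a, b a ∈ F a (j a)) →
    z * ∏ a ∈ sᶜ, b a ∈ Θ (μ + ∑ a ∈ sᶜ, j a)}
  add_mem' := by
    intro x y hx hy j b h1 h2
    rw [add_mul]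
    exact add_mem (hx j b h1 h2) (hy j b h1 h2)
  zero_mem' := by
    intro j b h1 h2
    rw [zero_mul]
    exact zero_mem _
  smul_mem' := by
    intro c x hx j b h1 h2
    rw [smul_mul_assoc]
    exact Submodule.smul_mem _ _ (hx j b h1 h2)

private theorem tc_prod_mem {t : k} {V : Γ → Submodule k K} {F : Γ → ℕ → Submodule k K} {Θ : ℕ → Submodule k K}
    (hF0 : ∀ a, V a ≤ F a 0) (hΘ : ∀ j j', j ≤ j' → Θ j' ≤ Θ j)
    (hΘ1 : ∀ (j : Γ → ℕ) (b : Γ → K), (∀ a, b a ∈ V a) → (∀ a, b a ∈ F a (j a)) → ∏ a, b a ∈ Θ (∑ a, j a))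
    {M : ℕ} (u : Γ → K[X]) (hu : ∀ a l, l < M → tc t l (u a) ∈ F a (M - l)) (hV : ∀ a n, (u a).coeff n ∈ V a) (s : Finset Γ) :
    ∀ l, tc t l (∏ a ∈ s, u a) ∈ RS V F Θ s (s.card * M - l) := by
  have hu' : ∀ a l, tc t l (u a) ∈ F a (M - l) := by
    intro a l
    by_cases hl : l < M
    · exact hu a l hl
    · rw [Nat.sub_eq_zero_of_le (by omega)]
      exact hF0 a (tc_mem (hV a) t l)
  induction s using Finset.induction_on with
  | empty =>
    intro l j b h1 h2
    rw [Finset.prod_empty, ← C_1, tc_C, Finset.compl_empty, Finset.card_empty, Nat.zero_mul, Nat.zero_sub, zero_add]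
    split_ifs
    · rw [one_mul]
      exact hΘ1 j b h1 h2
    · rw [zero_mul]
      exact zero_mem _
  | insert a s has ih =>
    intro l j b h1 h2
    rw [Finset.prod_insert has, tc_mul, Finset.sum_mul]
    refine Submodule.sum_mem _ fun x hx => ?_
    have hx' := Finset.HasAntidiagonal.mem_antidiagonal.1 hx
    have h3 := ih x.2 (Function.update j a (M - x.1)) (Function.update b a (tc t x.1 (u a)))
      (by
        intro a'
        by_cases h : a' = a
        · subst h
          rw [Function.update_self]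
          exact tc_mem (hV _) t _
        · rw [Function.update_of_ne h]
          exact h1 a')
      (by
        intro a'
        by_cases h : a' = a
        · subst h
          rw [Function.update_self, Function.update_self]
          exact hu' _ _
        · rw [Function.update_of_ne h, Function.update_of_ne h]
          exact h2 a')
    have hc : sᶜ = insert a (insert a s)ᶜ := by
      ext y
      simp only [Finset.mem_compl, Finset.mem_insert]
      by_cases h : y = a
      · subst h
        simp [has]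
      · simp [h]
    have hn : a ∉ (insert a s)ᶜ := by simp
    have e1 : ∏ y ∈ (insert a s)ᶜ, Function.update b a (tc t x.1 (u a)) y = ∏ y ∈ (insert a s)ᶜ, b y := by
      refine Finset.prod_congr rfl fun y hy => ?_
      rw [Function.update_of_ne]
      rintro rfl
      exact hn hy
    have e2 : ∑ y ∈ (insert a s)ᶜ, Function.update j a (M - x.1) y = ∑ y ∈ (insert a s)ᶜ, j y := by
      refine Finset.sum_congr rfl fun y hy => ?_
      rw [Function.update_of_ne]
      rintro rfl
      exact hn hy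
    rw [hc, Finset.prod_insert hn, Finset.sum_insert hn, Function.update_self, Function.update_self, e1, e2] at h3
    have e3 : tc t x.1 (u a) * tc t x.2 (∏ a ∈ s, u a) * ∏ y ∈ (insert a s)ᶜ, b y =
        tc t x.2 (∏ a ∈ s, u a) * (tc t x.1 (u a) * ∏ y ∈ (insert a s)ᶜ, b y) := by ring
    rw [e3]
    refine hΘ _ _ ?_ h3
    rw [Finset.card_insert_of_notMem has, Nat.add_mul, Nat.one_mul]
    omega

end

/-- **Semistability of tensor products, arbitrary flags.** -/
theorem tenF [CharZero k] {Γ I : Type*} [Fintype Γ] [Fintype I] (V : Γ → Submodule k K) [∀ a, FiniteDimensional k (V a)] {r : ℕ}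
    (hr : 0 < r) (hr' : ∀ a, finrank k (V a) = r) (F : Γ → I → ℕ → Submodule k K)
    (hF : ∀ a i j j', j ≤ j' → F a i j' ≤ F a i j) (hF0 : ∀ a i, V a ≤ F a i 0) (M T : ℕ)
    (hT : ∀ a, Sw M (F a) (V a) = T) (hss : ∀ a, ∀ E ≤ V a, r * Sw M (F a) E ≤ T * finrank k E)
    (Θ : I → ℕ → Submodule k K) (hΘ : ∀ i j j', j ≤ j' → Θ i j' ≤ Θ i j)
    (hΘ1 : ∀ i (j : Γ → ℕ) (b : Γ → K), (∀ a, b a ∈ V a) → (∀ a, b a ∈ F a i (j a)) → ∏ a, b a ∈ Θ i (∑ a, j a)) :
    Fintype.card Γ * finrank k ↥(∏ a, V a) * T ≤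
      r * Sw (Fintype.card Γ * M) Θ (∏ a, V a) +
      Fintype.card Γ * finrank k ↥(∏ a, V a) * (r * (r * Fintype.card I + 1)) := by
  classical
  obtain ⟨t, ht⟩ : ∃ t : I → k, Function.Injective t := by
    refine ⟨fun i => ((Fintype.equivFin I i : ℕ) : k), fun i j hij => ?_⟩
    have h1 : ((Fintype.equivFin I i : Fin _) : ℕ) = (Fintype.equivFin I j : Fin _) := Nat.cast_injective hij
    exact (Fintype.equivFin I).injective (Fin.ext h1)
  -- balanced bases
  have step : ∀ a, ∃ (n : ℕ) (Z : Set K[X]), Z.Finite ∧ (∀ z ∈ Z, z ∈ W t M (F a) (V a) (n + 1)) ∧ V a ≤ cs k Z ∧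
      r * n + T ≤ r * (Fintype.card I * M + r * Fintype.card I + 1) := by
    intro a
    obtain ⟨n1, α1, f1, g1, hg1, -, hc1, hd1⟩ := bal' (F := F a) (M := M) (U := V a) ht (hF a)
      (by rw [hr']; exact hr) (fun E hE => by
        rw [hr', hT]
        exact hss a E hE)
    rw [hT, hr'] at hd1
    refine ⟨n1, Set.range g1, Set.finite_range _, ?_, fun x hx => hc1 x hx, hd1⟩
    rintro _ ⟨j, rfl⟩
    exact hg1.mem j
  choose n Z hZ1 hZ2 hZ3 hZ4 using step
  -- products
  have prd : ∀ s : Finset Γ, ∃ Y : Set K[X], Y.Finite ∧ (∀ z ∈ Y, ∃ u : Γ → K[X], (∀ a ∈ s, u a ∈ Z a) ∧ z = ∏ a ∈ s, u a) ∧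
      (∀ z ∈ Y, z ∈ PV (∏ a ∈ s, V a) (∑ a ∈ s, n a + 1)) ∧ ∏ a ∈ s, V a ≤ cs k Y := by
    intro s
    induction s using Finset.induction_on with
    | empty =>
      refine ⟨{1}, Set.finite_singleton _, ?_, ?_, ?_⟩
      · rintro z rfl
        exact ⟨fun _ => 0, by simp, by simp⟩
      · rintro z rfl
        have := PV_pow (k := k) (K := K) (V := ⊥) (d := 0) (Z := ∅) (by simp) 0 1 (by simp)
        simpa using this
      · have := cs_pow (k := k) (K := K) (U := ⊥) (Z := ∅) bot_le 0
        rw [pow_zero, pow_zero] at this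
        rwa [Finset.prod_empty, Set.singleton_one]
    | insert a s has ih =>
      obtain ⟨Y, h1, h2, h3, h4⟩ := ih
      refine ⟨Z a * Y, (hZ1 a).mul h1, ?_, ?_, ?_⟩
      · intro z hz
        obtain ⟨x, hx, y, hy, rfl⟩ := Set.mem_mul.1 hz
        obtain ⟨u, hu1, hu2⟩ := h2 y hy
        refine ⟨Function.update u a x, ?_, ?_⟩
        · intro b hb
          by_cases h : b = a
          · subst h
            rw [Function.update_self]
            exact hx
          · rw [Function.update_of_ne h]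
            exact hu1 b ((Finset.mem_insert.1 hb).resolve_left h)
        · rw [Finset.prod_insert has, Function.update_self, hu2]
          congr 1
          refine Finset.prod_congr rfl fun b hb => ?_
          rw [Function.update_of_ne]
          rintro rfl
          exact has hb
      · intro z hz
        obtain ⟨x, hx, y, hy, rfl⟩ := Set.mem_mul.1 hz
        rw [Finset.prod_insert has, Finset.sum_insert has]
        exact PV_mul (hZ2 a x hx).2 (h3 y hy)
      · rw [Finset.prod_insert has]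
        exact (mul_le_mul' (hZ3 a) h4).trans (cs_mul _ _)
  obtain ⟨Y, h1, h2, h3, h4⟩ := prd Finset.univ
  obtain ⟨R, hR⟩ : ∃ R, R = ∏ a, V a := ⟨_, rfl⟩
  rw [← hR] at h3 h4 ⊢
  have hfg : ∀ s : Finset Γ, (∏ a ∈ s, V a).FG := by
    intro s
    induction s using Finset.induction_on with
    | empty =>
      rw [Finset.prod_empty]
      exact ⟨{1}, by rw [Finset.coe_singleton, Submodule.one_eq_span]⟩
    | insert a s has ih =>
      rw [Finset.prod_insert has]
      exact (Module.Finite.iff_fg.1 (inferInstance : FiniteDimensional k (V a))).mul ih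
  have hRfg : R.FG := by
    rw [hR]
    exact hfg _
  have : FiniteDimensional k R := Module.Finite.iff_fg.2 hRfg
  have hmem : ∀ z ∈ Y, z ∈ W t (Fintype.card Γ * M) Θ R (∑ a, n a + 1) := by
    intro z hz
    obtain ⟨u, hu1, hu2⟩ := h2 z hz
    refine ⟨fun i l hl => ?_, h3 z hz⟩
    have h5 := tc_prod_mem (t := t i) (V := V) (F := fun a => F a i) (Θ := Θ i) (fun a => hF0 a i) (hΘ i) (hΘ1 i) (M := M) u
      (fun a l hl => (hZ2 a _ (hu1 a (Finset.mem_univ a))).1 i l hl)
      (fun a b => (hZ2 a _ (hu1 a (Finset.mem_univ a))).2.1 b) Finset.univ l (fun _ => 0) (fun _ => 0)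
      (fun a => zero_mem _) (fun a => zero_mem _)
    rw [← hu2, Finset.compl_univ, Finset.prod_empty, Finset.sum_empty, mul_one, add_zero, Finset.card_univ] at h5
    exact h5
  have key := count ht hΘ h1 hmem h4
  obtain ⟨D, hD⟩ : ∃ D, D = finrank k R := ⟨_, rfl⟩
  obtain ⟨S, hS⟩ : ∃ S, S = Sw (Fintype.card Γ * M) Θ R := ⟨_, rfl⟩
  obtain ⟨q, hq⟩ : ∃ q, q = Fintype.card I := ⟨_, rfl⟩
  obtain ⟨p, hp⟩ : ∃ p, p = Fintype.card Γ := ⟨_, rfl⟩
  rw [← hp] at hS key ⊢
  rw [← hS] at key ⊢
  rw [← hD, ← hq] at key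
  rw [← hD, ← hq]
  rw [← hq] at hZ4
  have k1 : ∑ a : Γ, (r * n a + T) ≤ ∑ _a : Γ, r * (q * M + r * q + 1) := Finset.sum_le_sum fun a _ => hZ4 a
  rw [Finset.sum_add_distrib, ← Finset.mul_sum, Finset.sum_const, Finset.sum_const, Finset.card_univ, smul_eq_mul, smul_eq_mul,
    ← hp] at k1
  obtain ⟨n0, hn0⟩ : ∃ n0, n0 = ∑ a, n a := ⟨_, rfl⟩
  rw [← hn0] at k1 key
  have k2 := Nat.mul_le_mul_left r key
  have k3 := Nat.mul_le_mul_left D k1
  nlinarith

end Pool.Agent.SQ
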