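import Pool.Agent.Helper42.SQ.Defs2
import Pool.Agent.Helper42.SQ.SNF
import Pool.Agent.Helper42.SQ.BM2g
import Pool.Agent.Helper42.SQ.GROg
import Pool.Agent.Helper42.SQ.INV
import Pool.Agent.Helper67.SQ4.TenF

/-!
# Theorem A for arbitrary flags and good sets (all algebraic points of bounded degree)

The elementary lemmas and the structure of the proof are from `Pool/Agent/Helper42/SQ/ABSg.lean` (helper63).
-/

set_option autoImplicit false

namespace Pool.Agent.SQ

open Module Polynomial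

universe u

section

variable {k K : Type u} [Field k] [Field K] [Algebra k K]

section

variable {ω : K → ℝ} (h : RV k ω)

private theorem lev_mul67f (a b : ℝ) : lev h a * lev h b ≤ lev h (a + b) := by
  rw [Submodule.mul_le]
  intro x hx y hy
  by_cases hx0 : x = 0
  · subst hx0
    exact Or.inl (zero_mul y)
  by_cases hy0 : y = 0
  · subst hy0
    exact Or.inl (mul_zero x)
  have hx1 : a ≤ ω x := hx.resolve_left hx0
  have hy1 : b ≤ ω y := hy.resolve_left hy0
  right
  rw [h.mul x y hx0 hy0]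
  linarith

private theorem lev_anti67f {a b : ℝ} (hab : a ≤ b) : lev h b ≤ lev h a := by
  intro x hx
  rcases hx with hx | hx
  · exact Or.inl hx
  · exact Or.inr (hab.trans hx)

private theorem one_lev67f : (1 : Submodule k K) ≤ lev h 0 := by
  rw [Submodule.one_le]
  right
  have h1 := h.mul 1 1 one_ne_zero one_ne_zero
  rw [mul_one] at h1
  linarith

private theorem lev_prod67f {α : Type*} (S : Finset α) (E : α → Submodule k K) (c : α → ℝ)
    (hE : ∀ a ∈ S, E a ≤ lev h (c a)) : ∏ a ∈ S, E a ≤ lev h (∑ a ∈ S, c a) := by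
  classical
  induction S using Finset.induction_on with
  | empty => simpa using one_lev67f h
  | insert a S ha ih =>
    rw [Finset.prod_insert ha, Finset.sum_insert ha]
    exact (mul_le_mul' (hE a (Finset.mem_insert_self a S)) (ih fun b hb => hE b (Finset.mem_insert_of_mem hb))).trans
      (lev_mul67f h _ _)

private theorem lev_pow67f {E : Submodule k K} {c : ℝ} (hE : E ≤ lev h c) (m : ℕ) : E ^ m ≤ lev h (m * c) := by
  induction m with
  | zero => simpa using one_lev67f h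
  | succ m ih =>
    rw [pow_succ]
    refine (mul_le_mul' ih hE).trans ((lev_mul67f h _ _).trans (le_of_eq ?_))
    push_cast
    congr 1
    ring

end

private theorem SN_congr67f {ω ω' : K → ℝ} (h : RV k ω) (h' : RV k ω') (e : ω = ω') (N : ℕ) (c : ℝ) (E : Submodule k K) :
    SN h N c E = SN h' N c E := by
  subst e
  rfl

private theorem map_mul67f (τ : K ≃ₐ[k] K) (E F : Submodule k K) :
    (E * F).map τ.toLinearMap = E.map τ.toLinearMap * F.map τ.toLinearMap :=
  Submodule.map_mul E F (τ : K →ₐ[k] K)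

private theorem map_prod67f {α : Type*} (τ : K ≃ₐ[k] K) (S : Finset α) (E : α → Submodule k K) :
    (∏ a ∈ S, E a).map τ.toLinearMap = ∏ a ∈ S, (E a).map τ.toLinearMap := by
  classical
  induction S using Finset.induction_on with
  | empty =>
    rw [Finset.prod_empty, Finset.prod_empty]
    exact Submodule.map_one (τ : K →ₐ[k] K)
  | insert a S ha ih => rw [Finset.prod_insert ha, Finset.prod_insert ha, map_mul67f, ih]

private theorem map_pow67f (τ : K ≃ₐ[k] K) (E : Submodule k K) (m : ℕ) :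
    (E ^ m).map τ.toLinearMap = (E.map τ.toLinearMap) ^ m := by
  induction m with
  | zero =>
    rw [pow_zero, pow_zero]
    exact Submodule.map_one (τ : K →ₐ[k] K)
  | succ m ih => rw [pow_succ, pow_succ, map_mul67f, ih]

private theorem fr_map67f (τ : K ≃ₐ[k] K) (E : Submodule k K) : finrank k (E.map τ.toLinearMap) = finrank k E :=
  LinearEquiv.finrank_map_eq τ.toLinearEquiv E

private theorem fd_prod67f {α : Type*} (S : Finset α) (E : α → Submodule k K) (h : ∀ a, FiniteDimensional k (E a)) :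
    FiniteDimensional k ↥(∏ a ∈ S, E a) := by
  classical
  induction S using Finset.induction_on with
  | empty =>
    rw [Finset.prod_empty, Submodule.one_eq_span]
    exact FiniteDimensional.span_singleton k 1
  | insert a S ha ih =>
    rw [Finset.prod_insert ha]
    rw [← Submodule.fg_iff_finiteDimensional] at ih ⊢
    exact ((Submodule.fg_iff_finiteDimensional _).2 (h a)).mul ih

private theorem fd_pow67f (E : Submodule k K) [FiniteDimensional k E] (m : ℕ) : FiniteDimensional k ↥(E ^ m) := by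
  rw [← Submodule.fg_iff_finiteDimensional]
  exact ((Submodule.fg_iff_finiteDimensional _).2 inferInstance).pow m

private theorem mem_prod67f {α : Type*} (S : Finset α) (E : α → Submodule k K) (z : α → K) (h : ∀ a ∈ S, z a ∈ E a) :
    ∏ a ∈ S, z a ∈ ∏ a ∈ S, E a := by
  classical
  induction S using Finset.induction_on with
  | empty =>
    rw [Finset.prod_empty, Finset.prod_empty]
    exact Submodule.one_le.1 le_rfl
  | insert a S ha ih =>
    rw [Finset.prod_insert ha, Finset.prod_insert ha]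
    exact Submodule.mul_mem_mul (h a (Finset.mem_insert_self a S)) (ih fun b hb => h b (Finset.mem_insert_of_mem hb))

variable {G : Type*} [Group G] (s : G →* (K ≃ₐ[k] K))

private theorem ss67f (a b : G) (x : K) : s a (s b x) = s (a * b) x := by
  rw [map_mul]
  rfl

private theorem s_inv67f (a : G) (x : K) : s a (s a⁻¹ x) = x := by
  rw [ss67f, mul_inv_cancel, map_one]
  rfl

private theorem map_map67f (a b : G) (E : Submodule k K) :
    (E.map (s a).toLinearMap).map (s b).toLinearMap = E.map (s (b * a)).toLinearMap := by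
  rw [← Submodule.map_comp]
  congr 1
  ext x
  exact ss67f s b a x

private theorem stab67f [Fintype G] (E : Submodule k K) (h : G) :
    (∏ a, E.map (s a).toLinearMap).map (s h).toLinearMap = ∏ a, E.map (s a).toLinearMap := by
  rw [map_prod67f]
  simp only [map_map67f]
  exact Fintype.prod_equiv (Equiv.mulLeft h) _ _ fun a => rfl

private theorem inv_mem67f {E : Submodule k K} (hE : ∀ h, E.map (s h).toLinearMap = E) (h : G) {z : K} (hz : z ∈ E) :
    s h z ∈ E := by
  rw [← hE h]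
  exact ⟨z, hz, rfl⟩

private theorem pow_stab67f {E : Submodule k K} (hE : ∀ h, E.map (s h).toLinearMap = E) (m : ℕ) (h : G) :
    (E ^ m).map (s h).toLinearMap = E ^ m := by
  rw [map_pow67f, hE]


/-- one level: `d` conjugates of `A` suffice -/
private theorem level67f [Fintype G] {ω : K → ℝ} (hω : RV k ω) (cs : ℝ) (W Q : Submodule k K) [FiniteDimensional k W]
    (hWs : ∀ h, W.map (s h).toLinearMap = W) (hW : ∀ h, W ≤ lev (hω.comp (s h)) (-cs)) (w q hh q' : ℕ) (hQ : Q ≤ W ^ q)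
    {d : ℕ} (hd : 0 < d) (ρ : Fin d → G) (Cs : Set G) (nv : ℕ)
    (hρ : ∀ g, ∃ S : Finset (Fin d), (∀ i, i ∈ S ↔ g * ρ i ∈ Cs) ∧ S.card = nv)
    (hbm : ∀ (m : Fin d → ℕ) (A : Fin d → Submodule k K), (∀ i, A i ≤ W ^ m i) → BMg d w Q A)
    (hinv : ∀ (m : ℕ) (B : Submodule k K), B ≤ W ^ m → (∀ g, ∀ z ∈ B, s g z ∈ B) →
        finrank k B ≤ hh * finrank k (fx s (B * W ^ q'))) (m : ℕ) (a : ℝ) (A : Submodule k K) (hAW : A ≤ W ^ m)
    (hA : ∀ g ∈ Cs, A ≤ lev (hω.comp (s g)) (a - m * cs)) :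
    d ^ w * finrank k A ≤
      hh * finrank k ↥(fx s (W ^ (d * m + q + q')) ⊓ lev hω (nv * a - ((d * m + q + q' : ℕ) : ℝ) * cs)) := by
  have hfd := fd_pow67f W
  have hAm : ∀ g, A.map (s g).toLinearMap ≤ W ^ m := by
    intro g
    rw [← pow_stab67f s hWs m g]
    exact Submodule.map_mono hAW
  -- Brunn-Minkowski
  have h1 : d ^ w * finrank k A ≤ finrank k ↥((∏ i : Fin d, A.map (s (ρ i)).toLinearMap) * Q) := by
    have h2 := hbm (fun _ => m) (fun i => A.map (s (ρ i)).toLinearMap) (fun i => hAm _)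
    unfold BMg at h2
    simp only [fr_map67f] at h2
    rw [Finset.prod_const, Finset.card_univ, Fintype.card_fin, mul_comm d w, pow_mul, ← mul_pow] at h2
    exact le_of_pow_le_pow_left₀ hd.ne' (Nat.zero_le _) h2
  -- the stable space
  obtain ⟨M, hM⟩ : ∃ M, M = d * m + q := ⟨_, rfl⟩
  obtain ⟨B, hB⟩ : ∃ B : Submodule k K, B = W ^ M ⊓ ⨅ h : G, lev (hω.comp (s h)) (nv * a - M * cs) := ⟨_, rfl⟩
  have hBW : B ≤ W ^ M := hB ▸ inf_le_left
  have h4 : (∏ i : Fin d, A.map (s (ρ i)).toLinearMap) * Q ≤ B := by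
    rw [hB]
    refine le_inf ?_ (le_iInf fun h => ?_)
    · rw [hM, pow_add]
      refine mul_le_mul' ?_ hQ
      calc (∏ i : Fin d, A.map (s (ρ i)).toLinearMap) ≤ ∏ _i : Fin d, W ^ m :=
            Finset.prod_le_prod' fun i _ => hAm _
        _ = W ^ (d * m) := by
            rw [Finset.prod_const, Finset.card_univ, Fintype.card_fin, ← pow_mul, mul_comm]
    · classical
      obtain ⟨S, hS1, hS2⟩ := hρ h
      have h5 : (∏ i : Fin d, A.map (s (ρ i)).toLinearMap) ≤ lev (hω.comp (s h))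
          (∑ i : Fin d, (m * (-cs) + if i ∈ S then a else 0)) := by
        refine lev_prod67f _ _ _ _ fun i _ => ?_
        split_ifs with hg
        · rw [show m * (-cs) + a = a - m * cs by ring]
          rintro _ ⟨x, hx, rfl⟩
          rcases hA (h * ρ i) ((hS1 i).1 hg) hx with h0 | h0
          · left
            simp [h0]
          · right
            show a - m * cs ≤ ω (s h (s (ρ i) x))
            rw [ss67f]
            exact h0
        · rw [add_zero]
          exact le_trans (hAm _) (lev_pow67f (hω.comp (s h)) (hW h) m)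
      refine (mul_le_mul' h5 (hQ.trans (lev_pow67f (hω.comp (s h)) (hW h) q))).trans ((lev_mul67f _ _ _).trans (le_of_eq ?_))
      congr 1
      rw [Finset.sum_add_distrib, Finset.sum_ite_mem, Finset.univ_inter, Finset.sum_const, Finset.sum_const, hS2,
        Finset.card_univ, Fintype.card_fin, nsmul_eq_mul, nsmul_eq_mul, hM]
      push_cast
      ring
  have hfB : FiniteDimensional k B := Submodule.finiteDimensional_of_le hBW
  have h6 : finrank k ↥((∏ i : Fin d, A.map (s (ρ i)).toLinearMap) * Q) ≤ finrank k B := Submodule.finrank_mono h4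
  have hBs : ∀ g, ∀ z ∈ B, s g z ∈ B := by
    intro g z hz
    rw [hB] at hz ⊢
    refine ⟨inv_mem67f s (pow_stab67f s hWs M) g hz.1, ?_⟩
    have h7 := hz.2
    simp only [SetLike.mem_coe, Submodule.mem_iInf] at h7 ⊢
    intro h
    rcases h7 (h * g) with h0 | h0
    · left
      simp [h0]
    · right
      show nv * a - M * cs ≤ ω (s h (s g z))
      rw [ss67f]
      exact h0
  have h8 := hinv M B hBW hBs
  have h9 : fx s (B * W ^ q') ≤ fx s (W ^ (M + q')) ⊓ lev hω (nv * a - ((M + q' : ℕ) : ℝ) * cs) := by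
    rintro z ⟨hz1, hz2⟩
    refine ⟨⟨?_, hz2⟩, ?_⟩
    · rw [pow_add]
      exact mul_le_mul' hBW le_rfl hz1
    · have h10 : B ≤ lev (hω.comp (s 1)) (nv * a - M * cs) := by
        rw [hB]
        exact inf_le_right.trans (iInf_le _ 1)
      have h11 := (mul_le_mul' h10 (lev_pow67f (hω.comp (s 1)) (hW 1) q')).trans (lev_mul67f _ _ _) hz1
      have h12 : nv * a - M * cs + q' * (-cs) = nv * a - ((M + q' : ℕ) : ℝ) * cs := by push_cast; ring
      rw [h12] at h11
      rcases h11 with h0 | h0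
      · exact Or.inl h0
      · right
        have h13 : s 1 z = z := hz2 1
        have h14 : nv * a - ((M + q' : ℕ) : ℝ) * cs ≤ ω (s 1 z) := h0
        rwa [h13] at h14
  have hfx : FiniteDimensional k ↥(fx s (W ^ (M + q')) ⊓ lev hω (nv * a - ((M + q' : ℕ) : ℝ) * cs)) := by
    have h15 : fx s (W ^ (M + q')) ⊓ lev hω (nv * a - ((M + q' : ℕ) : ℝ) * cs) ≤ W ^ (M + q') := fun z hz => hz.1.1
    exact Submodule.finiteDimensional_of_le h15
  have h16 := Submodule.finrank_mono h9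
  rw [← hM]
  calc d ^ w * finrank k A ≤ finrank k B := h1.trans h6
    _ ≤ hh * finrank k (fx s (B * W ^ q')) := h8
    _ ≤ _ := Nat.mul_le_mul_left _ h16

/-- blocks of length `n` -/
private theorem layer67f (f : ℕ → ℕ) (hf : ∀ i j, i ≤ j → f j ≤ f i) (n J : ℕ) :
    n * ∑ j ∈ Finset.range J, f (n * (j + 1)) ≤ ∑ j ∈ Finset.range (n * J), f (j + 1) := by
  induction J with
  | zero => simp
  | succ J ih =>
    rw [Finset.sum_range_succ, mul_add, Nat.mul_succ, Finset.sum_range_add]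
    refine Nat.add_le_add ih ?_
    calc n * f (n * (J + 1)) = ∑ _x ∈ Finset.range n, f (n * (J + 1)) := by
          rw [Finset.sum_const, Finset.card_range, smul_eq_mul]
      _ ≤ ∑ x ∈ Finset.range n, f (n * J + x + 1) := by
          refine Finset.sum_le_sum fun x hx => hf _ _ ?_
          have := Finset.mem_range.1 hx
          rw [Nat.mul_succ]
          omega


private theorem val_prod67f {ω : K → ℝ} (h : RV k ω) {α : Type*} (S : Finset α) (b : α → K) (hb : ∀ a ∈ S, b a ≠ 0) :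
    ω (∏ a ∈ S, b a) = ∑ a ∈ S, ω (b a) := by
  classical
  induction S using Finset.induction_on with
  | empty =>
    have h1 := h.mul 1 1 one_ne_zero one_ne_zero
    rw [mul_one] at h1
    rw [Finset.prod_empty, Finset.sum_empty]
    linarith
  | insert a S ha ih =>
    rw [Finset.prod_insert ha, Finset.sum_insert ha, h.mul _ _ (hb a (Finset.mem_insert_self a S)),
      ih fun b hb' => hb b (Finset.mem_insert_of_mem hb')]
    rw [Finset.prod_ne_zero_iff]
    exact fun b hb' => hb b (Finset.mem_insert_of_mem hb')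

/-- the weight of a subspace for the flags -/
private noncomputable def TF67 {P : Type*} [Fintype P] [Fintype G] (Gd : P → Finset G) (Fl : P → G → ℕ → Submodule k K) (M : ℕ)
    (E : Submodule k K) : ℕ :=
  ∑ v, (Gd v).card * ∑ a, ∑ j ∈ Finset.range M, finrank k (Fl v a (j + 1) ⊓ E : Submodule k K)

private theorem TF_mono67 {P : Type*} [Fintype P] [Fintype G] (Gd : P → Finset G) (Fl : P → G → ℕ → Submodule k K) (M : ℕ)
    {E E' : Submodule k K} [FiniteDimensional k E] (h : E' ≤ E) : TF67 Gd Fl M E' ≤ TF67 Gd Fl M E := by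
  refine Finset.sum_le_sum fun v _ => Nat.mul_le_mul_left _ (Finset.sum_le_sum fun a _ => Finset.sum_le_sum fun j _ => ?_)
  have : FiniteDimensional k (Fl v a (j + 1) ⊓ E : Submodule k K) := Submodule.finiteDimensional_inf_right _ _
  exact Submodule.finrank_mono (inf_le_inf_left _ h)

private theorem TF_bot67 {P : Type*} [Fintype P] [Fintype G] (Gd : P → Finset G) (Fl : P → G → ℕ → Submodule k K) (M : ℕ) :
    TF67 Gd Fl M ⊥ = 0 := by
  refine Finset.sum_eq_zero fun v _ => ?_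
  rw [Finset.sum_eq_zero, mul_zero]
  intro a _
  refine Finset.sum_eq_zero fun j _ => ?_
  rw [inf_bot_eq, finrank_bot]

/-- a subspace of maximal slope -/
private theorem slope67f {P : Type*} [Fintype P] [Fintype G] (Gd : P → Finset G) (Fl : P → G → ℕ → Submodule k K) (M : ℕ)
    (V : Submodule k K) [FiniteDimensional k V] (hV : V ≠ ⊥) :
    ∃ V' ≤ V, V' ≠ ⊥ ∧ ∀ E ≤ V, finrank k V' * TF67 Gd Fl M E ≤ TF67 Gd Fl M V' * finrank k E := by
  have hfr : ∀ E ≤ V, E ≠ ⊥ → 0 < finrank k E := by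
    intro E hE hE0
    have : FiniteDimensional k E := Submodule.finiteDimensional_of_le hE
    exact Nat.pos_of_ne_zero fun h => hE0 (Submodule.finrank_eq_zero.1 h)
  obtain ⟨R, hR⟩ : ∃ R : Set ℚ, R = {x | ∃ E ≤ V, E ≠ ⊥ ∧ x = (TF67 Gd Fl M E : ℚ) / finrank k E} := ⟨_, rfl⟩
  have hfin : R.Finite := by
    refine (((Finset.range (TF67 Gd Fl M V + 1)) ×ˢ (Finset.range (finrank k V + 1))).finite_toSet.image
      fun x : ℕ × ℕ => (x.1 : ℚ) / x.2).subset ?_
    rw [hR]
    rintro _ ⟨E, hE, hE0, rfl⟩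
    refine ⟨(TF67 Gd Fl M E, finrank k E), ?_, rfl⟩
    rw [Finset.mem_coe, Finset.mem_product, Finset.mem_range, Finset.mem_range]
    exact ⟨Nat.lt_succ_of_le (TF_mono67 Gd Fl M hE), Nat.lt_succ_of_le (Submodule.finrank_mono hE)⟩
  have hne : R.Nonempty := ⟨_, by rw [hR]; exact ⟨V, le_rfl, hV, rfl⟩⟩
  obtain ⟨x, hx, hmax⟩ := Set.exists_max_image R id hfin hne
  rw [hR] at hx
  obtain ⟨V', hV', hV0, rfl⟩ := hx
  refine ⟨V', hV', hV0, fun E hE => ?_⟩
  by_cases hE0 : E = ⊥
  · subst hE0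
    rw [TF_bot67, mul_zero]
    exact Nat.zero_le _
  have h1 := hmax ((TF67 Gd Fl M E : ℚ) / finrank k E) (by rw [hR]; exact ⟨E, hE, hE0, rfl⟩)
  have h2 : (TF67 Gd Fl M E : ℚ) / finrank k E ≤ (TF67 Gd Fl M V' : ℚ) / finrank k V' := h1
  have h3 : (0 : ℚ) < finrank k E := by exact_mod_cast hfr E hE hE0
  have h4 : (0 : ℚ) < finrank k V' := by exact_mod_cast hfr V' hV' hV0
  rw [div_le_div_iff₀ h3 h4] at h2
  have h5 : (finrank k V' : ℚ) * TF67 Gd Fl M E ≤ TF67 Gd Fl M V' * finrank k E := by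
    rw [mul_comm]
    exact h2
  exact_mod_cast h5

/-- the level sets of the product filtration -/
private noncomputable def Th67 {ω : K → ℝ} (hω : RV k ω) (cs : ℝ) (Gd : Finset G) (N m : ℕ) (R : Submodule k K) (g' : G) (j : ℕ) :
    Submodule k K :=
  R ⊓ ⨅ g ∈ Gd, lev (hω.comp (s (g * g'))) ((j : ℝ) / N - m * cs)

private theorem mem_Th67 {ω : K → ℝ} (hω : RV k ω) (cs : ℝ) (Gd : Finset G) (N m : ℕ) (R : Submodule k K) (g' : G) (j : ℕ)
    (z : K) : z ∈ Th67 s hω cs Gd N m R g' j ↔ z ∈ R ∧ ∀ g ∈ Gd, z = 0 ∨ (j : ℝ) / N - m * cs ≤ ω (s (g * g') z) := by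
  unfold Th67
  rw [Submodule.mem_inf, Submodule.mem_iInf]
  refine and_congr_right fun _ => forall_congr' fun g => ?_
  rw [Submodule.mem_iInf]
  rfl

private theorem Th_anti67 {ω : K → ℝ} (hω : RV k ω) (cs : ℝ) (Gd : Finset G) (N m : ℕ) (R : Submodule k K) (g' : G)
    (j j' : ℕ) (hj : j ≤ j') : Th67 s hω cs Gd N m R g' j' ≤ Th67 s hω cs Gd N m R g' j := by
  intro z hz
  rw [mem_Th67] at hz ⊢
  refine ⟨hz.1, fun g hg => (hz.2 g hg).imp_right fun h => le_trans ?_ h⟩
  have h1 : (j : ℝ) ≤ j' := by exact_mod_cast hj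
  have h2 : (j : ℝ) / N ≤ (j' : ℝ) / N := div_le_div_of_nonneg_right h1 (Nat.cast_nonneg N)
  linarith

private theorem coreF67 [Fintype G] [CharZero k] {P : Type*} [Fintype P] (ω : P → K → ℝ) (hω : ∀ v, RV k (ω v)) (c : P → G → ℝ)
    (V : Submodule k K) [FiniteDimensional k V] (ha : ∀ v g, ∀ x ∈ V, x ≠ 0 → 0 ≤ ω v (s g x) + c v g) {A : ℝ} (hA : 0 ≤ A)
    (hS : ∀ (m : ℕ) (E : Submodule k K), E ≤ (∏ g, V.map (s g).toLinearMap) ^ m → (∀ z ∈ E, ∀ g, s g z = z) →
      ∀ (n : P → ℕ) (z : ∀ v, Fin (n v) → K), (∀ v, LinearIndependent k (z v)) → (∀ v i, z v i ∈ E) →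
        ∑ v, ∑ i, (ω v (z v i) + m * ∑ g, c v g) ≤ A * m * finrank k E)
    (Gd : P → Finset G) {N : ℕ} (hN : 0 < N) (Fl : P → G → ℕ → Submodule k K) (hFl : ∀ v a j j', j ≤ j' → Fl v a j' ≤ Fl v a j)
    (V' : Submodule k K) (hV' : V' ≤ V) (h0 : V' ≠ ⊥) (hFl0 : ∀ v a, V' ≤ Fl v a 0)
    (hF : ∀ v, ∀ g ∈ Gd v, ∀ (j : G → ℕ) (b : G → K), (∀ a, b a ∈ V') → (∀ a, b a ∈ Fl v a (j a)) → (∀ a, b a ≠ 0) →
      ((∑ a, j a : ℕ) : ℝ) / N ≤ ∑ a, (ω v (s (g * a) (b a)) + c v (g * a))) (M : ℕ)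
    (hmax : ∀ E ≤ V', finrank k V' * TF67 Gd Fl M E ≤ TF67 Gd Fl M V' * finrank k E) :
    (TF67 Gd Fl M V' : ℝ) ≤
      (A * Fintype.card G * N + (finrank k V' * ((∑ v, (Gd v).card) * Fintype.card G) + 1 : ℕ)) * finrank k V' := by
  classical
  have hfdV : FiniteDimensional k V' := Submodule.finiteDimensional_of_le hV'
  obtain ⟨r, hr⟩ : ∃ r, r = finrank k V' := ⟨_, rfl⟩
  obtain ⟨t, ht⟩ : ∃ t, t = TF67 Gd Fl M V' := ⟨_, rfl⟩
  obtain ⟨d, hd'⟩ : ∃ d, d = Fintype.card G := ⟨_, rfl⟩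
  have hd : 0 < d := by
    rw [hd']
    exact Fintype.card_pos
  have hr0 : 0 < r := by
    rw [hr]
    exact Nat.pos_of_ne_zero fun h => h0 (Submodule.finrank_eq_zero.1 h)
  obtain ⟨cs, hcs⟩ : ∃ cs : P → ℝ, cs = fun v => ∑ g, c v g := ⟨_, rfl⟩
  have hcs' : ∀ v, cs v = ∑ g, c v g := fun v => by rw [hcs]
  obtain ⟨W, hW⟩ : ∃ W : Submodule k K, W = ∏ a, V'.map (s a).toLinearMap := ⟨_, rfl⟩
  have hWs : ∀ h, W.map (s h).toLinearMap = W := fun h => by rw [hW]; exact stab67f s V' h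
  have hmapfd : ∀ a, FiniteDimensional k ↥(V'.map (s a).toLinearMap) := fun a => inferInstance
  have hWfd : FiniteDimensional k W := by rw [hW]; exact fd_prod67f _ _ hmapfd
  have hmaplev : ∀ v h a, V'.map (s a).toLinearMap ≤ lev ((hω v).comp (s h)) (-c v (h * a)) := by
    intro v h a
    rintro _ ⟨x, hx, rfl⟩
    by_cases hx0 : x = 0
    · left
      simp [hx0]
    · right
      show -c v (h * a) ≤ ω v (s h (s a x))
      rw [ss67f]
      have := ha v (h * a) x (hV' hx) hx0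
      linarith
  have hWlev : ∀ v h, W ≤ lev ((hω v).comp (s h)) (-cs v) := by
    intro v h
    have h1 : ∏ a, V'.map (s a).toLinearMap ≤ lev ((hω v).comp (s h)) (∑ a, -c v (h * a)) :=
      lev_prod67f _ _ _ _ fun a _ => hmaplev v h a
    have h2 : ∑ a, -c v (h * a) = -cs v := by
      rw [Finset.sum_neg_distrib, hcs']
      congr 1
      exact Fintype.sum_equiv (Equiv.mulLeft h) _ _ fun a => rfl
    rwa [h2, ← hW] at h1
  -- an invariant
  have hz : ∃ z ∈ W, z ≠ 0 ∧ ∀ g, s g z = z := by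
    obtain ⟨x, hx, hx0⟩ := Submodule.exists_mem_ne_zero_of_ne_bot h0
    refine ⟨∏ a, s a x, ?_, ?_, fun g => ?_⟩
    · rw [hW]
      exact mem_prod67f _ _ _ fun a _ => ⟨x, hx, rfl⟩
    · rw [Finset.prod_ne_zero_iff]
      intro a _
      simpa using hx0
    · rw [map_prod]
      refine Fintype.prod_equiv (Equiv.mulLeft g) _ _ fun a => ?_
      rw [ss67f]
      rfl
  have hW0 : W ≠ ⊥ := by
    obtain ⟨z, hz1, hz2, _⟩ := hz
    intro h
    rw [h] at hz1
    exact hz2 hz1
  obtain ⟨w, q, C', Q, hQ, hbm, hgr⟩ := bm2_g hd W hW0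
  obtain ⟨hh, q', hh0, hinv1, hinv2⟩ := inv_g s W (fun g z hz => inv_mem67f s hWs g hz) hz
  have hfdp : ∀ m : ℕ, FiniteDimensional k ↥(W ^ m) := fun m => fd_pow67f W m
  have hfdf : ∀ m : ℕ, FiniteDimensional k (fx s (W ^ m)) := fun m => by
    have := hfdp m
    exact Submodule.finiteDimensional_of_le (show fx s (W ^ m) ≤ W ^ m from fun _ hz => hz.1)
  obtain ⟨Θ, hΘ⟩ : ∃ Θ : ℕ → P → ℕ → Submodule k K, Θ = fun m v j => Th67 s (hω v) (cs v) (Gd v) N m (W ^ m) 1 j := ⟨_, rfl⟩
  have hΘ' : ∀ m v j, Θ m v j = Th67 s (hω v) (cs v) (Gd v) N m (W ^ m) 1 j := fun m v j => by rw [hΘ]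
  -- semistability
  obtain ⟨nI, hnI⟩ : ∃ nI, nI = (∑ v, (Gd v).card) * d := ⟨_, rfl⟩
  have h1 : ∀ m : ℕ, m * finrank k ↥(W ^ m) * t ≤
      r * (∑ v, (Gd v).card * ∑ j ∈ Finset.range (d * m * M), finrank k (Θ m v (j + 1))) +
      m * finrank k ↥(W ^ m) * (r * (r * nI + 1)) := by
    intro m
    have hfm := hfdp m
    have hsum : ∀ f : P → G → ℕ, ∑ i : (Σ v, Fin (Gd v).card × G), f i.1 i.2.2 = ∑ v, (Gd v).card * ∑ g, f v g := by
      intro f
      rw [Fintype.sum_sigma]
      refine Finset.sum_congr rfl fun v _ => ?_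
      show ∑ y : Fin (Gd v).card × G, f v y.2 = (Gd v).card * ∑ g, f v g
      rw [Fintype.sum_prod_type]
      show ∑ _y : Fin (Gd v).card, ∑ g, f v g = _
      rw [Finset.sum_const, Finset.card_univ, Fintype.card_fin, smul_eq_mul]
    have hcardI : Fintype.card (Σ v, Fin (Gd v).card × G) = nI := by
      rw [Fintype.card_sigma]
      simp only [Fintype.card_prod, Fintype.card_fin]
      rw [hnI, hd', Finset.sum_mul]
    have hprod : ∏ γ : G × Fin m, V'.map (s γ.1).toLinearMap = W ^ m := by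
      rw [Fintype.prod_prod_type_right]
      show ∏ _x : Fin m, ∏ a, V'.map (s a).toLinearMap = W ^ m
      rw [← hW, Finset.prod_const, Finset.card_univ, Fintype.card_fin]
    have hinj : ∀ a : G, Function.Injective (s a).toLinearMap := fun a => (s a).injective
    -- the weights of the subspaces of the factors
    have hSw : ∀ (a : G) (E : Submodule k K), E ≤ V' →
        SQ24.Sw M (fun (i : Σ v, Fin (Gd v).card × G) j => (Fl i.1 (i.2.2⁻¹ * a) j ⊓ V').map (s a).toLinearMap)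
          (E.map (s a).toLinearMap) = TF67 Gd Fl M E := by
      intro a E hE
      unfold SQ24.Sw TF67
      have e1 : ∀ (v : P) (g : G) (j : ℕ), finrank k (((Fl v g (j + 1) ⊓ V').map (s a).toLinearMap ⊓
          E.map (s a).toLinearMap : Submodule k K)) = finrank k (Fl v g (j + 1) ⊓ E : Submodule k K) := by
        intro v g j
        rw [← Submodule.map_inf _ (hinj a), fr_map67f, inf_assoc, inf_eq_right.2 hE]
      have e2 := hsum fun v g => ∑ j ∈ Finset.range M, finrank k (((Fl v (g⁻¹ * a) (j + 1) ⊓ V').map (s a).toLinearMap ⊓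
          E.map (s a).toLinearMap : Submodule k K))
      rw [e2]
      refine Finset.sum_congr rfl fun v _ => ?_
      congr 1
      refine Fintype.sum_equiv ((Equiv.inv G).trans (Equiv.mulRight a)) _ _ fun g => ?_
      exact Finset.sum_congr rfl fun j _ => e1 v _ j
    have h2 := tenF (Γ := G × Fin m) (I := Σ v, Fin (Gd v).card × G) (fun γ => V'.map (s γ.1).toLinearMap) hr0
      (fun γ => by rw [fr_map67f, hr])
      (fun γ i j => (Fl i.1 (i.2.2⁻¹ * γ.1) j ⊓ V').map (s γ.1).toLinearMap)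
      (fun γ i j j' hj => Submodule.map_mono (inf_le_inf_right _ (hFl _ _ _ _ hj)))
      (fun γ i => Submodule.map_mono (le_inf (hFl0 _ _) le_rfl)) M t
      (fun γ => by rw [hSw γ.1 V' le_rfl, ht])
      (fun γ E hE => by
        have e3 : E = (E.comap (s γ.1).toLinearMap).map (s γ.1).toLinearMap := by
          rw [Submodule.map_comap_eq, inf_eq_right.2]
          intro x hx
          exact ⟨s γ.1⁻¹ x, by
            show s γ.1 (s γ.1⁻¹ x) = x
            exact s_inv67f s γ.1 x⟩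
        have e4 : E.comap (s γ.1).toLinearMap ≤ V' := by
          intro x hx
          obtain ⟨y, hy, hxy⟩ := hE hx
          rwa [← hinj γ.1 hxy]
        rw [e3, hSw γ.1 _ e4, fr_map67f, hr, ht]
        exact hmax _ e4)
      (fun i j => Th67 s (hω i.1) (cs i.1) (Gd i.1) N m (W ^ m) i.2.2⁻¹ j)
      (fun i j j' hj => Th_anti67 s _ _ _ _ _ _ _ _ _ hj)
      (by
        intro i j b hb1 hb2
        rw [mem_Th67]
        refine ⟨by rw [← hprod]; exact mem_prod67f _ _ _ fun γ _ => hb1 γ, fun g hg => ?_⟩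
        by_cases hb0 : ∃ γ, b γ = 0
        · obtain ⟨γ, hγ⟩ := hb0
          left
          exact Finset.prod_eq_zero (Finset.mem_univ γ) hγ
        push Not at hb0
        right
        choose b' hb3 hb4 using hb2
        have hb5 : ∀ γ, s γ.1 (b' γ) = b γ := hb4
        have hb6 : ∀ γ, b' γ ≠ 0 := by
          intro γ h
          apply hb0 γ
          rw [← hb5, h, map_zero]
        rw [map_prod, val_prod67f (hω i.1) _ _ (fun γ _ => by simpa using hb0 γ)]
        have e5 : ∀ x : Fin m, ((∑ a, j (a, x) : ℕ) : ℝ) / N ≤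
            ∑ a, (ω i.1 (s (g * i.2.2⁻¹) (b (a, x))) + c i.1 (g * i.2.2⁻¹ * a)) := by
          intro x
          have e6 := hF i.1 g hg (fun a => j (i.2.2 * a, x)) (fun a => b' (i.2.2 * a, x)) (fun a => (hb3 _).2)
            (fun a => by
              have := (hb3 (i.2.2 * a, x)).1
              simpa using this) (fun a => hb6 _)
          have e7 : ∑ a, j (i.2.2 * a, x) = ∑ a, j (a, x) :=
            Fintype.sum_equiv (Equiv.mulLeft i.2.2) _ _ fun a => rfl
          have e8 : ∑ a, (ω i.1 (s (g * a) (b' (i.2.2 * a, x))) + c i.1 (g * a)) =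
              ∑ a, (ω i.1 (s (g * i.2.2⁻¹) (b (a, x))) + c i.1 (g * i.2.2⁻¹ * a)) := by
            refine Fintype.sum_equiv (Equiv.mulLeft i.2.2) _ _ fun a => ?_
            show ω i.1 (s (g * a) (b' (i.2.2 * a, x))) + c i.1 (g * a) =
              ω i.1 (s (g * i.2.2⁻¹) (b (i.2.2 * a, x))) + c i.1 (g * i.2.2⁻¹ * (i.2.2 * a))
            rw [← hb5, ss67f]
            simp only [mul_assoc, inv_mul_cancel_left]
          rw [e7, e8] at e6
          exact e6
        have e9 : ∀ x : Fin m, ((∑ a, j (a, x) : ℕ) : ℝ) / N - cs i.1 ≤ ∑ a, ω i.1 (s (g * i.2.2⁻¹) (b (a, x))) := by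
          intro x
          have e10 := e5 x
          rw [Finset.sum_add_distrib] at e10
          have e11 : ∑ a, c i.1 (g * i.2.2⁻¹ * a) = cs i.1 := by
            rw [hcs']
            exact Fintype.sum_equiv (Equiv.mulLeft (g * i.2.2⁻¹)) _ _ fun a => rfl
          rw [e11] at e10
          linarith
        have e12 : ∑ γ : G × Fin m, ω i.1 (s (g * i.2.2⁻¹) (b γ)) = ∑ x : Fin m, ∑ a, ω i.1 (s (g * i.2.2⁻¹) (b (a, x))) := by
          rw [Fintype.sum_prod_type_right]
        have e13 : ∑ γ : G × Fin m, j γ = ∑ x : Fin m, ∑ a, j (a, x) := by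
          rw [Fintype.sum_prod_type_right]
        rw [e12, e13]
        calc ((∑ x : Fin m, ∑ a, j (a, x) : ℕ) : ℝ) / N - m * cs i.1 =
              ∑ x : Fin m, (((∑ a, j (a, x) : ℕ) : ℝ) / N - cs i.1) := by
              rw [Finset.sum_sub_distrib, Finset.sum_const, Finset.card_univ, Fintype.card_fin, nsmul_eq_mul, ← Finset.sum_div]
              push_cast
              rfl
          _ ≤ _ := Finset.sum_le_sum fun x _ => e9 x)
    rw [hprod, hcardI, Fintype.card_prod, Fintype.card_fin, ← hd'] at h2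
    -- the level sets of the conjugates
    have h3 : SQ24.Sw (d * m * M) (fun (i : Σ v, Fin (Gd v).card × G) j =>
        Th67 s (hω i.1) (cs i.1) (Gd i.1) N m (W ^ m) i.2.2⁻¹ j) (W ^ m) ≤
        d * ∑ v, (Gd v).card * ∑ j ∈ Finset.range (d * m * M), finrank k (Θ m v (j + 1)) := by
      unfold SQ24.Sw
      have e1 : ∀ (v : P) (g : G) (j : ℕ), finrank k (Th67 s (hω v) (cs v) (Gd v) N m (W ^ m) g⁻¹ (j + 1) ⊓ W ^ m : Submodule k K) ≤
          finrank k (Θ m v (j + 1)) := by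
        intro v g j
        have e2 : (Th67 s (hω v) (cs v) (Gd v) N m (W ^ m) g⁻¹ (j + 1) ⊓ W ^ m : Submodule k K).map (s g⁻¹).toLinearMap ≤
            Θ m v (j + 1) := by
          rintro _ ⟨z, hz, rfl⟩
          have hz1 := (mem_Th67 s _ _ _ _ _ _ _ _ _).1 hz.1
          rw [hΘ', mem_Th67]
          refine ⟨inv_mem67f s (pow_stab67f s hWs m) g⁻¹ hz1.1, fun a ha' => (hz1.2 a ha').imp (fun h => ?_) fun h => ?_⟩
          · rw [h, map_zero]
          · show _ ≤ ω v (s (a * 1) (s g⁻¹ z))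
            rw [ss67f, mul_one]
            exact h
        rw [← fr_map67f (s g⁻¹)]
        have : FiniteDimensional k (Θ m v (j + 1)) :=
          Submodule.finiteDimensional_of_le (show Θ m v (j + 1) ≤ W ^ m by rw [hΘ']; exact inf_le_left)
        exact Submodule.finrank_mono e2
      have e3 := hsum fun v g => ∑ j ∈ Finset.range (d * m * M),
        finrank k (Th67 s (hω v) (cs v) (Gd v) N m (W ^ m) g⁻¹ (j + 1) ⊓ W ^ m : Submodule k K)
      rw [e3, Finset.mul_sum]
      refine Finset.sum_le_sum fun v _ => ?_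
      calc (Gd v).card * ∑ g, ∑ j ∈ Finset.range (d * m * M),
            finrank k (Th67 s (hω v) (cs v) (Gd v) N m (W ^ m) g⁻¹ (j + 1) ⊓ W ^ m : Submodule k K)
          ≤ (Gd v).card * ∑ _g : G, ∑ j ∈ Finset.range (d * m * M), finrank k (Θ m v (j + 1)) :=
            Nat.mul_le_mul_left _ (Finset.sum_le_sum fun g _ => Finset.sum_le_sum fun j _ => e1 v g j)
        _ = _ := by
            rw [Finset.sum_const, Finset.card_univ, ← hd', smul_eq_mul]
            ring
    have h4 : d * (m * finrank k ↥(W ^ m) * t) ≤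
        d * (r * (∑ v, (Gd v).card * ∑ j ∈ Finset.range (d * m * M), finrank k (Θ m v (j + 1))) +
          m * finrank k ↥(W ^ m) * (r * (r * nI + 1))) := by
      calc d * (m * finrank k ↥(W ^ m) * t) = d * m * finrank k ↥(W ^ m) * t := by ring
        _ ≤ _ := h2
        _ ≤ r * (d * ∑ v, (Gd v).card * ∑ j ∈ Finset.range (d * m * M), finrank k (Θ m v (j + 1))) +
            d * m * finrank k ↥(W ^ m) * (r * (r * nI + 1)) := Nat.add_le_add_right (Nat.mul_le_mul_left _ h3) _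
        _ = _ := by ring
    exact Nat.le_of_mul_le_mul_left h4 hd
  -- levels
  obtain ⟨ρ⟩ : Nonempty (Fin d ≃ G) := ⟨(finCongr hd').trans (Fintype.equivFin G).symm⟩
  have hρ : ∀ (v : P) (g : G), ∃ S : Finset (Fin d), (∀ i, i ∈ S ↔ g * ρ i ∈ (Gd v : Set G)) ∧ S.card = (Gd v).card := by
    intro v g
    refine ⟨Finset.univ.filter fun i => g * ρ i ∈ Gd v, fun i => by simp, ?_⟩
    refine Finset.card_bij (fun i _ => g * ρ i) (fun i hi => (Finset.mem_filter.1 hi).2) (fun i _ i' _ h => ?_) (fun x hx => ?_)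
    · exact ρ.injective (mul_left_cancel h)
    · refine ⟨ρ.symm (g⁻¹ * x), ?_, ?_⟩
      · rw [Finset.mem_filter]
        refine ⟨Finset.mem_univ _, ?_⟩
        rw [Equiv.apply_symm_apply, mul_inv_cancel_left]
        exact hx
      · rw [Equiv.apply_symm_apply, mul_inv_cancel_left]
  have h2 : ∀ (m J : ℕ) (v : P), d ^ w * ((Gd v).card * ∑ j ∈ Finset.range J, finrank k (Θ m v (j + 1))) ≤
      hh * SN (hω v) N (((d * m + q + q' : ℕ) : ℝ) * cs v) (fx s (W ^ (d * m + q + q'))) := by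
    intro m J v
    have := hfdp m
    have hfE := hfdf (d * m + q + q')
    obtain ⟨M', hM⟩ : ∃ M', M' = d * m + q + q' := ⟨_, rfl⟩
    rw [← hM] at hfE ⊢
    obtain ⟨E, hE⟩ : ∃ E, E = fx s (W ^ M') := ⟨_, rfl⟩
    rw [← hE] at hfE ⊢
    obtain ⟨f, hf⟩ : ∃ f : ℕ → ℕ, f = fun j : ℕ => finrank k ↥(E ⊓ lev (hω v) ((j : ℝ) / N - (M' : ℝ) * cs v)) := ⟨_, rfl⟩
    have hf' : ∀ j, f j = finrank k ↥(E ⊓ lev (hω v) ((j : ℝ) / N - (M' : ℝ) * cs v)) := fun j => by rw [hf]
    have hfanti : ∀ i j, i ≤ j → f j ≤ f i := by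
      intro i j hij
      rw [hf', hf']
      have : FiniteDimensional k ↥(E ⊓ lev (hω v) ((i : ℝ) / N - (M' : ℝ) * cs v)) :=
        Submodule.finiteDimensional_of_le inf_le_left
      refine Submodule.finrank_mono (inf_le_inf le_rfl (lev_anti67f (hω v) ?_))
      have h1 : (i : ℝ) ≤ j := by exact_mod_cast hij
      have h2 : (i : ℝ) / N ≤ (j : ℝ) / N := div_le_div_of_nonneg_right h1 (Nat.cast_nonneg N)
      linarith
    -- one level
    have hlev : ∀ j : ℕ, d ^ w * finrank k (Θ m v (j + 1)) ≤ hh * f ((Gd v).card * (j + 1)) := by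
      intro j
      have hPW : Θ m v (j + 1) ≤ W ^ m := by
        rw [hΘ']
        exact inf_le_left
      have h3 := level67f s (hω v) (cs v) W Q hWs (hWlev v) w q hh q' hQ hd ρ (Gd v : Set G) (Gd v).card (hρ v) hbm hinv2 m
        (((j + 1 : ℕ) : ℝ) / N) (Θ m v (j + 1)) hPW (by
          intro g hg x hx
          rw [hΘ', mem_Th67] at hx
          refine (hx.2 g hg).imp_right fun h => ?_
          rw [mul_one] at h
          exact h)
      rw [← hM, ← hE] at h3
      rw [hf']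
      have e4 : (((Gd v).card * (j + 1) : ℕ) : ℝ) / N - (M' : ℝ) * cs v =
          ((Gd v).card : ℝ) * (((j + 1 : ℕ) : ℝ) / N) - (M' : ℝ) * cs v := by
        push_cast
        ring
      rw [e4]
      exact h3
    have h4 := layer67f f hfanti (Gd v).card J
    have h5 : ∑ j ∈ Finset.range ((Gd v).card * J), f (j + 1) ≤ SN (hω v) N ((M' : ℝ) * cs v) E := by
      have h6 := SN_ge_sum (hω v) E hN ((M' : ℝ) * cs v) ((Gd v).card * J)
      refine le_trans (le_of_eq ?_) h6
      rw [Finset.range_eq_Ico, Finset.sum_Ico_add' f 0 ((Gd v).card * J) 1]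
      refine Finset.sum_congr ?_ fun j _ => hf' j
      ext j
      simp only [Finset.mem_Ico, Finset.mem_Icc]
      omega
    calc d ^ w * ((Gd v).card * ∑ j ∈ Finset.range J, finrank k (Θ m v (j + 1)))
        = (Gd v).card * ∑ j ∈ Finset.range J, d ^ w * finrank k (Θ m v (j + 1)) := by
          rw [← Finset.mul_sum]
          ring
      _ ≤ (Gd v).card * ∑ j ∈ Finset.range J, hh * f ((Gd v).card * (j + 1)) :=
          Nat.mul_le_mul_left _ (Finset.sum_le_sum fun j _ => hlev j)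
      _ = hh * ((Gd v).card * ∑ j ∈ Finset.range J, f ((Gd v).card * (j + 1))) := by
          rw [← Finset.mul_sum]
          ring
      _ ≤ _ := Nat.mul_le_mul_left _ (h4.trans h5)
  -- the hypothesis SUB
  have h3 : ∀ M : ℕ, (∑ v, SN (hω v) N (M * cs v) (fx s (W ^ M)) : ℝ) ≤ N * (A * M * finrank k (fx s (W ^ M))) := by
    intro M
    have := hfdf M
    have hle : ∀ v, ∀ x ∈ fx s (W ^ M), x ≠ 0 → 0 ≤ ω v x + M * cs v := by
      intro v x hx hx0
      have h4 := lev_pow67f ((hω v).comp (s 1)) (hWlev v 1) M hx.1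
      have h5 : (M : ℝ) * (-cs v) ≤ ω v (s 1 x) := h4.resolve_left hx0
      rw [hx.2 1] at h5
      linarith
    choose e he1 he2 he3 using fun v => SN_le (hω v) (fx s (W ^ M)) hN (M * cs v) (hle v)
    have hEV : fx s (W ^ M) ≤ (∏ g, V.map (s g).toLinearMap) ^ M := by
      have h6 : W ≤ ∏ g, V.map (s g).toLinearMap := by
        rw [hW]
        exact Finset.prod_le_prod' fun g _ => Submodule.map_mono hV'
      exact (show fx s (W ^ M) ≤ W ^ M from fun _ hz => hz.1).trans (pow_le_pow_left' h6 M)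
    have h7 := hS M (fx s (W ^ M)) hEV (fun z hz => hz.2) (fun _ => finrank k (fx s (W ^ M))) e he1 he2
    calc (∑ v, SN (hω v) N (M * cs v) (fx s (W ^ M)) : ℝ) ≤ ∑ v, N * ∑ i, (ω v (e v i) + M * cs v) :=
          Finset.sum_le_sum fun v _ => he3 v
      _ = N * ∑ v, ∑ i, (ω v (e v i) + M * ∑ g, c v g) := by
          rw [Finset.mul_sum]
          simp only [hcs']
      _ ≤ N * (A * M * finrank k (fx s (W ^ M))) := by gcongr
  -- conclusion
  obtain ⟨D, hD⟩ : ∃ D : ℕ → ℕ, D = fun m => finrank k ↥(W ^ m) := ⟨_, rfl⟩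
  have hD' : ∀ m, finrank k ↥(W ^ m) = D m := fun m => by rw [hD]
  have hD1 : ∀ m, 1 ≤ D m := by
    intro m
    rw [← hD']
    have := hfdp m
    rw [Submodule.one_le_finrank_iff]
    intro h
    obtain ⟨z, hz1, hz2, _⟩ := hz
    have h4 : z ^ m ∈ W ^ m := Submodule.pow_mem_pow W hz1 m
    rw [h] at h4
    exact pow_ne_zero m hz2 h4
  rw [← ht, ← hr, ← hd', ← hnI]
  by_contra hlt
  push Not at hlt
  obtain ⟨C0, hC0⟩ : ∃ C0, C0 = r * nI + 1 := ⟨_, rfl⟩
  rw [← hC0] at hlt
  simp only [← hC0] at h1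
  obtain ⟨δ, hδ⟩ : ∃ δ : ℝ, δ = t - (A * d * N + C0) * r := ⟨_, rfl⟩
  have hδ0 : 0 < δ := by
    rw [hδ, sub_pos]
    exact hlt
  have hdR : (0 : ℝ) < d := by exact_mod_cast hd
  have hrR : (0 : ℝ) < r := by exact_mod_cast hr0
  have hNR : (0 : ℝ) < N := by exact_mod_cast hN
  obtain ⟨B, hB⟩ : ∃ B : ℝ, B = A + 1 := ⟨_, rfl⟩
  have hB0 : 0 < B := by rw [hB]; linarith
  obtain ⟨ε, hε⟩ : ∃ ε : ℝ, ε = δ / (2 * (r * N * B * d)) := ⟨_, rfl⟩
  have hε0 : 0 < ε := by rw [hε]; positivity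
  obtain ⟨m0, hm0⟩ := exists_nat_gt (2 * (r * N * B * (q + q') * (1 + ε)) / δ)
  obtain ⟨m, hm, hgm⟩ := gro_g hd D hD1 w C' (fun m => by rw [← hD']; exact hgr m) (q + q' + q') hε0 (m0 + 1)
  have hmR : (m0 : ℝ) + 1 ≤ m := by exact_mod_cast hm
  -- chain
  obtain ⟨M', hM⟩ : ∃ M', M' = d * m + q + q' := ⟨_, rfl⟩
  obtain ⟨sp, hsp⟩ : ∃ sp : ℕ, sp = ∑ v, (Gd v).card * ∑ j ∈ Finset.range (d * m * M), finrank k (Θ m v (j + 1)) := ⟨_, rfl⟩
  have k1 := h1 m
  rw [← hsp] at k1
  have k2 : d ^ w * sp ≤ hh * ∑ v, SN (hω v) N ((M' : ℝ) * cs v) (fx s (W ^ M')) := by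
    rw [hsp, Finset.mul_sum, Finset.mul_sum]
    refine Finset.sum_le_sum fun v _ => ?_
    rw [hM]
    exact h2 m _ v
  have k3 := h3 M'
  have k4 := hinv1 M'
  rw [hD'] at k1 k4
  have k5 : M' + q' = d * m + (q + q' + q') := by rw [hM]; ring
  rw [k5] at k4
  have k1' : (m : ℝ) * D m * t ≤ r * sp + m * D m * (r * C0) := by
    exact_mod_cast k1
  have k2' : (d : ℝ) ^ w * sp ≤ hh * (∑ v, SN (hω v) N ((M' : ℝ) * cs v) (fx s (W ^ M')) : ℝ) := by
    exact_mod_cast k2
  have k4' : (hh : ℝ) * finrank k (fx s (W ^ M')) ≤ D (d * m + (q + q' + q')) := by exact_mod_cast k4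
  have hhR : (0 : ℝ) < hh := by exact_mod_cast hh0
  have hDm : (0 : ℝ) < D m := by exact_mod_cast hD1 m
  have hMR : (M' : ℝ) = d * m + q + q' := by rw [hM]; push_cast; ring
  have hM0 : (0 : ℝ) ≤ M' := Nat.cast_nonneg _
  have hdw : (0 : ℝ) < (d : ℝ) ^ w := by positivity
  obtain ⟨S1, hS1⟩ : ∃ S1 : ℝ, S1 = sp := ⟨_, rfl⟩
  obtain ⟨S2, hS2⟩ : ∃ S2 : ℝ, S2 = (∑ v, SN (hω v) N ((M' : ℝ) * cs v) (fx s (W ^ M')) : ℝ) := ⟨_, rfl⟩
  rw [← hS1] at k1' k2'
  rw [← hS2] at k2' k3
  have k6 : (d : ℝ) ^ w * S1 ≤ N * A * M' * ((1 + ε) * d ^ w * D m) := by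
    calc (d : ℝ) ^ w * S1 ≤ hh * S2 := k2'
      _ ≤ hh * (N * (A * M' * finrank k (fx s (W ^ M')))) := by gcongr
      _ = N * A * M' * (hh * finrank k (fx s (W ^ M'))) := by ring
      _ ≤ N * A * M' * D (d * m + (q + q' + q')) := by gcongr
      _ ≤ N * A * M' * ((1 + ε) * d ^ w * D m) := by gcongr
  have k7 : S1 ≤ N * A * M' * (1 + ε) * D m := by
    have : (d : ℝ) ^ w * S1 ≤ d ^ w * (N * A * M' * (1 + ε) * D m) := by
      calc (d : ℝ) ^ w * S1 ≤ N * A * M' * ((1 + ε) * d ^ w * D m) := k6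
        _ = _ := by ring
    exact le_of_mul_le_mul_left this hdw
  have k8 : (m : ℝ) * t ≤ r * (N * A * M' * (1 + ε)) + m * (r * C0) := by
    have : (D m : ℝ) * (m * t) ≤ D m * (r * (N * A * M' * (1 + ε)) + m * (r * C0)) := by
      calc (D m : ℝ) * (m * t) = m * D m * t := by ring
        _ ≤ r * S1 + m * D m * (r * C0) := k1'
        _ ≤ r * (N * A * M' * (1 + ε) * D m) + m * D m * (r * C0) := by gcongr
        _ = _ := by ring
    exact le_of_mul_le_mul_left this hDm
  have hm0' : (0 : ℝ) ≤ m := Nat.cast_nonneg _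
  have hq0 : (0 : ℝ) ≤ q := Nat.cast_nonneg _
  have hq0' : (0 : ℝ) ≤ q' := Nat.cast_nonneg _
  have k9 : (m : ℝ) * δ ≤ r * N * B * (q + q') * (1 + ε) + m * (δ / 2) := by
    have e1 : (m : ℝ) * δ = m * t - m * (A * d * N * r) - m * (r * C0) := by rw [hδ]; ring
    have e2 : ε * (r * N * B * d) = δ / 2 := by rw [hε]; field_simp
    have e3 : r * (N * A * M' * (1 + ε)) - m * (A * d * N * r) = r * N * A * (q + q') * (1 + ε) + m * (ε * (r * N * A * d)) := by
      rw [hMR]
      ring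
    have e4 : r * N * A * (q + q') * (1 + ε) ≤ r * N * B * (q + q') * (1 + ε) := by
      have : A ≤ B := by rw [hB]; linarith
      gcongr
    have e5 : m * (ε * (r * N * A * d)) ≤ m * (ε * (r * N * B * d)) := by
      have : A ≤ B := by rw [hB]; linarith
      gcongr
    rw [e2] at e5
    rw [e1]
    linarith
  have k10 : (m : ℝ) * (δ / 2) ≤ r * N * B * (q + q') * (1 + ε) := by linarith
  rw [div_lt_iff₀ hδ0] at hm0
  nlinarith

/-- **Theorem A for arbitrary flags.**  `Fl v a` is a flag on `V` (the factor `a` of the product of the conjugates of `V`); `Gd v` are the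
`g` such that `w_v ∘ g` is at least the product filtration.  The constant does not depend on `N` and on the flags. -/
theorem abs_f [Fintype G] [CharZero k] {P : Type*} [Fintype P] (ω : P → K → ℝ) (hω : ∀ v, RV k (ω v)) (c : P → G → ℝ)
    (V : Submodule k K) [FiniteDimensional k V] (ha : ∀ v g, ∀ x ∈ V, x ≠ 0 → 0 ≤ ω v (s g x) + c v g) {A : ℝ} (hA : 0 ≤ A)
    (hS : ∀ (m : ℕ) (E : Submodule k K), E ≤ (∏ g, V.map (s g).toLinearMap) ^ m → (∀ z ∈ E, ∀ g, s g z = z) →
      ∀ (n : P → ℕ) (z : ∀ v, Fin (n v) → K), (∀ v, LinearIndependent k (z v)) → (∀ v i, z v i ∈ E) →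
        ∑ v, ∑ i, (ω v (z v i) + m * ∑ g, c v g) ≤ A * m * finrank k E)
    (Gd : P → Finset G) :
    ∃ C : ℕ, ∀ N : ℕ, 0 < N → ∀ (Fl : P → G → ℕ → Submodule k K), (∀ v a j j', j ≤ j' → Fl v a j' ≤ Fl v a j) →
      (∀ v a, V ≤ Fl v a 0) →
      (∀ v, ∀ g ∈ Gd v, ∀ (j : G → ℕ) (b : G → K), (∀ a, b a ∈ V) → (∀ a, b a ∈ Fl v a (j a)) → (∀ a, b a ≠ 0) →
        ((∑ a, j a : ℕ) : ℝ) / N ≤ ∑ a, (ω v (s (g * a) (b a)) + c v (g * a))) → ∀ M : ℕ,
      ((∑ v, (Gd v).card * ∑ a, ∑ j ∈ Finset.range M, finrank k (Fl v a (j + 1) ⊓ V : Submodule k K) : ℕ) : ℝ) ≤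
        (A * Fintype.card G * N + C) * finrank k V := by
  refine ⟨finrank k V * ((∑ v, (Gd v).card) * Fintype.card G) + 1, fun N hN Fl hFl hFl0 hF M => ?_⟩
  show (TF67 Gd Fl M V : ℝ) ≤ _
  by_cases hV : V = ⊥
  · subst hV
    rw [TF_bot67, Nat.cast_zero]
    positivity
  obtain ⟨V', hV', hV0, hmax⟩ := slope67f Gd Fl M V hV
  have hfd : FiniteDimensional k V' := Submodule.finiteDimensional_of_le hV'
  have h1 := coreF67 s ω hω c V ha hA hS Gd hN Fl hFl V' hV' hV0 (fun v a => hV'.trans (hFl0 v a))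
    (fun v g hg j b hb1 hb2 hb3 => hF v g hg j b (fun a => hV' (hb1 a)) hb2 hb3) M fun E hE => hmax E (hE.trans hV')
  have h2 := hmax V le_rfl
  have h3 : (0 : ℝ) < finrank k V' := by
    exact_mod_cast Nat.pos_of_ne_zero fun h => hV0 (Submodule.finrank_eq_zero.1 h)
  have h4 : finrank k V' ≤ finrank k V := Submodule.finrank_mono hV'
  have h2' : (finrank k V' : ℝ) * TF67 Gd Fl M V ≤ TF67 Gd Fl M V' * finrank k V := by exact_mod_cast h2
  have h5 : (finrank k V' : ℝ) * TF67 Gd Fl M V ≤ finrank k V' *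
      ((A * Fintype.card G * N + (finrank k V * ((∑ v, (Gd v).card) * Fintype.card G) + 1 : ℕ)) * finrank k V) := by
    calc (finrank k V' : ℝ) * TF67 Gd Fl M V ≤ TF67 Gd Fl M V' * finrank k V := h2'
      _ ≤ ((A * Fintype.card G * N + (finrank k V' * ((∑ v, (Gd v).card) * Fintype.card G) + 1 : ℕ)) * finrank k V') *
          finrank k V := by gcongr
      _ ≤ ((A * Fintype.card G * N + (finrank k V * ((∑ v, (Gd v).card) * Fintype.card G) + 1 : ℕ)) * finrank k V') *
          finrank k V := by gcongr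
      _ = _ := by ring
  exact le_of_mul_le_mul_left h5 h3

end

end Pool.Agent.SQ
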