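import Pool.Agent.Helper24.SQ.TenG

/-!
# Semistability, flags on one factor only

`V` is semistable for the flags of the valuations `ω i`, `U` is any subspace.  The filtration `(V ^ m ∩ {ω i + m c i ≥ j/N}) * U` of
`V ^ m * U` has at least the slope `m (μ - C)`.
-/

set_option autoImplicit false

open Polynomial Module Pointwise

namespace Pool.Agent.SQ

open SQ24

variable {k K : Type*} [Field k] [Field K] [Algebra k K]

attribute [local instance] Polynomial.algebra

/-- the filtration generated by the elements of `V ^ m` of value at least `j / N` -/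
noncomputable def PhiF {ω : K → ℝ} (h : RV k ω) (N : ℕ) (c : ℝ) (V U : Submodule k K) (m : ℕ) (j : ℕ) : Submodule k K :=
  (V ^ m ⊓ lev h ((j : ℝ) / N - m * c)) * U

/-- the sum of the dimensions -/
noncomputable def SP {ω : K → ℝ} (h : RV k ω) (N : ℕ) (c : ℝ) (V U : Submodule k K) (m : ℕ) : ℕ :=
  ∑ᶠ j : ℕ, finrank k ↥(PhiF h N c V U m (j + 1))

section

variable {ω : K → ℝ} (h : RV k ω) (N : ℕ) (c : ℝ) (V U : Submodule k K) (m : ℕ)

theorem PhiF_le (j : ℕ) : PhiF h N c V U m j ≤ V ^ m * U := mul_le_mul' inf_le_left le_rfl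

theorem PhiF_anti {j j' : ℕ} (hj : j ≤ j') : PhiF h N c V U m j' ≤ PhiF h N c V U m j := by
  refine mul_le_mul' (inf_le_inf le_rfl (lev_anti h ?_)) le_rfl
  have h1 : (j : ℝ) ≤ j' := by exact_mod_cast hj
  have h2 : (j : ℝ) / N ≤ (j' : ℝ) / N := div_le_div_of_nonneg_right h1 (Nat.cast_nonneg N)
  linarith

theorem PhiF_bot [FiniteDimensional k V] (hN : 0 < N) : ∃ M : ℕ, ∀ j ≥ M, PhiF h N c V U m (j + 1) = ⊥ := by
  have : FiniteDimensional k ↥(V ^ m) := Module.Finite.iff_fg.2 ((Module.Finite.iff_fg.1 inferInstance).pow m)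
  obtain ⟨M, hM⟩ := lev_bot h (V ^ m) hN (m * c)
  refine ⟨M, fun j hj => ?_⟩
  rw [PhiF]
  have h1 := hM j hj
  push_cast
  rw [h1, Submodule.bot_mul]

theorem SP_support [FiniteDimensional k V] (hN : 0 < N) :
    (Function.support fun j : ℕ => finrank k ↥(PhiF h N c V U m (j + 1))).Finite := by
  obtain ⟨M, hM⟩ := PhiF_bot h N c V U m hN
  refine (Finset.range M).finite_toSet.subset fun j hj => ?_
  rw [Finset.coe_range, Set.mem_Iio]
  by_contra h1
  push Not at h1
  apply hj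
  show finrank k ↥(PhiF h N c V U m (j + 1)) = 0
  rw [hM j h1, finrank_bot]

theorem sum_le_SP [FiniteDimensional k V] (hN : 0 < N) (M : ℕ) :
    ∑ j ∈ Finset.range M, finrank k ↥(PhiF h N c V U m (j + 1)) ≤ SP h N c V U m := by
  classical
  obtain ⟨M0, hM0⟩ := PhiF_bot h N c V U m hN
  rw [SP, finsum_eq_sum_of_support_subset (s := Finset.range (max M M0))]
  · exact Finset.sum_le_sum_of_subset (Finset.range_mono (le_max_left _ _))
  · intro j hj
    rw [Finset.coe_range, Set.mem_Iio]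
    by_contra h1
    push Not at h1
    apply hj
    show finrank k ↥(PhiF h N c V U m (j + 1)) = 0
    rw [hM0 j ((le_max_right _ _).trans h1), finrank_bot]

end

variable {I : Type*} [Fintype I]

/-- **Semistability of tensor products, flags on one factor.** -/
theorem tenP [CharZero k] (ω : I → K → ℝ) (hω : ∀ i, RV k (ω i)) (c : I → ℝ)
    (V U : Submodule k K) [FiniteDimensional k V] [FiniteDimensional k U] (hV : V ≠ ⊥)
    {N : ℕ} (hN : 0 < N) (ha : ∀ i, ∀ x ∈ V, x ≠ 0 → 0 ≤ ω i x + c i)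
    (hss : ∀ E ≤ V, finrank k V * ∑ i, SN (hω i) N (c i) E ≤ (∑ i, SN (hω i) N (c i) V) * finrank k E) (m : ℕ) :
    m * finrank k ↥(V ^ m * U) * ∑ i, SN (hω i) N (c i) V ≤
      finrank k V * ∑ i, SP (hω i) N (c i) V U m +
      m * finrank k ↥(V ^ m * U) * (finrank k V * (finrank k V * Fintype.card I + 1)) := by
  classical
  obtain ⟨t, ht⟩ : ∃ t : I → k, Function.Injective t := by
    refine ⟨fun i => ((Fintype.equivFin I i : ℕ) : k), fun i j hij => ?_⟩
    have h1 : ((Fintype.equivFin I i : Fin _) : ℕ) = (Fintype.equivFin I j : Fin _) := Nat.cast_injective hij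
    exact (Fintype.equivFin I).injective (Fin.ext h1)
  obtain ⟨r, hrr⟩ : ∃ r : ℕ, r = finrank k V := ⟨_, rfl⟩
  have hr0 : 0 < r := by
    rw [hrr, Module.finrank_pos_iff_exists_ne_zero]
    obtain ⟨x, hx, hx0⟩ := Submodule.exists_mem_ne_zero_of_ne_bot hV
    exact ⟨⟨x, hx⟩, fun h => hx0 (congrArg Subtype.val h)⟩
  -- a balanced basis of `V`
  obtain ⟨M, n, Z, hZ1, hZ2, hZ3, hZ4, hZ5⟩ : ∃ (M n : ℕ) (Z : Set K[X]), Z.Finite ∧ (∀ z ∈ Z, Lr hω N t c M z) ∧
      (∀ z ∈ Z, z ∈ PV V (n + 1)) ∧ V ≤ cs k Z ∧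
      r * n + ∑ i, SN (hω i) N (c i) V ≤ r * (Fintype.card I * M + r * Fintype.card I + 1) := by
    obtain ⟨M, hM⟩ := Sw_eq hω N c V hN
    have s1 := hM M le_rfl
    obtain ⟨n1, α1, f1, g1, hg1, -, hc1, hd1⟩ := bal' (F := FF hω N c) (M := M) (U := V) ht (FF_anti hω N c)
      (by rw [← hrr]; exact hr0) (fun E hE => by
        rw [s1 E hE, s1 V le_rfl]
        exact hss E hE)
    rw [s1 V le_rfl, ← hrr] at hd1
    refine ⟨M, n1, Set.range g1, Set.finite_range _, ?_, ?_, fun x hx => hc1 x hx, hd1⟩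
    · rintro _ ⟨j, rfl⟩
      exact Lr.of_mem ha (hg1.mem j)
    · rintro _ ⟨j, rfl⟩
      exact (hg1.mem j).2
  -- the constants
  obtain ⟨B, hB⟩ := (Module.Finite.iff_fg.1 (inferInstance : FiniteDimensional k U))
  have hBU : ∀ b ∈ B, b ∈ U := fun b hb => by rw [← hB]; exact Submodule.subset_span hb
  obtain ⟨Y, hY⟩ : ∃ Y : Set K[X], Y = Z ^ m * (C '' (B : Set K)) := ⟨_, rfl⟩
  have hUcs : U ≤ cs k (C '' (B : Set K)) := by
    rw [← hB, Submodule.span_le]
    intro b hb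
    exact subset_Sat _ ⟨b, hb, rfl⟩
  obtain ⟨R, hR⟩ : ∃ R, R = V ^ m * U := ⟨_, rfl⟩
  have hVfg : (V ^ m).FG := (Module.Finite.iff_fg.1 (inferInstance : FiniteDimensional k V)).pow m
  have : FiniteDimensional k ↥(V ^ m) := Module.Finite.iff_fg.2 hVfg
  have : FiniteDimensional k R := by
    rw [hR]
    exact Module.Finite.iff_fg.2 (hVfg.mul (Module.Finite.iff_fg.1 (inferInstance : FiniteDimensional k U)))
  have hR4 : R ≤ cs k Y := by
    rw [hR, hY]
    exact (mul_le_mul' (cs_pow hZ4 m) hUcs).trans (cs_mul _ _)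
  have hfin : Y.Finite := by
    rw [hY]
    exact (finite_pow hZ1 m).mul (B.finite_toSet.image _)
  have hmem : ∀ z ∈ Y, z ∈ W t (m * M) (fun i j => PhiF (hω i) N (c i) V U m j) R (m * n + 1) := by
    intro z hz
    rw [hY] at hz
    obtain ⟨a, ha1, b, hb1, rfl⟩ := Set.mem_mul.1 hz
    obtain ⟨y, hy, rfl⟩ := hb1
    have h1 := Lr.pow hN hZ2 m a ha1
    have h2 := PV_pow hZ3 m a ha1
    constructor
    · intro i l hl
      rw [tc_mul]
      refine Submodule.sum_mem _ fun x hx => ?_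
      rw [tc_C]
      split_ifs with h0
      · have h3 := Finset.HasAntidiagonal.mem_antidiagonal.1 hx
        have h4 : x.1 = l := by omega
        refine Submodule.mul_mem_mul ⟨tc_mem h2.1 _ _, ?_⟩ (hBU y hy)
        have h5 := h1 i x.1
        rw [h4] at h5 ⊢
        have h6 : (((m * M - l : ℕ) : ℝ)) = m * M - l := by
          rw [Nat.cast_sub hl.le]
          push_cast
          ring
        rw [h6]
        exact h5
      · rw [mul_zero]
        exact zero_mem _
    · refine ⟨fun a' => ?_, fun a' ha' => ?_⟩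
      · rw [coeff_mul_C, hR]
        exact Submodule.mul_mem_mul (h2.1 a') (hBU y hy)
      · rw [coeff_mul_C, h2.2 a' ha', zero_mul]
  have key := count (R := R) (I := I) ht (F := fun i j => PhiF (hω i) N (c i) V U m j)
    (fun i j j' hj => PhiF_anti (hω i) N (c i) V U m hj) hfin hmem hR4
  have hSw : Sw (m * M) (fun i j => PhiF (hω i) N (c i) V U m j) R ≤ ∑ i, SP (hω i) N (c i) V U m := by
    refine Finset.sum_le_sum fun i _ => ?_
    refine le_trans (le_of_eq ?_) (sum_le_SP (hω i) N (c i) V U m hN (m * M))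
    refine Finset.sum_congr rfl fun j _ => ?_
    rw [inf_eq_left.2]
    rw [hR]
    exact PhiF_le _ _ _ _ _ _ _
  rw [← hR]
  obtain ⟨D, hD⟩ : ∃ D, D = finrank k R := ⟨_, rfl⟩
  obtain ⟨S, hS⟩ : ∃ S, S = ∑ i, SP (hω i) N (c i) V U m := ⟨_, rfl⟩
  obtain ⟨T, hT⟩ : ∃ T, T = ∑ i, SN (hω i) N (c i) V := ⟨_, rfl⟩
  obtain ⟨q, hq⟩ : ∃ q, q = Fintype.card I := ⟨_, rfl⟩
  rw [← hS] at hSw ⊢
  rw [← hD, ← hq] at key
  rw [← hT, ← hq] at hZ5
  rw [← hD, ← hT, ← hq, ← hrr]
  have k1 : q * (m * M) * D ≤ m * n * D + S := key.trans (Nat.add_le_add_left hSw _)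
  have k2 := Nat.mul_le_mul_left r k1
  have k3 := Nat.mul_le_mul_left (m * D) hZ5
  nlinarith

end Pool.Agent.SQ
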