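import Pool.Agent.Helper42.SQ.Defs2
import Pool.Agent.Helper42.SQ.SNF
import Pool.Agent.Helper42.SQ.BM2g
import Pool.Agent.Helper42.SQ.GROg
import Pool.Agent.Helper42.SQ.INV
import Pool.Agent.Helper67.SQ4.TenP

/-!
# SQ4: Theorem A for one place above each `v` (all algebraic points of bounded degree)

The elementary lemmas and the structure of the proof are from `Pool/Agent/Helper42/SQ/ABSg.lean` (helper63).
-/

set_option autoImplicit false

namespace Pool.Agent.SQ

open Module Polynomial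

universe u

section

variable {k K : Type u} [Field k] [Field K] [Algebra k K]

section

variable {ω : K → ℝ} (h : RV k ω)

private theorem lev_mul67a (a b : ℝ) : lev h a * lev h b ≤ lev h (a + b) := by
  rw [Submodule.mul_le]
  intro x hx y hy
  by_cases hx0 : x = 0
  · subst hx0
    exact Or.inl (zero_mul y)
  by_cases hy0 : y = 0
  · subst hy0
    exact Or.inl (mul_zero x)
  have hx1 : a ≤ ω x := hx.resolve_left hx0
  have hy1 : b ≤ ω y := hy.resolve_left hy0
  right
  rw [h.mul x y hx0 hy0]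
  linarith

private theorem lev_anti67a {a b : ℝ} (hab : a ≤ b) : lev h b ≤ lev h a := by
  intro x hx
  rcases hx with hx | hx
  · exact Or.inl hx
  · exact Or.inr (hab.trans hx)

private theorem one_lev67a : (1 : Submodule k K) ≤ lev h 0 := by
  rw [Submodule.one_le]
  right
  have h1 := h.mul 1 1 one_ne_zero one_ne_zero
  rw [mul_one] at h1
  linarith

private theorem lev_prod67a {α : Type*} (S : Finset α) (E : α → Submodule k K) (c : α → ℝ)
    (hE : ∀ a ∈ S, E a ≤ lev h (c a)) : ∏ a ∈ S, E a ≤ lev h (∑ a ∈ S, c a) := by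
  classical
  induction S using Finset.induction_on with
  | empty => simpa using one_lev67a h
  | insert a S ha ih =>
    rw [Finset.prod_insert ha, Finset.sum_insert ha]
    exact (mul_le_mul' (hE a (Finset.mem_insert_self a S)) (ih fun b hb => hE b (Finset.mem_insert_of_mem hb))).trans
      (lev_mul67a h _ _)

private theorem lev_pow67a {E : Submodule k K} {c : ℝ} (hE : E ≤ lev h c) (m : ℕ) : E ^ m ≤ lev h (m * c) := by
  induction m with
  | zero => simpa using one_lev67a h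
  | succ m ih =>
    rw [pow_succ]
    refine (mul_le_mul' ih hE).trans ((lev_mul67a h _ _).trans (le_of_eq ?_))
    push_cast
    congr 1
    ring

end

private theorem SN_congr67a {ω ω' : K → ℝ} (h : RV k ω) (h' : RV k ω') (e : ω = ω') (N : ℕ) (c : ℝ) (E : Submodule k K) :
    SN h N c E = SN h' N c E := by
  subst e
  rfl

private theorem map_mul67a (τ : K ≃ₐ[k] K) (E F : Submodule k K) :
    (E * F).map τ.toLinearMap = E.map τ.toLinearMap * F.map τ.toLinearMap :=
  Submodule.map_mul E F (τ : K →ₐ[k] K)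

private theorem map_prod67a {α : Type*} (τ : K ≃ₐ[k] K) (S : Finset α) (E : α → Submodule k K) :
    (∏ a ∈ S, E a).map τ.toLinearMap = ∏ a ∈ S, (E a).map τ.toLinearMap := by
  classical
  induction S using Finset.induction_on with
  | empty =>
    rw [Finset.prod_empty, Finset.prod_empty]
    exact Submodule.map_one (τ : K →ₐ[k] K)
  | insert a S ha ih => rw [Finset.prod_insert ha, Finset.prod_insert ha, map_mul67a, ih]

private theorem map_pow67a (τ : K ≃ₐ[k] K) (E : Submodule k K) (m : ℕ) :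
    (E ^ m).map τ.toLinearMap = (E.map τ.toLinearMap) ^ m := by
  induction m with
  | zero =>
    rw [pow_zero, pow_zero]
    exact Submodule.map_one (τ : K →ₐ[k] K)
  | succ m ih => rw [pow_succ, pow_succ, map_mul67a, ih]

private theorem fr_map67a (τ : K ≃ₐ[k] K) (E : Submodule k K) : finrank k (E.map τ.toLinearMap) = finrank k E :=
  LinearEquiv.finrank_map_eq τ.toLinearEquiv E

private theorem fd_prod67a {α : Type*} (S : Finset α) (E : α → Submodule k K) (h : ∀ a, FiniteDimensional k (E a)) :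
    FiniteDimensional k ↥(∏ a ∈ S, E a) := by
  classical
  induction S using Finset.induction_on with
  | empty =>
    rw [Finset.prod_empty, Submodule.one_eq_span]
    exact FiniteDimensional.span_singleton k 1
  | insert a S ha ih =>
    rw [Finset.prod_insert ha]
    rw [← Submodule.fg_iff_finiteDimensional] at ih ⊢
    exact ((Submodule.fg_iff_finiteDimensional _).2 (h a)).mul ih

private theorem fd_pow67a (E : Submodule k K) [FiniteDimensional k E] (m : ℕ) : FiniteDimensional k ↥(E ^ m) := by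
  rw [← Submodule.fg_iff_finiteDimensional]
  exact ((Submodule.fg_iff_finiteDimensional _).2 inferInstance).pow m

private theorem mem_prod67a {α : Type*} (S : Finset α) (E : α → Submodule k K) (z : α → K) (h : ∀ a ∈ S, z a ∈ E a) :
    ∏ a ∈ S, z a ∈ ∏ a ∈ S, E a := by
  classical
  induction S using Finset.induction_on with
  | empty =>
    rw [Finset.prod_empty, Finset.prod_empty]
    exact Submodule.one_le.1 le_rfl
  | insert a S ha ih =>
    rw [Finset.prod_insert ha, Finset.prod_insert ha]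
    exact Submodule.mul_mem_mul (h a (Finset.mem_insert_self a S)) (ih fun b hb => h b (Finset.mem_insert_of_mem hb))

variable {G : Type*} [Group G] (s : G →* (K ≃ₐ[k] K))

private theorem ss67a (a b : G) (x : K) : s a (s b x) = s (a * b) x := by
  rw [map_mul]
  rfl

private theorem s_inv67a (a : G) (x : K) : s a (s a⁻¹ x) = x := by
  rw [ss67a, mul_inv_cancel, map_one]
  rfl

private theorem map_map67a (a b : G) (E : Submodule k K) :
    (E.map (s a).toLinearMap).map (s b).toLinearMap = E.map (s (b * a)).toLinearMap := by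
  rw [← Submodule.map_comp]
  congr 1
  ext x
  exact ss67a s b a x

private theorem stab67a [Fintype G] (E : Submodule k K) (h : G) :
    (∏ a, E.map (s a).toLinearMap).map (s h).toLinearMap = ∏ a, E.map (s a).toLinearMap := by
  rw [map_prod67a]
  simp only [map_map67a]
  exact Fintype.prod_equiv (Equiv.mulLeft h) _ _ fun a => rfl

private theorem inv_mem67a {E : Submodule k K} (hE : ∀ h, E.map (s h).toLinearMap = E) (h : G) {z : K} (hz : z ∈ E) :
    s h z ∈ E := by
  rw [← hE h]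
  exact ⟨z, hz, rfl⟩

private theorem pow_stab67a {E : Submodule k K} (hE : ∀ h, E.map (s h).toLinearMap = E) (m : ℕ) (h : G) :
    (E ^ m).map (s h).toLinearMap = E ^ m := by
  rw [map_pow67a, hE]


/-- one level: `d` conjugates of `A` suffice -/
private theorem level67 [Fintype G] {ω : K → ℝ} (hω : RV k ω) (cs : ℝ) (W Q : Submodule k K) [FiniteDimensional k W]
    (hWs : ∀ h, W.map (s h).toLinearMap = W) (hW : ∀ h, W ≤ lev (hω.comp (s h)) (-cs)) (w q hh q' : ℕ) (hQ : Q ≤ W ^ q)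
    {d : ℕ} (hd : 0 < d) (ρ : Fin d → G) (Cs : Set G) (nv : ℕ)
    (hρ : ∀ g, ∃ S : Finset (Fin d), (∀ i, i ∈ S ↔ g * ρ i ∈ Cs) ∧ S.card = nv)
    (hbm : ∀ (m : Fin d → ℕ) (A : Fin d → Submodule k K), (∀ i, A i ≤ W ^ m i) → BMg d w Q A)
    (hinv : ∀ (m : ℕ) (B : Submodule k K), B ≤ W ^ m → (∀ g, ∀ z ∈ B, s g z ∈ B) →
        finrank k B ≤ hh * finrank k (fx s (B * W ^ q'))) (m : ℕ) (a : ℝ) (A : Submodule k K) (hAW : A ≤ W ^ m)
    (hA : ∀ g ∈ Cs, A ≤ lev (hω.comp (s g)) (a - m * cs)) :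
    d ^ w * finrank k A ≤
      hh * finrank k ↥(fx s (W ^ (d * m + q + q')) ⊓ lev hω (nv * a - ((d * m + q + q' : ℕ) : ℝ) * cs)) := by
  have hfd := fd_pow67a W
  have hAm : ∀ g, A.map (s g).toLinearMap ≤ W ^ m := by
    intro g
    rw [← pow_stab67a s hWs m g]
    exact Submodule.map_mono hAW
  -- Brunn-Minkowski
  have h1 : d ^ w * finrank k A ≤ finrank k ↥((∏ i : Fin d, A.map (s (ρ i)).toLinearMap) * Q) := by
    have h2 := hbm (fun _ => m) (fun i => A.map (s (ρ i)).toLinearMap) (fun i => hAm _)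
    unfold BMg at h2
    simp only [fr_map67a] at h2
    rw [Finset.prod_const, Finset.card_univ, Fintype.card_fin, mul_comm d w, pow_mul, ← mul_pow] at h2
    exact le_of_pow_le_pow_left₀ hd.ne' (Nat.zero_le _) h2
  -- the stable space
  obtain ⟨M, hM⟩ : ∃ M, M = d * m + q := ⟨_, rfl⟩
  obtain ⟨B, hB⟩ : ∃ B : Submodule k K, B = W ^ M ⊓ ⨅ h : G, lev (hω.comp (s h)) (nv * a - M * cs) := ⟨_, rfl⟩
  have hBW : B ≤ W ^ M := hB ▸ inf_le_left
  have h4 : (∏ i : Fin d, A.map (s (ρ i)).toLinearMap) * Q ≤ B := by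
    rw [hB]
    refine le_inf ?_ (le_iInf fun h => ?_)
    · rw [hM, pow_add]
      refine mul_le_mul' ?_ hQ
      calc (∏ i : Fin d, A.map (s (ρ i)).toLinearMap) ≤ ∏ _i : Fin d, W ^ m :=
            Finset.prod_le_prod' fun i _ => hAm _
        _ = W ^ (d * m) := by
            rw [Finset.prod_const, Finset.card_univ, Fintype.card_fin, ← pow_mul, mul_comm]
    · classical
      obtain ⟨S, hS1, hS2⟩ := hρ h
      have h5 : (∏ i : Fin d, A.map (s (ρ i)).toLinearMap) ≤ lev (hω.comp (s h))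
          (∑ i : Fin d, (m * (-cs) + if i ∈ S then a else 0)) := by
        refine lev_prod67a _ _ _ _ fun i _ => ?_
        split_ifs with hg
        · rw [show m * (-cs) + a = a - m * cs by ring]
          rintro _ ⟨x, hx, rfl⟩
          rcases hA (h * ρ i) ((hS1 i).1 hg) hx with h0 | h0
          · left
            simp [h0]
          · right
            show a - m * cs ≤ ω (s h (s (ρ i) x))
            rw [ss67a]
            exact h0
        · rw [add_zero]
          exact le_trans (hAm _) (lev_pow67a (hω.comp (s h)) (hW h) m)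
      refine (mul_le_mul' h5 (hQ.trans (lev_pow67a (hω.comp (s h)) (hW h) q))).trans ((lev_mul67a _ _ _).trans (le_of_eq ?_))
      congr 1
      rw [Finset.sum_add_distrib, Finset.sum_ite_mem, Finset.univ_inter, Finset.sum_const, Finset.sum_const, hS2,
        Finset.card_univ, Fintype.card_fin, nsmul_eq_mul, nsmul_eq_mul, hM]
      push_cast
      ring
  have hfB : FiniteDimensional k B := Submodule.finiteDimensional_of_le hBW
  have h6 : finrank k ↥((∏ i : Fin d, A.map (s (ρ i)).toLinearMap) * Q) ≤ finrank k B := Submodule.finrank_mono h4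
  have hBs : ∀ g, ∀ z ∈ B, s g z ∈ B := by
    intro g z hz
    rw [hB] at hz ⊢
    refine ⟨inv_mem67a s (pow_stab67a s hWs M) g hz.1, ?_⟩
    have h7 := hz.2
    simp only [SetLike.mem_coe, Submodule.mem_iInf] at h7 ⊢
    intro h
    rcases h7 (h * g) with h0 | h0
    · left
      simp [h0]
    · right
      show nv * a - M * cs ≤ ω (s h (s g z))
      rw [ss67a]
      exact h0
  have h8 := hinv M B hBW hBs
  have h9 : fx s (B * W ^ q') ≤ fx s (W ^ (M + q')) ⊓ lev hω (nv * a - ((M + q' : ℕ) : ℝ) * cs) := by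
    rintro z ⟨hz1, hz2⟩
    refine ⟨⟨?_, hz2⟩, ?_⟩
    · rw [pow_add]
      exact mul_le_mul' hBW le_rfl hz1
    · have h10 : B ≤ lev (hω.comp (s 1)) (nv * a - M * cs) := by
        rw [hB]
        exact inf_le_right.trans (iInf_le _ 1)
      have h11 := (mul_le_mul' h10 (lev_pow67a (hω.comp (s 1)) (hW 1) q')).trans (lev_mul67a _ _ _) hz1
      have h12 : nv * a - M * cs + q' * (-cs) = nv * a - ((M + q' : ℕ) : ℝ) * cs := by push_cast; ring
      rw [h12] at h11
      rcases h11 with h0 | h0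
      · exact Or.inl h0
      · right
        have h13 : s 1 z = z := hz2 1
        have h14 : nv * a - ((M + q' : ℕ) : ℝ) * cs ≤ ω (s 1 z) := h0
        rwa [h13] at h14
  have hfx : FiniteDimensional k ↥(fx s (W ^ (M + q')) ⊓ lev hω (nv * a - ((M + q' : ℕ) : ℝ) * cs)) := by
    have h15 : fx s (W ^ (M + q')) ⊓ lev hω (nv * a - ((M + q' : ℕ) : ℝ) * cs) ≤ W ^ (M + q') := fun z hz => hz.1.1
    exact Submodule.finiteDimensional_of_le h15
  have h16 := Submodule.finrank_mono h9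
  rw [← hM]
  calc d ^ w * finrank k A ≤ finrank k B := h1.trans h6
    _ ≤ hh * finrank k (fx s (B * W ^ q')) := h8
    _ ≤ _ := Nat.mul_le_mul_left _ h16

/-- blocks of length `n` -/
private theorem layer67 (f : ℕ → ℕ) (hf : ∀ i j, i ≤ j → f j ≤ f i) (n J : ℕ) :
    n * ∑ j ∈ Finset.range J, f (n * (j + 1)) ≤ ∑ j ∈ Finset.range (n * J), f (j + 1) := by
  induction J with
  | zero => simp
  | succ J ih =>
    rw [Finset.sum_range_succ, mul_add, Nat.mul_succ, Finset.sum_range_add]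
    refine Nat.add_le_add ih ?_
    calc n * f (n * (J + 1)) = ∑ _x ∈ Finset.range n, f (n * (J + 1)) := by
          rw [Finset.sum_const, Finset.card_range, smul_eq_mul]
      _ ≤ ∑ x ∈ Finset.range n, f (n * J + x + 1) := by
          refine Finset.sum_le_sum fun x hx => hf _ _ ?_
          have := Finset.mem_range.1 hx
          rw [Nat.mul_succ]
          omega

/-- the sum over the places -/
private noncomputable def T67 {P : Type*} [Fintype P] {ω : P → K → ℝ} (hω : ∀ v, RV k (ω v)) (c : P → ℝ) (n : P → ℕ)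
    (N : ℕ) (E : Submodule k K) : ℕ :=
  ∑ v, n v * SN (hω v) N (c v) E

private theorem fix_pow67 (Hs : Subgroup G) {V : Submodule k K} (hH : ∀ h ∈ Hs, ∀ x ∈ V, s h x = x) (m : ℕ) :
    ∀ h ∈ Hs, ∀ x ∈ V ^ m, s h x = x := by
  intro h hh
  induction m with
  | zero =>
    intro x hx
    rw [pow_zero, Submodule.mem_one] at hx
    obtain ⟨c, rfl⟩ := hx
    exact (s h).commutes c
  | succ m ih =>
    intro x hx
    rw [pow_succ] at hx
    refine Submodule.mul_induction_on hx (fun a ha b hb => ?_) (fun a b ha hb => ?_)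
    · rw [map_mul, ih a ha, hH h hh b hb]
    · rw [map_add, ha, hb]

private theorem core67 [Fintype G] [CharZero k] {P : Type*} [Fintype P] (ω : P → K → ℝ) (hω : ∀ v, RV k (ω v)) (c : P → G → ℝ)
    (V : Submodule k K) [FiniteDimensional k V] (ha : ∀ v g, ∀ x ∈ V, x ≠ 0 → 0 ≤ ω v (s g x) + c v g)
    (hS : ∀ (m : ℕ) (E : Submodule k K), E ≤ (∏ g, V.map (s g).toLinearMap) ^ m → (∀ z ∈ E, ∀ g, s g z = z) →
      ∀ (n : P → ℕ) (z : ∀ v, Fin (n v) → K), (∀ v, LinearIndependent k (z v)) → (∀ v i, z v i ∈ E) →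
        ∑ v, ∑ i, (ω v (z v i) + m * ∑ g, c v g) ≤ m * finrank k E)
    (Hs : Subgroup G) (hH : ∀ h ∈ Hs, ∀ x ∈ V, s h x = x)
    (Cv : P → Set G) (hC1 : ∀ v, ∀ g ∈ Cv v, ∀ h ∈ Hs, g * h ∈ Cv v) (hC2 : ∀ v, ∀ g ∈ Cv v, c v g = c v 1)
    (hC3 : ∀ v, ∀ g ∈ Cv v, ∀ x, (∀ h ∈ Hs, s h x = x) → ω v (s g x) = ω v x)
    {d : ℕ} (hd : 0 < d) (ρ : Fin d → G) (n : P → ℕ)
    (hρ : ∀ v g, ∃ S : Finset (Fin d), (∀ i, i ∈ S ↔ g * ρ i ∈ Cv v) ∧ S.card = n v) {N : ℕ} (hN : 0 < N)
    (V' : Submodule k K) (hV' : V' ≤ V) (h0 : V' ≠ ⊥)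
    (hmax : ∀ E ≤ V', finrank k V' * T67 hω (fun v => c v 1) n N E ≤ T67 hω (fun v => c v 1) n N V' * finrank k E) :
    Nat.card Hs * T67 hω (fun v => c v 1) n N V' ≤
      (d * N + Nat.card Hs * (finrank k V' * (∑ v, n v) + 1)) * finrank k V' := by
  classical
  have hfdV : FiniteDimensional k V' := Submodule.finiteDimensional_of_le hV'
  obtain ⟨r, hr⟩ : ∃ r, r = finrank k V' := ⟨_, rfl⟩
  obtain ⟨t, ht⟩ : ∃ t, t = T67 hω (fun v => c v 1) n N V' := ⟨_, rfl⟩
  obtain ⟨η, hη⟩ : ∃ η, η = Nat.card Hs := ⟨_, rfl⟩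
  have hη0 : 0 < η := by
    rw [hη]
    exact Nat.card_pos
  have hr0 : 0 < r := by
    rw [hr]
    exact Nat.pos_of_ne_zero fun h => h0 (Submodule.finrank_eq_zero.1 h)
  obtain ⟨cs, hcs⟩ : ∃ cs : P → ℝ, cs = fun v => ∑ g, c v g := ⟨_, rfl⟩
  have hcs' : ∀ v, cs v = ∑ g, c v g := fun v => by rw [hcs]
  obtain ⟨W, hW⟩ : ∃ W : Submodule k K, W = ∏ a, V'.map (s a).toLinearMap := ⟨_, rfl⟩
  obtain ⟨HF, hHF⟩ : ∃ HF : Finset G, HF = Finset.univ.filter fun g => g ∈ Hs := ⟨_, rfl⟩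
  have hHFm : ∀ g, g ∈ HF ↔ g ∈ Hs := fun g => by rw [hHF]; simp
  have hHFc : HF.card = η := by
    rw [hη, Nat.card_eq_fintype_card, ← Fintype.card_coe]
    exact Fintype.card_congr (Equiv.subtypeEquivRight fun g => by rw [hHFm])
  obtain ⟨U, hU⟩ : ∃ U : Submodule k K, U = ∏ a ∈ HFᶜ, V'.map (s a).toLinearMap := ⟨_, rfl⟩
  have hWU : W = V' ^ η * U := by
    rw [hW, hU, ← Finset.prod_mul_prod_compl HF]
    congr 1
    rw [← hHFc, ← Finset.prod_const]
    refine Finset.prod_congr rfl fun a ha => ?_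
    have ha' := (hHFm a).1 ha
    ext x
    constructor
    · rintro ⟨y, hy, rfl⟩
      show s a y ∈ V'
      rw [hH a ha' y (hV' hy)]
      exact hy
    · intro hx
      exact ⟨x, hx, hH a ha' x (hV' hx)⟩
  have hWm : ∀ m : ℕ, W ^ m = V' ^ (η * m) * U ^ m := fun m => by rw [hWU, mul_pow, pow_mul]
  have hWs : ∀ h, W.map (s h).toLinearMap = W := fun h => by rw [hW]; exact stab67a s V' h
  have hmapfd : ∀ a, FiniteDimensional k ↥(V'.map (s a).toLinearMap) := fun a => inferInstance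
  have hWfd : FiniteDimensional k W := by rw [hW]; exact fd_prod67a _ _ hmapfd
  have hUfd : FiniteDimensional k U := by rw [hU]; exact fd_prod67a _ _ hmapfd
  have hmaplev : ∀ v h a, V'.map (s a).toLinearMap ≤ lev ((hω v).comp (s h)) (-c v (h * a)) := by
    intro v h a
    rintro _ ⟨x, hx, rfl⟩
    by_cases hx0 : x = 0
    · left
      simp [hx0]
    · right
      show -c v (h * a) ≤ ω v (s h (s a x))
      rw [ss67a]
      have := ha v (h * a) x (hV' hx) hx0
      linarith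
  have hWlev : ∀ v h, W ≤ lev ((hω v).comp (s h)) (-cs v) := by
    intro v h
    have h1 : ∏ a, V'.map (s a).toLinearMap ≤ lev ((hω v).comp (s h)) (∑ a, -c v (h * a)) :=
      lev_prod67a _ _ _ _ fun a _ => hmaplev v h a
    have h2 : ∑ a, -c v (h * a) = -cs v := by
      rw [Finset.sum_neg_distrib, hcs']
      congr 1
      exact Fintype.sum_equiv (Equiv.mulLeft h) _ _ fun a => rfl
    rwa [h2, ← hW] at h1
  have hUlev : ∀ v h, U ≤ lev ((hω v).comp (s h)) (∑ a ∈ HFᶜ, -c v (h * a)) := by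
    intro v h
    rw [hU]
    exact lev_prod67a _ _ _ _ fun a _ => hmaplev v h a
  -- an invariant
  have hz : ∃ z ∈ W, z ≠ 0 ∧ ∀ g, s g z = z := by
    obtain ⟨x, hx, hx0⟩ := Submodule.exists_mem_ne_zero_of_ne_bot h0
    refine ⟨∏ a, s a x, ?_, ?_, fun g => ?_⟩
    · rw [hW]
      exact mem_prod67a _ _ _ fun a _ => ⟨x, hx, rfl⟩
    · rw [Finset.prod_ne_zero_iff]
      intro a _
      simpa using hx0
    · rw [map_prod]
      refine Fintype.prod_equiv (Equiv.mulLeft g) _ _ fun a => ?_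
      rw [ss67a]
      rfl
  have hW0 : W ≠ ⊥ := by
    obtain ⟨z, hz1, hz2, _⟩ := hz
    intro h
    rw [h] at hz1
    exact hz2 hz1
  obtain ⟨w, q, C', Q, hQ, hbm, hgr⟩ := bm2_g hd W hW0
  obtain ⟨hh, q', hh0, hinv1, hinv2⟩ := inv_g s W (fun g z hz => inv_mem67a s hWs g hz) hz
  have hfdp : ∀ m : ℕ, FiniteDimensional k ↥(W ^ m) := fun m => fd_pow67a W m
  have hfdf : ∀ m : ℕ, FiniteDimensional k (fx s (W ^ m)) := fun m => by
    have := hfdp m
    exact Submodule.finiteDimensional_of_le (show fx s (W ^ m) ≤ W ^ m from fun _ hz => hz.1)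
  -- semistability
  have h1 : ∀ m : ℕ, η * m * finrank k ↥(W ^ m) * t ≤
      r * (∑ v, n v * SP (hω v) N (c v 1) V' (U ^ m) (η * m)) +
      η * m * finrank k ↥(W ^ m) * (r * (r * (∑ v, n v) + 1)) := by
    intro m
    have hUm : FiniteDimensional k ↥(U ^ m) := fd_pow67a U m
    have hsum : ∀ f : P → ℕ, ∑ i : (Σ v, Fin (n v)), f i.1 = ∑ v, n v * f v := by
      intro f
      rw [Fintype.sum_sigma]
      refine Finset.sum_congr rfl fun v _ => ?_
      show ∑ _y : Fin (n v), f v = n v * f v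
      rw [Finset.sum_const, Finset.card_univ, Fintype.card_fin, smul_eq_mul]
    have h2 := tenP (I := Σ v, Fin (n v)) (fun i => ω i.1) (fun i => hω i.1) (fun i => c i.1 1) V' (U ^ m) h0 hN
      (fun i x hx hx0 => by
        have := ha i.1 1 x (hV' hx) hx0
        rwa [map_one] at this)
      (fun E hE => by
        rw [hsum fun v => SN (hω v) N (c v 1) E, hsum fun v => SN (hω v) N (c v 1) V']
        exact hmax E hE) (η * m)
    rw [hsum fun v => SN (hω v) N (c v 1) V', hsum fun v => SP (hω v) N (c v 1) V' (U ^ m) (η * m), ← hWm,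
      Fintype.card_sigma] at h2
    simp only [Fintype.card_fin] at h2
    rw [ht, hr]
    exact h2
  -- levels
  have h2 : ∀ (m : ℕ) (v : P), d ^ w * (n v * SP (hω v) N (c v 1) V' (U ^ m) (η * m)) ≤
      hh * SN (hω v) N (((d * m + q + q' : ℕ) : ℝ) * cs v) (fx s (W ^ (d * m + q + q'))) := by
    intro m v
    have := hfdp m
    have hfE := hfdf (d * m + q + q')
    obtain ⟨M, hM⟩ : ∃ M, M = d * m + q + q' := ⟨_, rfl⟩
    rw [← hM] at hfE ⊢
    obtain ⟨E, hE⟩ : ∃ E, E = fx s (W ^ M) := ⟨_, rfl⟩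
    rw [← hE] at hfE ⊢
    obtain ⟨J, hJ⟩ := PhiF_bot (hω v) N (c v 1) V' (U ^ m) (η * m) hN
    have hSP : SP (hω v) N (c v 1) V' (U ^ m) (η * m) =
        ∑ j ∈ Finset.range J, finrank k ↥(PhiF (hω v) N (c v 1) V' (U ^ m) (η * m) (j + 1)) := by
      rw [SP, finsum_eq_sum_of_support_subset]
      intro j hj
      rw [Finset.coe_range, Set.mem_Iio]
      by_contra h1
      push Not at h1
      apply hj
      show finrank k ↥(PhiF (hω v) N (c v 1) V' (U ^ m) (η * m) (j + 1)) = 0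
      rw [hJ j h1, finrank_bot]
    obtain ⟨f, hf⟩ : ∃ f : ℕ → ℕ, f = fun j : ℕ => finrank k ↥(E ⊓ lev (hω v) ((j : ℝ) / N - (M : ℝ) * cs v)) := ⟨_, rfl⟩
    have hf' : ∀ j, f j = finrank k ↥(E ⊓ lev (hω v) ((j : ℝ) / N - (M : ℝ) * cs v)) := fun j => by rw [hf]
    have hfanti : ∀ i j, i ≤ j → f j ≤ f i := by
      intro i j hij
      rw [hf', hf']
      have : FiniteDimensional k ↥(E ⊓ lev (hω v) ((i : ℝ) / N - (M : ℝ) * cs v)) :=
        Submodule.finiteDimensional_of_le inf_le_left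
      refine Submodule.finrank_mono (inf_le_inf le_rfl (lev_anti67a (hω v) ?_))
      have h1 : (i : ℝ) ≤ j := by exact_mod_cast hij
      have h2 : (i : ℝ) / N ≤ (j : ℝ) / N := div_le_div_of_nonneg_right h1 (Nat.cast_nonneg N)
      linarith
    -- one level
    have hlev : ∀ j : ℕ, d ^ w * finrank k ↥(PhiF (hω v) N (c v 1) V' (U ^ m) (η * m) (j + 1)) ≤ hh * f (n v * (j + 1)) := by
      intro j
      have hPW : PhiF (hω v) N (c v 1) V' (U ^ m) (η * m) (j + 1) ≤ W ^ m := by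
        rw [hWm]
        exact PhiF_le _ _ _ _ _ _ _
      have h3 := level67 s (hω v) (cs v) W Q hWs (hWlev v) w q hh q' hQ hd ρ (Cv v) (n v) (hρ v) hbm hinv2 m
        (((j + 1 : ℕ) : ℝ) / N) (PhiF (hω v) N (c v 1) V' (U ^ m) (η * m) (j + 1)) hPW (by
          intro g hg
          rw [PhiF]
          have e1 : V' ^ (η * m) ⊓ lev (hω v) (((j + 1 : ℕ) : ℝ) / N - ((η * m : ℕ) : ℝ) * c v 1) ≤
              lev ((hω v).comp (s g)) (((j + 1 : ℕ) : ℝ) / N - ((η * m : ℕ) : ℝ) * c v 1) := by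
            rintro x ⟨hx1, hx2⟩
            have hx3 := hC3 v g hg x fun h hh' => fix_pow67 s Hs (fun a ha y hy => hH a ha y (hV' hy)) _ h hh' x hx1
            rcases hx2 with h0 | h0
            · exact Or.inl h0
            · right
              show _ ≤ ω v (s g x)
              rw [hx3]
              exact h0
          refine (mul_le_mul' e1 (lev_pow67a ((hω v).comp (s g)) (hUlev v g) m)).trans ((lev_mul67a _ _ _).trans
            (le_of_eq ?_))
          congr 1
          have e2 : cs v = η * c v 1 + ∑ a ∈ HFᶜ, c v (g * a) := by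
            have e3 : cs v = ∑ a, c v (g * a) := by
              rw [hcs']
              exact (Fintype.sum_equiv (Equiv.mulLeft g) _ _ fun a => rfl).symm
            rw [e3, ← Finset.sum_add_sum_compl HF]
            congr 1
            rw [Finset.sum_congr rfl fun a ha' => (hC2 v (g * a) (hC1 v g hg a ((hHFm a).1 ha'))), Finset.sum_const, hHFc,
              nsmul_eq_mul]
          rw [e2, Finset.sum_neg_distrib]
          push_cast
          ring)
      rw [← hM, ← hE] at h3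
      rw [hf']
      have e4 : ((n v * (j + 1) : ℕ) : ℝ) / N - (M : ℝ) * cs v = (n v : ℝ) * (((j + 1 : ℕ) : ℝ) / N) - (M : ℝ) * cs v := by
        push_cast
        ring
      rw [e4]
      exact h3
    have h4 := layer67 f hfanti (n v) J
    have h5 : ∑ j ∈ Finset.range (n v * J), f (j + 1) ≤ SN (hω v) N ((M : ℝ) * cs v) E := by
      have h6 := SN_ge_sum (hω v) E hN ((M : ℝ) * cs v) (n v * J)
      refine le_trans (le_of_eq ?_) h6
      rw [Finset.range_eq_Ico, Finset.sum_Ico_add' f 0 (n v * J) 1]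
      refine Finset.sum_congr ?_ fun j _ => hf' j
      ext j
      simp only [Finset.mem_Ico, Finset.mem_Icc]
      omega
    calc d ^ w * (n v * SP (hω v) N (c v 1) V' (U ^ m) (η * m))
        = n v * ∑ j ∈ Finset.range J, d ^ w * finrank k ↥(PhiF (hω v) N (c v 1) V' (U ^ m) (η * m) (j + 1)) := by
          rw [hSP, ← Finset.mul_sum]
          ring
      _ ≤ n v * ∑ j ∈ Finset.range J, hh * f (n v * (j + 1)) :=
          Nat.mul_le_mul_left _ (Finset.sum_le_sum fun j _ => hlev j)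
      _ = hh * (n v * ∑ j ∈ Finset.range J, f (n v * (j + 1))) := by
          rw [← Finset.mul_sum]
          ring
      _ ≤ _ := Nat.mul_le_mul_left _ (h4.trans h5)
  -- the hypothesis SUB
  have h3 : ∀ M : ℕ, (∑ v, SN (hω v) N (M * cs v) (fx s (W ^ M)) : ℝ) ≤ N * (M * finrank k (fx s (W ^ M))) := by
    intro M
    have := hfdf M
    have hle : ∀ v, ∀ x ∈ fx s (W ^ M), x ≠ 0 → 0 ≤ ω v x + M * cs v := by
      intro v x hx hx0
      have h4 := lev_pow67a ((hω v).comp (s 1)) (hWlev v 1) M hx.1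
      have h5 : (M : ℝ) * (-cs v) ≤ ω v (s 1 x) := h4.resolve_left hx0
      rw [hx.2 1] at h5
      linarith
    choose e he1 he2 he3 using fun v => SN_le (hω v) (fx s (W ^ M)) hN (M * cs v) (hle v)
    have hEV : fx s (W ^ M) ≤ (∏ g, V.map (s g).toLinearMap) ^ M := by
      have h6 : W ≤ ∏ g, V.map (s g).toLinearMap := by
        rw [hW]
        exact Finset.prod_le_prod' fun g _ => Submodule.map_mono hV'
      exact (show fx s (W ^ M) ≤ W ^ M from fun _ hz => hz.1).trans (pow_le_pow_left' h6 M)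
    have h7 := hS M (fx s (W ^ M)) hEV (fun z hz => hz.2) (fun _ => finrank k (fx s (W ^ M))) e he1 he2
    calc (∑ v, SN (hω v) N (M * cs v) (fx s (W ^ M)) : ℝ) ≤ ∑ v, N * ∑ i, (ω v (e v i) + M * cs v) :=
          Finset.sum_le_sum fun v _ => he3 v
      _ = N * ∑ v, ∑ i, (ω v (e v i) + M * ∑ g, c v g) := by
          rw [Finset.mul_sum]
          simp only [hcs']
      _ ≤ N * (M * finrank k (fx s (W ^ M))) := by gcongr
  -- conclusion
  obtain ⟨D, hD⟩ : ∃ D : ℕ → ℕ, D = fun m => finrank k ↥(W ^ m) := ⟨_, rfl⟩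
  have hD' : ∀ m, finrank k ↥(W ^ m) = D m := fun m => by rw [hD]
  have hD1 : ∀ m, 1 ≤ D m := by
    intro m
    rw [← hD']
    have := hfdp m
    rw [Submodule.one_le_finrank_iff]
    intro h
    obtain ⟨z, hz1, hz2, _⟩ := hz
    have h4 : z ^ m ∈ W ^ m := Submodule.pow_mem_pow W hz1 m
    rw [h] at h4
    exact pow_ne_zero m hz2 h4
  rw [← ht, ← hr, ← hη]
  by_contra hlt
  push Not at hlt
  obtain ⟨C0, hC0⟩ : ∃ C0, C0 = r * (∑ v, n v) + 1 := ⟨_, rfl⟩
  rw [← hC0] at hlt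
  simp only [← hC0] at h1
  obtain ⟨δ, hδ⟩ : ∃ δ : ℝ, δ = η * t - (d * N + η * C0) * r := ⟨_, rfl⟩
  have hδ0 : 0 < δ := by
    rw [hδ, sub_pos]
    exact_mod_cast hlt
  have hdR : (0 : ℝ) < d := by exact_mod_cast hd
  have hrR : (0 : ℝ) < r := by exact_mod_cast hr0
  have hNR : (0 : ℝ) < N := by exact_mod_cast hN
  obtain ⟨ε, hε⟩ : ∃ ε : ℝ, ε = δ / (2 * (r * N * d)) := ⟨_, rfl⟩
  have hε0 : 0 < ε := by rw [hε]; positivity
  obtain ⟨m0, hm0⟩ := exists_nat_gt (2 * (r * N * (q + q') * (1 + ε)) / δ)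
  obtain ⟨m, hm, hgm⟩ := gro_g hd D hD1 w C' (fun m => by rw [← hD']; exact hgr m) (q + q' + q') hε0 (m0 + 1)
  have hmR : (m0 : ℝ) + 1 ≤ m := by exact_mod_cast hm
  -- chain
  obtain ⟨M, hM⟩ : ∃ M, M = d * m + q + q' := ⟨_, rfl⟩
  obtain ⟨sp, hsp⟩ : ∃ sp : ℕ, sp = ∑ v, n v * SP (hω v) N (c v 1) V' (U ^ m) (η * m) := ⟨_, rfl⟩
  have k1 := h1 m
  rw [← hsp] at k1
  have k2 : d ^ w * sp ≤ hh * ∑ v, SN (hω v) N ((M : ℝ) * cs v) (fx s (W ^ M)) := by
    rw [hsp, Finset.mul_sum, Finset.mul_sum]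
    refine Finset.sum_le_sum fun v _ => ?_
    rw [hM]
    exact h2 m v
  have k3 := h3 M
  have k4 := hinv1 M
  rw [hD'] at k1 k4
  have k5 : M + q' = d * m + (q + q' + q') := by rw [hM]; ring
  rw [k5] at k4
  have k1' : (η : ℝ) * m * D m * t ≤ r * sp + η * m * D m * (r * C0) := by
    exact_mod_cast k1
  have k2' : (d : ℝ) ^ w * sp ≤ hh * (∑ v, SN (hω v) N ((M : ℝ) * cs v) (fx s (W ^ M)) : ℝ) := by
    exact_mod_cast k2
  have k4' : (hh : ℝ) * finrank k (fx s (W ^ M)) ≤ D (d * m + (q + q' + q')) := by exact_mod_cast k4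
  have hhR : (0 : ℝ) < hh := by exact_mod_cast hh0
  have hDm : (0 : ℝ) < D m := by exact_mod_cast hD1 m
  have hMR : (M : ℝ) = d * m + q + q' := by rw [hM]; push_cast; ring
  have hdw : (0 : ℝ) < (d : ℝ) ^ w := by positivity
  obtain ⟨S1, hS1⟩ : ∃ S1 : ℝ, S1 = sp := ⟨_, rfl⟩
  obtain ⟨S2, hS2⟩ : ∃ S2 : ℝ, S2 = (∑ v, SN (hω v) N ((M : ℝ) * cs v) (fx s (W ^ M)) : ℝ) := ⟨_, rfl⟩
  rw [← hS1] at k1' k2'
  rw [← hS2] at k2' k3
  have k6 : (d : ℝ) ^ w * S1 ≤ N * M * ((1 + ε) * d ^ w * D m) := by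
    calc (d : ℝ) ^ w * S1 ≤ hh * S2 := k2'
      _ ≤ hh * (N * (M * finrank k (fx s (W ^ M)))) := by gcongr
      _ = N * M * (hh * finrank k (fx s (W ^ M))) := by ring
      _ ≤ N * M * D (d * m + (q + q' + q')) := by gcongr
      _ ≤ N * M * ((1 + ε) * d ^ w * D m) := by gcongr
  have k7 : S1 ≤ N * M * (1 + ε) * D m := by
    have : (d : ℝ) ^ w * S1 ≤ d ^ w * (N * M * (1 + ε) * D m) := by
      calc (d : ℝ) ^ w * S1 ≤ N * M * ((1 + ε) * d ^ w * D m) := k6
        _ = _ := by ring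
    exact le_of_mul_le_mul_left this hdw
  have k8 : (m : ℝ) * (η * t) ≤ r * (N * M * (1 + ε)) + m * (η * (r * C0)) := by
    have : (D m : ℝ) * (m * (η * t)) ≤ D m * (r * (N * M * (1 + ε)) + m * (η * (r * C0))) := by
      calc (D m : ℝ) * (m * (η * t)) = η * m * D m * t := by ring
        _ ≤ r * S1 + η * m * D m * (r * C0) := k1'
        _ ≤ r * (N * M * (1 + ε) * D m) + η * m * D m * (r * C0) := by gcongr
        _ = _ := by ring
    exact le_of_mul_le_mul_left this hDm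
  have k9 : (m : ℝ) * δ ≤ r * N * (q + q') * (1 + ε) + m * (δ / 2) := by
    have e1 : (m : ℝ) * δ = m * (η * t) - m * (d * N * r) - m * (η * (r * C0)) := by rw [hδ]; ring
    have e2 : ε * (r * N * d) = δ / 2 := by rw [hε]; field_simp
    have e3 : (m : ℝ) * (δ / 2) = m * (ε * (r * N * d)) := by rw [e2]
    rw [e1, e3]
    rw [hMR] at k8
    nlinarith [k8]
  have k10 : (m : ℝ) * (δ / 2) ≤ r * N * (q + q') * (1 + ε) := by linarith
  rw [div_lt_iff₀ hδ0] at hm0
  nlinarith

private theorem T_mono67 {P : Type*} [Fintype P] {ω : P → K → ℝ} (hω : ∀ v, RV k (ω v)) (c : P → ℝ) (n : P → ℕ) {N : ℕ}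
    (hN : 0 < N) {E E' : Submodule k K} [FiniteDimensional k E] (h : E' ≤ E) : T67 hω c n N E' ≤ T67 hω c n N E :=
  Finset.sum_le_sum fun _ _ => Nat.mul_le_mul_left _ (SN_mono _ _ hN _ h)

private theorem T_bot67 {P : Type*} [Fintype P] {ω : P → K → ℝ} (hω : ∀ v, RV k (ω v)) (c : P → ℝ) (n : P → ℕ) (N : ℕ) :
    T67 hω c n N ⊥ = 0 :=
  Finset.sum_eq_zero fun _ _ => by rw [SN_bot, mul_zero]

/-- a subspace of maximal slope -/
private theorem slope67 {P : Type*} [Fintype P] {ω : P → K → ℝ} (hω : ∀ v, RV k (ω v)) (c : P → ℝ) (n : P → ℕ) {N : ℕ}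
    (hN : 0 < N) (V : Submodule k K) [FiniteDimensional k V] (hV : V ≠ ⊥) :
    ∃ V' ≤ V, V' ≠ ⊥ ∧ ∀ E ≤ V, finrank k V' * T67 hω c n N E ≤ T67 hω c n N V' * finrank k E := by
  have hfr : ∀ E ≤ V, E ≠ ⊥ → 0 < finrank k E := by
    intro E hE hE0
    have : FiniteDimensional k E := Submodule.finiteDimensional_of_le hE
    exact Nat.pos_of_ne_zero fun h => hE0 (Submodule.finrank_eq_zero.1 h)
  obtain ⟨R, hR⟩ : ∃ R : Set ℚ, R = {x | ∃ E ≤ V, E ≠ ⊥ ∧ x = (T67 hω c n N E : ℚ) / finrank k E} := ⟨_, rfl⟩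
  have hfin : R.Finite := by
    refine (((Finset.range (T67 hω c n N V + 1)) ×ˢ (Finset.range (finrank k V + 1))).finite_toSet.image
      fun x : ℕ × ℕ => (x.1 : ℚ) / x.2).subset ?_
    rw [hR]
    rintro _ ⟨E, hE, hE0, rfl⟩
    refine ⟨(T67 hω c n N E, finrank k E), ?_, rfl⟩
    rw [Finset.mem_coe, Finset.mem_product, Finset.mem_range, Finset.mem_range]
    exact ⟨Nat.lt_succ_of_le (T_mono67 hω c n hN hE), Nat.lt_succ_of_le (Submodule.finrank_mono hE)⟩
  have hne : R.Nonempty := ⟨_, by rw [hR]; exact ⟨V, le_rfl, hV, rfl⟩⟩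
  obtain ⟨x, hx, hmax⟩ := Set.exists_max_image R id hfin hne
  rw [hR] at hx
  obtain ⟨V', hV', hV0, rfl⟩ := hx
  refine ⟨V', hV', hV0, fun E hE => ?_⟩
  by_cases hE0 : E = ⊥
  · subst hE0
    rw [T_bot67, mul_zero]
    exact Nat.zero_le _
  have h1 := hmax ((T67 hω c n N E : ℚ) / finrank k E) (by rw [hR]; exact ⟨E, hE, hE0, rfl⟩)
  have h2 : (T67 hω c n N E : ℚ) / finrank k E ≤ (T67 hω c n N V' : ℚ) / finrank k V' := h1
  have h3 : (0 : ℚ) < finrank k E := by exact_mod_cast hfr E hE hE0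
  have h4 : (0 : ℚ) < finrank k V' := by exact_mod_cast hfr V' hV' hV0
  rw [div_le_div_iff₀ h3 h4] at h2
  have h5 : (finrank k V' : ℚ) * T67 hω c n N E ≤ T67 hω c n N V' * finrank k E := by
    rw [mul_comm]
    exact h2
  exact_mod_cast h5

/-- **Theorem A, one place above each `v`.**  `V` is fixed by `Hs`; `Cv v` are the `g` which give the same valuation on the fixed
field of `Hs` as `1`; for every `g`, exactly `n v` of the `d` representatives `ρ i` satisfy `g * ρ i ∈ Cv v`. -/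
theorem abs_1 [Fintype G] [CharZero k] {P : Type*} [Fintype P] (ω : P → K → ℝ) (hω : ∀ v, RV k (ω v)) (c : P → G → ℝ)
    (V : Submodule k K) [FiniteDimensional k V] (ha : ∀ v g, ∀ x ∈ V, x ≠ 0 → 0 ≤ ω v (s g x) + c v g)
    (hS : ∀ (m : ℕ) (E : Submodule k K), E ≤ (∏ g, V.map (s g).toLinearMap) ^ m → (∀ z ∈ E, ∀ g, s g z = z) →
      ∀ (n : P → ℕ) (z : ∀ v, Fin (n v) → K), (∀ v, LinearIndependent k (z v)) → (∀ v i, z v i ∈ E) →
        ∑ v, ∑ i, (ω v (z v i) + m * ∑ g, c v g) ≤ m * finrank k E)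
    (Hs : Subgroup G) (hH : ∀ h ∈ Hs, ∀ x ∈ V, s h x = x)
    (Cv : P → Set G) (hC1 : ∀ v, ∀ g ∈ Cv v, ∀ h ∈ Hs, g * h ∈ Cv v) (hC2 : ∀ v, ∀ g ∈ Cv v, c v g = c v 1)
    (hC3 : ∀ v, ∀ g ∈ Cv v, ∀ x, (∀ h ∈ Hs, s h x = x) → ω v (s g x) = ω v x)
    {d : ℕ} (hd : 0 < d) (ρ : Fin d → G) (n : P → ℕ)
    (hρ : ∀ v g, ∃ S : Finset (Fin d), (∀ i, i ∈ S ↔ g * ρ i ∈ Cv v) ∧ S.card = n v) :
    ∃ C : ℕ, ∀ N : ℕ, 0 < N → Nat.card Hs * ∑ v, n v * SN (hω v) N (c v 1) V ≤ (d * N + C) * finrank k V := by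
  refine ⟨Nat.card Hs * (finrank k V * (∑ v, n v) + 1), fun N hN => ?_⟩
  by_cases hV : V = ⊥
  · subst hV
    have h1 : ∑ v, n v * SN (hω v) N (c v 1) (⊥ : Submodule k K) = 0 := T_bot67 hω (fun v => c v 1) n N
    rw [h1, mul_zero]
    exact Nat.zero_le _
  obtain ⟨V', hV', hV0, hmax⟩ := slope67 hω (fun v => c v 1) n hN V hV
  have hfd : FiniteDimensional k V' := Submodule.finiteDimensional_of_le hV'
  have h1 := core67 s ω hω c V ha hS Hs hH Cv hC1 hC2 hC3 hd ρ n hρ hN V' hV' hV0 fun E hE => hmax E (hE.trans hV')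
  have h2 := hmax V le_rfl
  have h3 : 0 < finrank k V' := Nat.pos_of_ne_zero fun h => hV0 (Submodule.finrank_eq_zero.1 h)
  have h4 : finrank k V' ≤ finrank k V := Submodule.finrank_mono hV'
  show Nat.card Hs * T67 hω (fun v => c v 1) n N V ≤ _
  have h5 : finrank k V' * (Nat.card Hs * T67 hω (fun v => c v 1) n N V) ≤ finrank k V' *
      ((d * N + Nat.card Hs * (finrank k V * (∑ v, n v) + 1)) * finrank k V) := by
    calc finrank k V' * (Nat.card Hs * T67 hω (fun v => c v 1) n N V)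
        = Nat.card Hs * (finrank k V' * T67 hω (fun v => c v 1) n N V) := by ring
      _ ≤ Nat.card Hs * (T67 hω (fun v => c v 1) n N V' * finrank k V) := Nat.mul_le_mul_left _ h2
      _ = (Nat.card Hs * T67 hω (fun v => c v 1) n N V') * finrank k V := by ring
      _ ≤ ((d * N + Nat.card Hs * (finrank k V' * (∑ v, n v) + 1)) * finrank k V') * finrank k V :=
          Nat.mul_le_mul_right _ h1
      _ ≤ ((d * N + Nat.card Hs * (finrank k V * (∑ v, n v) + 1)) * finrank k V') * finrank k V := by gcongr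
      _ = _ := by ring
  exact Nat.le_of_mul_le_mul_left h5 h3

end

end Pool.Agent.SQ
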