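import Pool.Agent.Helper67.SQ4.Defs5

/-!
# SQ, stages 4 and 5, block CNT
-/

set_option autoImplicit false

namespace Pool.Agent.SQ

open Finset

private theorem card80 (n M : ℕ) : ((univ : Finset (Fin (n + 1))).piAntidiag M).card = (M + n).choose n := by
  rw [← map_sym_eq_piAntidiag, card_map, sym_univ, card_univ, Sym.card_sym_fin_eq_multichoose, Nat.multichoose_eq,
    show n + 1 + M - 1 = M + n by omega, Nat.choose_symm_add]

private theorem asc80 (n : ℕ) {a M : ℕ} (h : a ≤ M) : (M + 1).ascFactorial n * a ^ n ≤ (a + 1).ascFactorial n * M ^ n := by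
  induction n with
  | zero => simp
  | succ n ih =>
    rw [Nat.ascFactorial_succ, Nat.ascFactorial_succ, pow_succ, pow_succ]
    have h1 : (M + 1 + n) * a ≤ (a + 1 + n) * M := by nlinarith
    calc (M + 1 + n) * (M + 1).ascFactorial n * (a ^ n * a) = ((M + 1 + n) * a) * ((M + 1).ascFactorial n * a ^ n) := by ring
      _ ≤ ((a + 1 + n) * M) * ((a + 1).ascFactorial n * M ^ n) := Nat.mul_le_mul h1 ih
      _ = _ := by ring

private theorem choose80 (n : ℕ) {a M : ℕ} (h : a ≤ M) : (M + n).choose n * a ^ n ≤ (a + n).choose n * M ^ n := by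
  have h1 := asc80 n h
  rw [Nat.ascFactorial_eq_factorial_mul_choose, Nat.ascFactorial_eq_factorial_mul_choose, mul_assoc, mul_assoc] at h1
  exact Nat.le_of_mul_le_mul_left h1 (Nat.factorial_pos n)

/-- the number of the monomials with `α i ≥ j` -/
private theorem shift80 (n : ℕ) {j M : ℕ} (h : j ≤ M) (i : Fin (n + 1)) :
    ((univ : Finset (Fin (n + 1))).piAntidiag (M - j)).card ≤
      (((univ : Finset (Fin (n + 1))).piAntidiag M).filter fun α => j ≤ α i).card := by
  refine card_le_card_of_injOn (fun β => β + Pi.single i j) ?_ ?_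
  · intro β hβ
    simp only [coe_filter, Set.mem_setOf_eq, mem_piAntidiag, mem_coe] at hβ ⊢
    refine ⟨⟨?_, fun _ _ => mem_univ _⟩, ?_⟩
    · have e : (univ : Finset (Fin (n + 1))).sum (β + Pi.single i j) = univ.sum β + j := by
        rw [show (univ : Finset (Fin (n + 1))).sum (β + Pi.single i j) = ∑ x, (β x + Pi.single (M := fun _ => ℕ) i j x) from rfl,
          sum_add_distrib]
        simp
      rw [e, hβ.1]
      omega
    · simp
  · intro β _ β' _ h
    exact add_right_cancel h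

/-- a lower Riemann sum -/
private theorem riem80 (n : ℕ) {M J : ℕ} (hM : 0 < M) (h : J ≤ M) :
    (M : ℝ) * ((1 - (1 - (J : ℝ) / M) ^ (n + 1)) / (n + 1)) ≤ ∑ j ∈ range J, (1 - (j : ℝ) / M) ^ n := by
  have hM' : (0 : ℝ) < M := by exact_mod_cast hM
  induction J with
  | zero => simp
  | succ J ih =>
    rw [sum_range_succ]
    have h1 := ih (by omega)
    have hJ : ((J : ℝ) + 1) / M ≤ 1 := by rw [div_le_one hM']; exact_mod_cast h
    set a : ℝ := 1 - (J : ℝ) / M with ha
    have hb : 1 - ((J + 1 : ℕ) : ℝ) / M = a - 1 / M := by rw [ha]; push_cast; ring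
    have ha0 : 1 / (M : ℝ) ≤ a := by
      have : ((J : ℝ) + 1) / M = (J : ℝ) / M + 1 / M := by ring
      rw [ha]; linarith
    have h2 : a ^ (n + 1) - (a - 1 / M) ^ (n + 1) ≤ (n + 1) * (1 / M) * a ^ n := by
      have hM1 : (0 : ℝ) < 1 / M := by positivity
      have ha1 : 0 < a := hM1.trans_le ha0
      have hB := one_add_mul_le_pow (a := -(1 / (M * a))) (by
        rw [neg_le_neg_iff]
        rw [div_le_iff₀ (by positivity)]
        have : 1 ≤ M * a := by
          have := mul_le_mul_of_nonneg_left ha0 hM'.le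
          rwa [mul_one_div_cancel hM'.ne'] at this
        linarith) (n + 1)
      have e1 : (a - 1 / M) ^ (n + 1) = a ^ (n + 1) * (1 + -(1 / (M * a))) ^ (n + 1) := by
        rw [← mul_pow]
        congr 1
        field_simp
        ring
      rw [e1]
      have h3 := mul_le_mul_of_nonneg_left hB (pow_nonneg ha1.le (n + 1))
      have e2 : a ^ (n + 1) * (1 + ((n + 1 : ℕ) : ℝ) * -(1 / (M * a))) = a ^ (n + 1) - (n + 1) * (1 / M) * a ^ n := by
        push_cast
        field_simp
        ring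
      rw [e2] at h3
      linarith
    rw [hb]
    have h4 : (M : ℝ) * ((1 - (a - 1 / M) ^ (n + 1)) / (n + 1)) = M * ((1 - a ^ (n + 1)) / (n + 1)) +
        M * ((a ^ (n + 1) - (a - 1 / M) ^ (n + 1)) / (n + 1)) := by ring
    have h5 : (M : ℝ) * ((a ^ (n + 1) - (a - 1 / M) ^ (n + 1)) / (n + 1)) ≤ a ^ n := by
      rw [mul_div_assoc', div_le_iff₀ (by positivity)]
      calc (M : ℝ) * (a ^ (n + 1) - (a - 1 / M) ^ (n + 1)) ≤ M * ((n + 1) * (1 / M) * a ^ n) :=
            mul_le_mul_of_nonneg_left h2 hM'.le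
        _ = a ^ n * (n + 1) := by field_simp
    rw [h4]
    linarith

/-- the sum over the monomials of degree `M` -/
private theorem sum80 (n : ℕ) {M J : ℕ} (hM : 0 < M) (hJ : J + 1 ≤ M) (y : ℝ) (hy : (J : ℝ) ≤ y) (i : Fin (n + 1)) :
    ((M : ℝ) * ((1 - (1 - ((J + 1 : ℕ) : ℝ) / M) ^ (n + 1)) / (n + 1)) - 1) * ((univ : Finset (Fin (n + 1))).piAntidiag M).card ≤
      ∑ α ∈ (univ : Finset (Fin (n + 1))).piAntidiag M, min y (α i : ℝ) := by
  have hM' : (0 : ℝ) < M := by exact_mod_cast hM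
  set P := (univ : Finset (Fin (n + 1))).piAntidiag M with hP
  have h1 : ∀ α ∈ P, ∑ j ∈ range J, (if j + 1 ≤ α i then (1 : ℝ) else 0) ≤ min y (α i : ℝ) := by
    intro α _
    rw [← sum_filter, sum_const, nsmul_eq_mul, mul_one]
    refine le_min (le_trans ?_ hy) ?_
    · exact_mod_cast (card_filter_le _ _).trans (card_range J).le
    · have : (range J).filter (fun j => j + 1 ≤ α i) ⊆ range (α i) := by
        intro j hj
        rw [mem_filter] at hj
        rw [mem_range]
        omega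
      exact_mod_cast (card_le_card this).trans (card_range _).le
  refine le_trans ?_ (sum_le_sum h1)
  rw [sum_comm]
  have h2 : ∀ j ∈ range J, (1 - ((j + 1 : ℕ) : ℝ) / M) ^ n * P.card ≤ ∑ α ∈ P, (if j + 1 ≤ α i then (1 : ℝ) else 0) := by
    intro j hj
    rw [mem_range] at hj
    have hjM : j + 1 ≤ M := by omega
    rw [← sum_filter, sum_const, nsmul_eq_mul, mul_one]
    have h3 := shift80 n hjM i
    have h4 := choose80 n (Nat.sub_le M (j + 1))
    rw [card80] at h3
    have h5 : ((M + n).choose n : ℝ) * ((M - (j + 1) : ℕ) : ℝ) ^ n ≤ ((M - (j + 1) + n).choose n : ℝ) * (M : ℝ) ^ n := by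
      exact_mod_cast h4
    have h6 : (((M - (j + 1) + n).choose n : ℕ) : ℝ) ≤ ((P.filter fun α => j + 1 ≤ α i).card : ℝ) := by exact_mod_cast h3
    refine le_trans ?_ h6
    rw [hP, card80]
    have e : 1 - ((j + 1 : ℕ) : ℝ) / M = ((M - (j + 1) : ℕ) : ℝ) / M := by
      rw [Nat.cast_sub hjM]
      field_simp
    rw [e, div_pow, div_mul_eq_mul_div, div_le_iff₀ (by positivity)]
    linarith
  refine le_trans ?_ (sum_le_sum h2)
  rw [← sum_mul]
  refine mul_le_mul_of_nonneg_right ?_ (Nat.cast_nonneg _)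
  have h3 := riem80 n hM hJ
  rw [sum_range_succ'] at h3
  simp only [Nat.cast_zero, zero_div, sub_zero, one_pow] at h3
  linarith

/-- `∑ min (q m) (α 0)` over the monomials of degree `m - κ` -/
theorem cnt (n κ : ℕ) {q : ℝ} (hq : 0 ≤ q) (hq1 : q ≤ 1) {ε : ℝ} (hε : 0 < ε) :
    ∃ m0 : ℕ, ∀ m ≥ m0, ∀ i : Fin (n + 1), (1 - ε) * (m * Eq n q) * ((Finset.univ : Finset (Fin (n + 1))).piAntidiag (m - κ)).card ≤
      ∑ α ∈ (Finset.univ : Finset (Fin (n + 1))).piAntidiag (m - κ), min (q * m) (α i : ℝ) := by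
  rcases hq.eq_or_lt with rfl | hq0
  · refine ⟨0, fun m _ i => ?_⟩
    have : Eq n 0 = 0 := by simp [Eq]
    rw [this]
    simp only [mul_zero, zero_mul]
    exact sum_nonneg fun α _ => le_min le_rfl (Nat.cast_nonneg _)
  have hE : 0 < Eq n q := by
    unfold Eq
    refine div_pos ?_ (by positivity)
    have : (1 - q) ^ (n + 1) < 1 := pow_lt_one₀ (by linarith) (by linarith) (by omega)
    linarith
  obtain ⟨m1, hm1⟩ := exists_nat_gt ((κ * Eq n q + 1) / (ε * Eq n q))
  refine ⟨max m1 (κ + 1), fun m hm i => ?_⟩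
  have hmκ : κ + 1 ≤ m := le_trans (le_max_right _ _) hm
  have hm1' : ((κ * Eq n q + 1) / (ε * Eq n q)) < m := hm1.trans_le (by exact_mod_cast (le_max_left _ _).trans hm)
  rw [div_lt_iff₀ (by positivity)] at hm1'
  set M := m - κ with hMdef
  have hM : 0 < M := by omega
  have hM' : (0 : ℝ) < M := by exact_mod_cast hM
  have hMm : (M : ℝ) = m - κ := by rw [hMdef, Nat.cast_sub (by omega)]
  set J := min ⌊q * m⌋₊ (M - 1) with hJdef
  have hJ : J + 1 ≤ M := by have := min_le_right ⌊q * m⌋₊ (M - 1); omega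
  have hJy : (J : ℝ) ≤ q * m := by
    have h1 : (J : ℝ) ≤ (⌊q * m⌋₊ : ℝ) := by exact_mod_cast min_le_left _ _
    exact h1.trans (Nat.floor_le (by positivity))
  have h1 := sum80 n hM hJ (q * m) hJy i
  refine le_trans ?_ h1
  refine mul_le_mul_of_nonneg_right ?_ (Nat.cast_nonneg _)
  have hq2 : q ≤ ((J + 1 : ℕ) : ℝ) / M := by
    rw [le_div_iff₀ hM']
    rcases min_choice ⌊q * m⌋₊ (M - 1) with h | h
    · rw [hJdef, h]
      have h2 := Nat.lt_floor_add_one (q * m)
      have h3 : q * M ≤ q * m := by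
        refine mul_le_mul_of_nonneg_left ?_ hq
        rw [hMm]; linarith [Nat.cast_nonneg (α := ℝ) κ]
      push_cast
      linarith
    · rw [hJdef, h, Nat.sub_add_cancel hM]
      nlinarith
  have hJM : ((J + 1 : ℕ) : ℝ) / M ≤ 1 := by rw [div_le_one hM']; exact_mod_cast hJ
  have h2 : Eq n q ≤ (1 - (1 - ((J + 1 : ℕ) : ℝ) / M) ^ (n + 1)) / (n + 1) := by
    unfold Eq
    refine div_le_div_of_nonneg_right ?_ (by positivity)
    have : (1 - ((J + 1 : ℕ) : ℝ) / M) ^ (n + 1) ≤ (1 - q) ^ (n + 1) := pow_le_pow_left₀ (by linarith) (by linarith) _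
    linarith
  have h3 : (M : ℝ) * Eq n q ≤ (M : ℝ) * ((1 - (1 - ((J + 1 : ℕ) : ℝ) / M) ^ (n + 1)) / (n + 1)) :=
    mul_le_mul_of_nonneg_left h2 hM'.le
  have h4 : (1 - ε) * (m * Eq n q) ≤ M * Eq n q - 1 := by
    rw [hMm]
    nlinarith
  linarith

end Pool.Agent.SQ
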