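import Pool.Agent.Helper63.SQ5.Core
import Pool.Agent.Helper63.SQ5.A
import Pool.Agent.Helper67.SQ4.SEQw
import Pool.Agent.Helper42.SQ.HTg

/-!
# SQ5, block FINq: the final theorem, from `core_q` and `exists_seq_w`
-/

set_option autoImplicit false
set_option linter.unusedSectionVars false

namespace Pool.Agent.SQ

open NumberField Filter Module MvPolynomial
open Pool.Agent.Helper64.Vojta (Pl nv sn above)
open Pool.Agent.V2
open Pool.Agent.Chart (fld dg crd hgt)

universe u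

/-! ### numbers -/

private theorem numT {X W A K n r g : ℝ} (hK : 0 ≤ K) (hX : -K ≤ X) (hW : W ≤ X + K) (hn : 0 ≤ n) (hr : 1 ≤ r) (hg : 1 ≤ g)
    (hA : A ≤ 1 / (n + 1)) : max (A * X) (max (W / (r * (n + 1))) (X / (g * (n + 1)))) ≤
      X / (n + 1) + (2 / (n + 1) + |A|) * K := by
  have hn1 : 0 < n + 1 := by linarith
  have e1 : (X + K) / (n + 1) ≤ X / (n + 1) + (2 / (n + 1) + |A|) * K := by
    have h1 : X / (n + 1) + (2 / (n + 1) + |A|) * K - (X + K) / (n + 1) = (1 / (n + 1) + |A|) * K := by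
      field_simp
      ring
    have h2 : 0 ≤ (1 / (n + 1) + |A|) * K := by positivity
    linarith
  refine max_le ?_ (max_le ?_ ?_)
  · have h1 : 0 ≤ (1 / (n + 1) - A) * (X + K) := mul_nonneg (by linarith) (by linarith)
    have h2 : -|A| ≤ A := neg_abs_le A
    have h3 : (1 / (n + 1) - A) * (X + K) = X / (n + 1) + 1 / (n + 1) * K - A * X - A * K := by
      field_simp
      ring
    have h4 : -(A * K) ≤ |A| * K := by nlinarith
    have h5 : (2 / (n + 1) + |A|) * K = 1 / (n + 1) * K + 1 / (n + 1) * K + |A| * K := by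
      field_simp
      ring
    have h6 : 0 ≤ 1 / (n + 1) * K := by positivity
    linarith
  · refine le_trans ?_ e1
    have h1 : W / (r * (n + 1)) ≤ (X + K) / (r * (n + 1)) := div_le_div_of_nonneg_right hW (by positivity)
    refine h1.trans (div_le_div_of_nonneg_left (by linarith) hn1 ?_)
    nlinarith
  · refine le_trans ?_ e1
    have h1 : X / (g * (n + 1)) ≤ (X + K) / (g * (n + 1)) := div_le_div_of_nonneg_right (by linarith) (by positivity)
    refine h1.trans (div_le_div_of_nonneg_left (by linarith) hn1 ?_)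
    nlinarith

private theorem num0 {X K E θ r r' : ℝ} (hX : -K ≤ X) (hE : E ≤ θ) (hr : r' ≤ r) (hr1 : 0 ≤ r') (hE0 : 0 ≤ E) (hK : 0 ≤ K) :
    (r * E - (r - 1) * θ) * X ≤ (r' * E - (r' - 1) * θ) * X + r * θ * K := by
  have h1 : 0 ≤ (r - r') * (θ - E) * (X + K) := mul_nonneg (mul_nonneg (by linarith) (by linarith)) (by linarith)
  have h2 : (r - r') * (θ - E) * K ≤ r * θ * K := by
    refine mul_le_mul_of_nonneg_right ?_ hK
    exact mul_le_mul (by linarith) (by linarith) (by linarith) (by linarith)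
  nlinarith

/-! ### the enumeration of the forms -/

section

variable {k : Type u} [Field k] [NumberField k]

private theorem enum_q {N : ℕ} (I : Ideal (MvPolynomial (Fin (N + 1)) k)) [hIp : I.IsPrime] :
    ∃ P : ℕ → MvPolynomial (Fin (N + 1)) k, (∀ m, P m ∉ I) ∧ (∀ m, ∃ e, (P m).IsHomogeneous e) ∧
      ∀ p : MvPolynomial (Fin (N + 1)) k, (∃ e, p.IsHomogeneous e) → p ∉ I → ∃ m0, ∀ m ≥ m0, p ∣ P m := by
  classical
  have h0 : Countable k := (finBasis ℚ k).equivFun.toEquiv.injective.countable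
  have h1 : Countable (MvPolynomial (Fin (N + 1)) k) := by
    have h2 : Function.Injective fun p : MvPolynomial (Fin (N + 1)) k => (show (Fin (N + 1) →₀ ℕ) →₀ k from
      ⟨p.support, fun m => coeff m p, fun m => by rw [MvPolynomial.mem_support_iff]⟩) := by
      intro p p' h
      ext m
      exact DFunLike.congr_fun h m
    exact h2.countable
  have hne : Nonempty {p : MvPolynomial (Fin (N + 1)) k // (∃ e, p.IsHomogeneous e) ∧ p ∉ I} :=
    ⟨⟨1, ⟨0, isHomogeneous_one _ _⟩, fun h => hIp.ne_top ((Ideal.eq_top_iff_one I).2 h)⟩⟩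
  obtain ⟨F, hF⟩ := exists_surjective_nat {p : MvPolynomial (Fin (N + 1)) k // (∃ e, p.IsHomogeneous e) ∧ p ∉ I}
  refine ⟨fun m => ∏ i ∈ Finset.range (m + 1), (F i).1, fun m h => ?_, fun m => ?_, fun p hp hpI => ?_⟩
  · obtain ⟨i, -, hi⟩ := (hIp.prod_mem_iff).1 h
    exact (F i).2.2 hi
  · choose e he using fun i => (F i).2.1
    exact ⟨∑ i ∈ Finset.range (m + 1), e i, IsHomogeneous.prod _ _ _ fun i _ => he i⟩
  · obtain ⟨i, hi⟩ := hF ⟨p, hp, hpI⟩
    refine ⟨i, fun m hm => ?_⟩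
    have h2 : (F i).1 ∣ ∏ i ∈ Finset.range (m + 1), (F i).1 :=
      Finset.dvd_prod_of_mem (fun i => (F i).1) (Finset.mem_range.2 (by omega))
    rwa [hi] at h2

/-! ### points -/

private theorem val_crd_q {N : ℕ} (x : Fin (N + 1) → AlgebraicClosure k) (f : MvPolynomial (Fin (N + 1)) k) :
    ((aeval (crd x) f : fld x) : AlgebraicClosure k) = aeval x f := by
  have h1 := MvPolynomial.comp_aeval_apply (f := crd x) (fld x).val f
  exact h1

private theorem val_y_q {N : ℕ} (x : Fin (N + 1) → AlgebraicClosure k) (y : Fin (N + 1) → gal x)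
    (hy : ∀ j, (y j : AlgebraicClosure k) = x j) (f : MvPolynomial (Fin (N + 1)) k) :
    ((aeval y f : gal x) : AlgebraicClosure k) = aeval x f := by
  have h1 := MvPolynomial.comp_aeval_apply (f := y) (gal x).val f
  have h2 : (fun j => (gal x).val (y j)) = x := funext hy
  rw [h2] at h1
  exact h1

private theorem ne_iff_q {N : ℕ} (x : Fin (N + 1) → AlgebraicClosure k) (y : Fin (N + 1) → gal x)
    (hy : ∀ j, (y j : AlgebraicClosure k) = x j) (f : MvPolynomial (Fin (N + 1)) k) : aeval y f = 0 ↔ aeval x f = 0 := by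
  rw [← val_y_q x y hy f]
  exact ZeroMemClass.coe_eq_zero.symm

private theorem crd_iff_q {N : ℕ} (x : Fin (N + 1) → AlgebraicClosure k) (f : MvPolynomial (Fin (N + 1)) k) :
    aeval (crd x) f = 0 ↔ aeval x f = 0 := by
  rw [← val_crd_q x f]
  exact ZeroMemClass.coe_eq_zero.symm

/-! ### representatives -/

private theorem exists_rep {G : Type} [Group G] [Fintype G] (Hs : Subgroup G) :
    ∃ ρ : Fin Hs.index → G, ∀ g, ∃! j, (ρ j)⁻¹ * g ∈ Hs := by
  classical
  have hf : Finite (G ⧸ Hs) := inferInstance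
  have e : (G ⧸ Hs) ≃ Fin Hs.index := Finite.equivFinOfCardEq (by rw [Subgroup.index_eq_card])
  refine ⟨fun j => (e.symm j).out, fun g => ⟨e (QuotientGroup.mk g), ?_, ?_⟩⟩
  · simp only [Equiv.symm_apply_apply]
    rw [← QuotientGroup.eq, QuotientGroup.out_eq']
  · intro j hj
    simp only at hj
    rw [← QuotientGroup.eq, QuotientGroup.out_eq'] at hj
    rw [← hj, Equiv.apply_symm_apply]

/-- the sum over the group -/
private theorem sum_rep {G : Type} [Group G] [Fintype G] (Hs : Subgroup G) {r : ℕ} (ρ : Fin r → G)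
    (hρ : ∀ g, ∃! j, (ρ j)⁻¹ * g ∈ Hs) (F : G → ℝ) (hF : ∀ h ∈ Hs, ∀ g, F (g * h) = F g) :
    ∑ g, F g = Nat.card Hs * ∑ j, F (ρ j) := by
  classical
  choose J hJ hJu using hρ
  rw [← Finset.sum_fiberwise (Finset.univ : Finset G) J F, Finset.mul_sum]
  refine Finset.sum_congr rfl fun j _ => ?_
  have h1 : ∀ g ∈ Finset.univ.filter (fun g => J g = j), F g = F (ρ j) := by
    intro g hg
    have h2 : J g = j := (Finset.mem_filter.1 hg).2
    have h3 := hJ g
    simp only [h2] at h3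
    have h4 := hF _ h3 (ρ j)
    rwa [mul_inv_cancel_left] at h4
  rw [Finset.sum_congr rfl h1, Finset.sum_const, nsmul_eq_mul]
  congr 1
  have h5 : (Finset.univ.filter fun g => J g = j).card = Nat.card Hs := by
    rw [Nat.card_eq_fintype_card, ← Finset.card_univ]
    refine Finset.card_bij' (fun g hg => ⟨(ρ j)⁻¹ * g, by
      have h2 : J g = j := (Finset.mem_filter.1 hg).2
      have h3 := hJ g
      simp only [h2] at h3
      exact h3⟩) (fun h _ => ρ j * h) (fun _ _ => Finset.mem_univ _) ?_ ?_ ?_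
    · intro h _
      rw [Finset.mem_filter]
      refine ⟨Finset.mem_univ _, (hJu _ j ?_).symm⟩
      simp only [inv_mul_cancel_left]
      exact h.2
    · intro g _
      exact mul_inv_cancel_left _ _
    · intro h _
      exact Subtype.ext (inv_mul_cancel_left _ _)
  exact_mod_cast h5

end

/-- per-place families; `q ≥ n + 1`, or the same family at all places -/
private theorem fin_gen {k : Type u} [Field k] [NumberField k] {N n d q r : ℕ} (hd : 0 < d) (hr : 0 < r)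
    (I : Ideal (MvPolynomial (Fin (N + 1)) k)) [I.IsPrime] (hI : ∀ p ∈ I, ∀ m, homogeneousComponent m p ∈ I)
    (hdim : Algebra.trdeg k (MvPolynomial (Fin (N + 1)) k ⧸ I) = n + 1) (S : Finset (Pl k))
    (f : Pl k → Fin q → MvPolynomial (Fin (N + 1)) k) (hqf : n + 1 ≤ q ∨ ∃ f0, f = fun _ => f0)
    (hf : ∀ v ∈ S, ∀ i, (f v i).IsHomogeneous d)
    (hgp : ∀ v ∈ S, ∀ J : Finset (Fin q), J.card = n + 1 → ∀ x : Fin (N + 1) → AlgebraicClosure k, (∀ p ∈ I, aeval x p = 0) →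
      (∀ i ∈ J, aeval x (f v i) = 0) → x = 0) {ε : ℝ} (hε : 0 < ε) {θ : ℝ} (hθ : 0 ≤ θ) (hθ1 : θ ≤ 1) :
    ∃ (Q : MvPolynomial (Fin (N + 1)) k) (C : ℝ), Q ∉ I ∧ (∃ e, Q.IsHomogeneous e) ∧
      ∀ x : Fin (N + 1) → AlgebraicClosure k, (∃ j, x j = 1) → (∀ p ∈ I, aeval x p = 0) → dg x ≤ r →
        (∀ v ∈ S, ∀ i, aeval (crd x) (f v i) ≠ 0) → aeval x Q ≠ 0 → ∀ w : Pl k → Pl (fld x), (∀ v, w v ∈ above (fld x) v) →
        ∑ ν ∈ S, max ((r * Eq n θ - (r - 1) * θ) * ∑ i, lamP d (f ν i) ν x)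
          (max ((∑ i, lamW d (f ν i) x (w ν)) / (r * (n + 1))) ((∑ i, lamP d (f ν i) ν x) / (gnum x ν * (n + 1)))) ≤
          (d + ε) * hgt x + C := by
  classical
  by_contra hcon
  have hbad : ∀ Q : MvPolynomial (Fin (N + 1)) k, Q ∉ I → (∃ e, Q.IsHomogeneous e) → ∀ C : ℝ,
      ∃ x : Fin (N + 1) → AlgebraicClosure k, (∃ j, x j = 1) ∧ (∀ p ∈ I, aeval x p = 0) ∧ dg x ≤ r ∧
        (∀ v ∈ S, ∀ i, aeval (crd x) (f v i) ≠ 0) ∧ aeval x Q ≠ 0 ∧ ∃ w : Pl k → Pl (fld x), (∀ v, w v ∈ above (fld x) v) ∧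
        (d + ε) * hgt x + C < ∑ ν ∈ S, max ((r * Eq n θ - (r - 1) * θ) * ∑ i, lamP d (f ν i) ν x)
          (max ((∑ i, lamW d (f ν i) x (w ν)) / (r * (n + 1))) ((∑ i, lamP d (f ν i) ν x) / (gnum x ν * (n + 1)))) := by
    intro Q hQ hQh C
    by_contra h
    apply hcon
    refine ⟨Q, C, hQ, hQh, fun x h1 h2 h3 h4 h5 w hw => ?_⟩
    by_contra h6
    exact h ⟨x, h1, h2, h3, h4, h5, w, hw, not_le.1 h6⟩
  obtain ⟨P, hP, hPh, hPd⟩ := enum_q I
  choose x hx1 hxI hxr hxf hxQ w hw hbig using fun m : ℕ => hbad (P m) (hP m) (hPh m) m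
  obtain ⟨G, gG, fG, Hs, Cv, Dv, -, φ, hφ, -, hHd, hDd, y, M, s, hy, hQ, hH, hHy, hCv, hDv, hlP, hlW⟩ :=
    exists_seq_w (T := Unit) x hx1 hxr w hw S (fun _ => ())
  set c : ℝ := (Fintype.card G : ℝ) with hc
  have hc0 : 0 < c := by
    rw [hc]
    exact_mod_cast Fintype.card_pos
  have hφa : ∀ a, a ≤ φ a := fun a => hφ.le_apply
  have hy1 : ∀ a, ∃ j, y a j = 1 := by
    intro a
    obtain ⟨j, hj⟩ := hx1 (φ a)
    refine ⟨j, Subtype.ext ?_⟩
    rw [hy a j, hj]
    rfl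
  have hyx : ∀ a (p : MvPolynomial (Fin (N + 1)) k), aeval (y a) p = 0 ↔ aeval (x (φ a)) p = 0 :=
    fun a p => ne_iff_q _ _ (hy a) p
  have hyf : ∀ a, ∀ v ∈ S, ∀ i, aeval (y a) (f v i) ≠ 0 := by
    intro a v hv i h
    exact hxf (φ a) v hv i ((crd_iff_q _ _).2 ((hyx a _).1 h))
  -- the index
  have hHs0 : 0 < Nat.card Hs := Nat.card_pos
  have hHi : Nat.card Hs * Hs.index = Fintype.card G := by
    rw [Subgroup.card_mul_index, Nat.card_eq_fintype_card]
  have hdg : ∀ a, dg (x (φ a)) = Hs.index := by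
    intro a
    exact Nat.eq_of_mul_eq_mul_left hHs0 ((hHd a).trans hHi.symm)
  set r' : ℕ := Hs.index with hr'
  have hr'r : r' ≤ r := by
    rw [← hdg 0]
    exact hxr _
  have hr'0 : 0 < r' := by
    rcases Nat.eq_zero_or_pos r' with h | h
    · rw [h, mul_zero] at hHi
      exact absurd hHi.symm Fintype.card_ne_zero
    · exact h
  have hr'R : (r' : ℝ) ≤ r := by exact_mod_cast hr'r
  have hr'R0 : (0 : ℝ) < r' := by exact_mod_cast hr'0
  have hr1 : (1 : ℝ) ≤ r := by exact_mod_cast hr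
  have hHR : (Nat.card Hs : ℝ) * r' = c := by
    rw [hc]
    exact_mod_cast hHi
  -- the local sums
  set X : ℕ → Pl k → ℝ := fun a v => ∑ i, lamP d (f v i) v (x (φ a)) with hX
  set W : ℕ → Pl k → ℝ := fun a v => ∑ i, lamW d (f v i) (x (φ a)) (w (φ a) v) with hW
  have hGX : ∀ a, ∀ v ∈ S, c * X a v = ∑ g, ∑ i, gam (s a) (M a) (y a) d (f v i) v g := by
    intro a v hv
    rw [hX, Finset.mul_sum, Finset.sum_comm]
    exact Finset.sum_congr rfl fun i _ => hlP a v d (f v i) (hxf _ v hv i)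
  have hGW : ∀ a, ∀ v ∈ S, c * W a v = (Cv v).card * ∑ i, gam (s a) (M a) (y a) d (f v i) v 1 := by
    intro a v hv
    rw [hW, Finset.mul_sum, Finset.mul_sum]
    refine Finset.sum_congr rfl fun i _ => ?_
    rw [hlW a v hv d (f v i) (hxf _ v hv i)]
    unfold gam
    simp only [map_one, AlgEquiv.one_apply]
  -- the constants
  have hg0 : ∀ v i, ∃ C : ℝ, 0 ≤ C ∧ (v ∈ S → ∀ a g, -C ≤ gam (s a) (M a) (y a) d (f v i) v g) := by
    intro v i
    by_cases hv : v ∈ S
    · obtain ⟨C, h1, h2⟩ := gam_ge G (f v i) (hf v hv i) S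
      exact ⟨C, h1, fun _ a g => h2 _ (s a) (M a) (hQ a) (y a) (hyf a v hv i) v hv g⟩
    · exact ⟨0, le_refl _, fun h => absurd h hv⟩
  choose C0 hC00 hC0 using hg0
  set K0 : ℝ := ∑ v ∈ S, ∑ i, C0 v i with hK0
  have hK00 : 0 ≤ K0 := Finset.sum_nonneg fun v _ => Finset.sum_nonneg fun i _ => hC00 v i
  have hgk : ∀ a, ∀ v ∈ S, ∀ g, -K0 ≤ ∑ i, gam (s a) (M a) (y a) d (f v i) v g := by
    intro a v hv g
    have h1 : ∑ i, C0 v i ≤ K0 :=
      Finset.single_le_sum (f := fun v => ∑ i, C0 v i) (fun v _ => Finset.sum_nonneg fun i _ => hC00 v i) hv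
    have h2 : ∑ i, -C0 v i ≤ ∑ i, gam (s a) (M a) (y a) d (f v i) v g := Finset.sum_le_sum fun i _ => hC0 v i hv a g
    rw [Finset.sum_neg_distrib] at h2
    linarith
  have hXk : ∀ a, ∀ v ∈ S, -K0 ≤ X a v := by
    intro a v hv
    have h1 : ∑ g : G, -K0 ≤ ∑ g, ∑ i, gam (s a) (M a) (y a) d (f v i) v g := Finset.sum_le_sum fun g _ => hgk a v hv g
    rw [← hGX a v hv, Finset.sum_const, Finset.card_univ, nsmul_eq_mul] at h1
    exact le_of_mul_le_mul_left h1 hc0
  have hWX : ∀ a, ∀ v ∈ S, W a v ≤ X a v + K0 := by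
    intro a v hv
    have h1 : ∀ g ∈ Cv v, ∑ i, gam (s a) (M a) (y a) d (f v i) v g = ∑ i, gam (s a) (M a) (y a) d (f v i) v 1 := by
      intro g hg
      exact Finset.sum_congr rfl fun i _ => gam_fix (hHy a) (hCv a v hv g hg)
    have h2 : ∑ g ∈ Cv v, ∑ i, gam (s a) (M a) (y a) d (f v i) v g = c * W a v := by
      rw [Finset.sum_congr rfl h1, Finset.sum_const, nsmul_eq_mul, hGW a v hv]
    have h3 := Finset.sum_add_sum_compl (Cv v) fun g => ∑ i, gam (s a) (M a) (y a) d (f v i) v g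
    rw [h2, ← hGX a v hv] at h3
    have h4 : ∑ g ∈ (Cv v)ᶜ, -K0 ≤ ∑ g ∈ (Cv v)ᶜ, ∑ i, gam (s a) (M a) (y a) d (f v i) v g :=
      Finset.sum_le_sum fun g _ => hgk a v hv g
    rw [Finset.sum_const, nsmul_eq_mul] at h4
    have h5 : (((Cv v)ᶜ.card : ℕ) : ℝ) ≤ c := by
      rw [hc]
      exact_mod_cast Finset.card_le_univ _
    have h6 : (((Cv v)ᶜ.card : ℕ) : ℝ) * K0 ≤ c * K0 := mul_le_mul_of_nonneg_right h5 hK00
    have h7 : c * W a v ≤ c * (X a v + K0) := by linarith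
    exact le_of_mul_le_mul_left h7 hc0
  have hWk : ∀ a, ∀ v ∈ S, -K0 ≤ W a v := by
    intro a v hv
    have h1 := hgk a v hv 1
    have h2 : ((Cv v).card : ℝ) * -K0 ≤ c * W a v := by
      rw [hGW a v hv]
      exact mul_le_mul_of_nonneg_left h1 (Nat.cast_nonneg _)
    have h5 : (((Cv v).card : ℕ) : ℝ) ≤ c := by
      rw [hc]
      exact_mod_cast Finset.card_le_univ _
    have h6 : (((Cv v).card : ℕ) : ℝ) * K0 ≤ c * K0 := mul_le_mul_of_nonneg_right h5 hK00
    have h7 : c * -K0 ≤ c * W a v := by linarith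
    exact le_of_mul_le_mul_left h7 hc0
  have hgn : ∀ a, ∀ v ∈ S, ((Dv v).card : ℝ) * gnum (x (φ a)) v = c := by
    intro a v hv
    rw [hc]
    exact_mod_cast hDd a v hv
  have hgn1 : ∀ a, ∀ v ∈ S, (1 : ℝ) ≤ gnum (x (φ a)) v := by
    intro a v hv
    have h1 := hDd a v hv
    rcases Nat.eq_zero_or_pos (gnum (x (φ a)) v) with h | h
    · rw [h, mul_zero] at h1
      exact absurd h1.symm Fintype.card_ne_zero
    · exact_mod_cast h
  -- the terms
  set A : ℝ := r * Eq n θ - (r - 1) * θ with hA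
  have hEq := FinQ.Eq_le (n := n) hθ hθ1
  have hEq1 := FinQ.Eq_le_inv (n := n) hθ1
  have hEq0 := FinQ.Eq_nonneg (n := n) hθ hθ1
  have hA1 : A ≤ 1 / (n + 1) := by
    have h1 : (r - 1 : ℝ) * Eq n θ ≤ (r - 1) * θ := mul_le_mul_of_nonneg_left hEq (by linarith)
    rw [hA]
    linarith
  set T : ℕ → Pl k → ℝ := fun a v => max (A * X a v)
    (max (W a v / (r * (n + 1))) (X a v / (gnum (x (φ a)) v * (n + 1)))) with hT
  have hbig' : ∀ a, (d + ε) * hgt (x (φ a)) + φ a < ∑ v ∈ S, T a v := fun a => hbig (φ a)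
  set K1 : ℝ := (2 / (n + 1) + |A|) * K0 with hK1
  have hTX : ∀ a, ∀ v ∈ S, T a v ≤ X a v / (n + 1) + K1 := fun a v hv =>
    numT hK00 (hXk a v hv) (hWX a v hv) (Nat.cast_nonneg n) hr1 (hgn1 a v hv) hA1
  have hh0 : ∀ a, 0 ≤ hgt (x a) := fun a => by
    unfold hgt
    exact div_nonneg (Height.logHeight_nonneg _) (Nat.cast_nonneg _)
  have hn1 : (0 : ℝ) < n + 1 := by positivity
  have hmain : ∀ R C2 : ℝ, (∀ a, c * ∑ v ∈ S, X a v ≤ R * d * (c * hgt (x (φ a))) + C2) → ∀ a : ℕ,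
      (a : ℝ) + (d + ε) * hgt (x (φ a)) ≤ R * d / (n + 1) * hgt (x (φ a)) + (C2 / c / (n + 1) + S.card * K1) := by
    intro R C2 hSX a
    have h1 := Finset.sum_le_sum fun v hv => hTX a v hv
    rw [Finset.sum_add_distrib, Finset.sum_const, nsmul_eq_mul, ← Finset.sum_div] at h1
    have h2 : ∑ v ∈ S, X a v ≤ R * d * hgt (x (φ a)) + C2 / c := by
      refine le_of_mul_le_mul_left ((hSX a).trans (le_of_eq ?_)) hc0
      field_simp
    have h3 := div_le_div_of_nonneg_right h2 hn1.le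
    rw [add_div] at h3
    have h4 : R * d * hgt (x (φ a)) / ((n : ℝ) + 1) = R * d / (n + 1) * hgt (x (φ a)) := by ring
    rw [h4] at h3
    have h5 := (hbig' a).le
    have h6 : (a : ℝ) ≤ φ a := by exact_mod_cast hφa a
    linarith
  have hqn : n + 1 ≤ q := by
    rcases hqf with hq | ⟨f0, rfl⟩
    · exact hq
    by_contra hlt
    rcases S.eq_empty_or_nonempty with hS | ⟨v0, hv0⟩
    · obtain ⟨a, ha⟩ := exists_nat_gt (0 : ℝ)
      have h1 := hbig' a
      rw [hS, Finset.sum_empty] at h1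
      have h2 : 0 ≤ (d + ε) * hgt (x (φ a)) := mul_nonneg (by positivity) (hh0 _)
      have h3 : (0 : ℝ) ≤ φ a := Nat.cast_nonneg _
      linarith
    have hL := fun i => gam_sum G (f0 i) (hf v0 hv0 i) S
    choose C2 hC2 using hL
    have h0 := hmain q (∑ i, C2 i) (by
      intro a
      rw [Finset.mul_sum, Finset.sum_congr rfl fun v hv => hGX a v hv]
      have h1 : ∑ v ∈ S, ∑ g, ∑ i, gam (s a) (M a) (y a) d (f0 i) v g =
          ∑ i, ∑ v ∈ S, ∑ g, gam (s a) (M a) (y a) d (f0 i) v g := by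
        rw [Finset.sum_comm (s := Finset.univ (α := Fin q))]
        exact Finset.sum_congr rfl fun v _ => Finset.sum_comm
      rw [h1]
      refine (Finset.sum_le_sum fun i _ => hC2 i _ (s a) (M a) (hQ a) (y a) (hy1 a) (hyf a v0 hv0 i)).trans (le_of_eq ?_)
      rw [Finset.sum_add_distrib, Finset.sum_const, Finset.card_univ, Fintype.card_fin, nsmul_eq_mul, ← hH a]
      ring)
    obtain ⟨a, ha⟩ := exists_nat_gt ((∑ i, C2 i) / c / (n + 1) + S.card * K1)
    have h1 := h0 a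
    have h2 : (q : ℝ) * d / (n + 1) ≤ d + ε := by
      rw [div_le_iff₀ hn1]
      have h3 : (q : ℝ) ≤ n + 1 := by exact_mod_cast (by omega : q ≤ n + 1)
      have h4 : (q : ℝ) * d ≤ (n + 1) * d := mul_le_mul_of_nonneg_right h3 (Nat.cast_nonneg _)
      nlinarith
    have h3 := mul_le_mul_of_nonneg_right h2 (hh0 (φ a))
    linarith
  obtain ⟨K3, hkey⟩ : ∃ K3 : ℝ, ∀ a : ℕ,
      (a : ℝ) + (d + ε) * hgt (x (φ a)) ≤ (S.card * q : ℝ) * d / (n + 1) * hgt (x (φ a)) + K3 := by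
    have hL : ∀ v i, ∃ C : ℝ, v ∈ S → ∀ a, ∑ g, gam (s a) (M a) (y a) d (f v i) v g ≤ d * Hg (s a) (M a) (y a) + C := by
      intro v i
      by_cases hv : v ∈ S
      · obtain ⟨C, h1⟩ := gam_sum G (f v i) (hf v hv i) {v}
        refine ⟨C, fun _ a => ?_⟩
        have h2 := h1 _ (s a) (M a) (hQ a) (y a) (hy1 a) (hyf a v hv i)
        rwa [Finset.sum_singleton] at h2
      · exact ⟨0, fun h => absurd h hv⟩
    choose C2 hC2 using hL
    refine ⟨_, hmain (S.card * q : ℝ) (∑ v ∈ S, ∑ i, C2 v i) ?_⟩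
    intro a
    rw [Finset.mul_sum, Finset.sum_congr rfl fun v hv => hGX a v hv]
    have h1 : ∀ v ∈ S, ∑ g, ∑ i, gam (s a) (M a) (y a) d (f v i) v g ≤
        q * (d * (c * hgt (x (φ a)))) + ∑ i, C2 v i := by
      intro v hv
      rw [Finset.sum_comm]
      refine (Finset.sum_le_sum fun i _ => hC2 v i hv a).trans (le_of_eq ?_)
      rw [Finset.sum_add_distrib, Finset.sum_const, Finset.card_univ, Fintype.card_fin, nsmul_eq_mul, ← hH a]
    refine (Finset.sum_le_sum h1).trans (le_of_eq ?_)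
    rw [Finset.sum_add_distrib, Finset.sum_const, nsmul_eq_mul]
    ring
  have hH1 : Tendsto (fun a => Hg (s a) (M a) (y a)) atTop atTop := by
    have h1 : ∀ a : ℕ, c * (((a : ℝ) - K3) / ((S.card * q : ℝ) * d / (n + 1) + 1)) ≤ Hg (s a) (M a) (y a) := by
      intro a
      rw [← hH a]
      refine mul_le_mul_of_nonneg_left ?_ hc0.le
      have hq0 : (0 : ℝ) < (S.card * q : ℝ) * d / (n + 1) + 1 := by positivity
      rw [div_le_iff₀ hq0]
      have h2 := hkey a
      have h3 : 0 ≤ (d + ε) * hgt (x (φ a)) := mul_nonneg (by positivity) (hh0 _)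
      have h4 := hh0 (φ a)
      have h5 : hgt (x (φ a)) * ((S.card * q : ℝ) * d / (n + 1) + 1) =
          (S.card * q : ℝ) * d / (n + 1) * hgt (x (φ a)) + hgt (x (φ a)) := by ring
      linarith
    refine tendsto_atTop_mono h1 ?_
    refine Tendsto.const_mul_atTop hc0 ?_
    refine Tendsto.atTop_div_const (by positivity) ?_
    exact tendsto_atTop_add_const_right _ _ tendsto_natCast_atTop_atTop
  -- the data
  let D : SqG k G :=
    { U := hyperfilter ℕ
      L := fun a => gal (x (φ a))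
      fL := fun a => inferInstance
      aL := fun a => inferInstance
      s := s
      N := M
      qs := hQ
      H := fun a => Hg (s a) (M a) (y a)
      H1 := hH1.mono_left Nat.hyperfilter_le_atTop }
  let y' : ∀ a, Fin (N + 1) → D.L a := y
  have hPt : Ptg D y' := ⟨hy1, fun a => rfl⟩
  have hltop : (D.U : Filter ℕ) ≤ atTop := Nat.hyperfilter_le_atTop
  have hyI : ∀ a, ∀ p ∈ I, aeval (y' a) p = 0 := fun a p hp => (hyx a p).2 (hxI _ p hp)
  have hyv : ∀ p : MvPolynomial (Fin (N + 1)) k, (∃ e, p.IsHomogeneous e) → p ∉ I →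
      ∀ᶠ a in (D.U : Filter ℕ), aeval (y' a) p ≠ 0 := by
    intro p hp hpI
    obtain ⟨m1, hm1⟩ := hPd p hp hpI
    filter_upwards [hltop (eventually_ge_atTop m1)] with a h3 h2
    obtain ⟨z, hz⟩ := hm1 (φ a) (le_trans h3 (hφa a))
    apply hxQ (φ a)
    rw [hz, map_mul, (hyx a p).1 h2, zero_mul]
  obtain ⟨ρ, hρ⟩ := exists_rep Hs
  -- the types
  have hty : ∀ v, ∃ t : Fin 3, v ∈ S → ∀ᶠ a in (D.U : Filter ℕ), T a v =
      if t = 0 then A * X a v else if t = 1 then W a v / (r * (n + 1)) else X a v / (gnum (x (φ a)) v * (n + 1)) := by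
    intro v
    by_cases hv : v ∈ S
    · have h1 : ∀ a, ∃ t : Fin 3, T a v =
          if t = 0 then A * X a v else if t = 1 then W a v / (r * (n + 1)) else X a v / (gnum (x (φ a)) v * (n + 1)) := by
        intro a
        rcases max_choice (A * X a v) (max (W a v / (r * (n + 1))) (X a v / (gnum (x (φ a)) v * (n + 1)))) with h | h
        · exact ⟨0, by simp only [if_true]; exact h⟩
        · rcases max_choice (W a v / (r * (n + 1))) (X a v / (gnum (x (φ a)) v * (n + 1))) with h' | h'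
          · exact ⟨1, by simp only [one_ne_zero, if_false, if_true]; exact h.trans h'⟩
          · refine ⟨2, ?_⟩
            have e1 : (2 : Fin 3) ≠ 0 := by decide
            have e2 : (2 : Fin 3) ≠ 1 := by decide
            rw [if_neg e1, if_neg e2]
            exact h.trans h'
      have h2 : ∀ᶠ a in (D.U : Filter ℕ), ∃ t : Fin 3, T a v =
          if t = 0 then A * X a v else if t = 1 then W a v / (r * (n + 1)) else X a v / (gnum (x (φ a)) v * (n + 1)) :=
        Eventually.of_forall h1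
      obtain ⟨t, ht⟩ := Ultrafilter.eventually_exists_iff.1 h2
      exact ⟨t, fun _ => ht⟩
    · exact ⟨0, fun h => absurd h hv⟩
  choose ty hty using hty
  have hty' : ∀ᶠ a in (D.U : Filter ℕ), ∀ v ∈ S, T a v =
      if ty v = 0 then A * X a v else if ty v = 1 then W a v / (r * (n + 1)) else X a v / (gnum (x (φ a)) v * (n + 1)) := by
    rw [Filter.eventually_all_finset]
    exact fun v hv => hty v hv
  have hcore := core_q hd hqn I hI hdim S f hf hgp y' hPt hyI hyv hyf Hs hHy Cv Dv hCv hDv ρ hρ ty hθ hθ1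
    (mul_pos hc0 hε)
  set K4 : ℝ := S.card * (c ^ 2 * (r * θ * K0 + K0)) with hK4
  obtain ⟨a, ⟨hcore, hty''⟩, haK⟩ := ((hcore.and hty').and (hltop (eventually_gt_atTop ⌈K4 / c ^ 2⌉₊))).exists
  have hHa : D.H a = c * hgt (x (φ a)) := (hH a).symm
  have hgs : ∀ a, ∀ v ∈ S, c * X a v = Nat.card Hs * ∑ j, ∑ i, gam (s a) (M a) (y a) d (f v i) v (ρ j) := by
    intro a v hv
    rw [hGX a v hv]
    refine sum_rep Hs ρ hρ (fun g => ∑ i, gam (s a) (M a) (y a) d (f v i) v g) fun h hh g => ?_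
    exact Finset.sum_congr rfl fun i _ => gam_mul (hHy a) hh g
  have hterm : ∀ v ∈ S, c ^ 2 * T a v ≤
      (if ty v = 0 then (Fintype.card G : ℝ) ^ 2 * ((Eq n θ - (1 - 1 / (r' : ℝ)) * θ) *
          ∑ j, ∑ i, gam (D.s a) (D.N a) (y' a) d (f v i) v (ρ j))
        else if ty v = 1 then (Cv v).card * Nat.card Hs / (n + 1) * ∑ i, gam (D.s a) (D.N a) (y' a) d (f v i) v 1
        else (Dv v).card / (n + 1) * ∑ g, ∑ i, gam (D.s a) (D.N a) (y' a) d (f v i) v g) +
      c ^ 2 * (r * θ * K0 + K0) := by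
    intro v hv
    rw [hty'' v hv]
    have hKK : 0 ≤ r * θ * K0 := by positivity
    split_ifs with h0 h1
    · have h2 := num0 (hXk a v hv) hEq hr'R hr'R0.le hEq0 hK00
      have h3 : r' * X a v = ∑ j, ∑ i, gam (s a) (M a) (y a) d (f v i) v (ρ j) := by
        have h4 := hgs a v hv
        rw [← hHR, mul_assoc] at h4
        exact mul_left_cancel₀ (by exact_mod_cast hHs0.ne') h4
      have h4 : (Fintype.card G : ℝ) ^ 2 * ((Eq n θ - (1 - 1 / (r' : ℝ)) * θ) *
          ∑ j, ∑ i, gam (D.s a) (D.N a) (y' a) d (f v i) v (ρ j)) = c ^ 2 * ((r' * Eq n θ - (r' - 1) * θ) * X a v) := by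
        show (Fintype.card G : ℝ) ^ 2 * ((Eq n θ - (1 - 1 / (r' : ℝ)) * θ) *
          ∑ j, ∑ i, gam (s a) (M a) (y a) d (f v i) v (ρ j)) = _
        rw [← h3, ← hc]
        have h5 : (1 - 1 / (r' : ℝ)) * r' = r' - 1 := by
          field_simp
        have h6 : (Eq n θ - (1 - 1 / (r' : ℝ)) * θ) * (r' * X a v) =
            (r' * Eq n θ - ((1 - 1 / (r' : ℝ)) * r') * θ) * X a v := by ring
        rw [h6, h5]
      rw [h4, ← mul_add]
      refine mul_le_mul_of_nonneg_left ?_ (by positivity)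
      rw [hA]
      linarith
    · have h4 : ((Cv v).card : ℝ) * Nat.card Hs / (n + 1) * ∑ i, gam (D.s a) (D.N a) (y' a) d (f v i) v 1 =
          c ^ 2 * (W a v / (r' * (n + 1))) := by
        show ((Cv v).card : ℝ) * Nat.card Hs / (n + 1) * ∑ i, gam (s a) (M a) (y a) d (f v i) v 1 = _
        have h5 : ((Cv v).card : ℝ) * Nat.card Hs / (n + 1) * ∑ i, gam (s a) (M a) (y a) d (f v i) v 1 =
            Nat.card Hs / (n + 1) * ((Cv v).card * ∑ i, gam (s a) (M a) (y a) d (f v i) v 1) := by ring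
        rw [h5, ← hGW a v hv]
        have h6 : (Nat.card Hs : ℝ) = c / r' := by
          rw [← hHR]
          field_simp
        rw [h6]
        field_simp
      rw [h4, ← mul_add]
      refine mul_le_mul_of_nonneg_left ?_ (by positivity)
      have h5 : (W a v + K0) / (r * (n + 1)) ≤ (W a v + K0) / (r' * (n + 1)) := by
        refine div_le_div_of_nonneg_left (by linarith [hWk a v hv]) (by positivity) ?_
        exact mul_le_mul_of_nonneg_right hr'R hn1.le
      have h6 : W a v / (r * (n + 1)) ≤ (W a v + K0) / (r * (n + 1)) :=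
        div_le_div_of_nonneg_right (by linarith) (by positivity)
      have h7 : (W a v + K0) / (r' * (n + 1)) = W a v / (r' * (n + 1)) + K0 / (r' * (n + 1)) := add_div _ _ _
      have h8 : K0 / (r' * ((n : ℝ) + 1)) ≤ K0 := by
        refine div_le_self hK00 ?_
        have h9 : (1 : ℝ) ≤ r' := by exact_mod_cast hr'0
        have h10 : (1 : ℝ) ≤ n + 1 := by
          have : (0 : ℝ) ≤ n := Nat.cast_nonneg _
          linarith
        nlinarith
      linarith
    · have h4 : ((Dv v).card : ℝ) / (n + 1) * ∑ g, ∑ i, gam (D.s a) (D.N a) (y' a) d (f v i) v g =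
          c ^ 2 * (X a v / (gnum (x (φ a)) v * (n + 1))) := by
        show ((Dv v).card : ℝ) / (n + 1) * ∑ g, ∑ i, gam (s a) (M a) (y a) d (f v i) v g = _
        rw [← hGX a v hv]
        have h5 := hgn a v hv
        have h6 := hgn1 a v hv
        have h7 : ((Dv v).card : ℝ) = c / gnum (x (φ a)) v := by
          rw [← h5]
          field_simp
        rw [h7]
        field_simp
      rw [h4]
      have : 0 ≤ c ^ 2 * (r * θ * K0 + K0) := by positivity
      linarith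
  have hfinal := Finset.sum_le_sum hterm
  rw [Finset.sum_add_distrib, Finset.sum_const, nsmul_eq_mul, ← Finset.mul_sum] at hfinal
  have h1 := add_le_add hcore (le_refl (S.card * (c ^ 2 * (r * θ * K0 + K0))))
  have h2 := hfinal.trans h1
  rw [hHa, ← hc, ← hK4] at h2
  have h3 := mul_lt_mul_of_pos_left (hbig' a) (pow_pos hc0 2)
  have h4 : K4 < c ^ 2 * φ a := by
    have h5 : K4 / c ^ 2 < a := (Nat.le_ceil _).trans_lt (by exact_mod_cast haK)
    rw [div_lt_iff₀ (pow_pos hc0 2)] at h5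
    have h6 : (a : ℝ) ≤ φ a := by exact_mod_cast hφa a
    nlinarith [pow_pos hc0 2]
  have h5 : (c * d + c * ε) * (c * hgt (x (φ a))) = c ^ 2 * ((d + ε) * hgt (x (φ a))) := by ring
  rw [h5] at h2
  rw [mul_add] at h3
  linarith


/-- with a parameter `θ`, per-place families -/
theorem fin_qv {k : Type u} [Field k] [NumberField k] {N n d q r : ℕ} (hd : 0 < d) (hr : 0 < r) (hq : n + 1 ≤ q)
    (I : Ideal (MvPolynomial (Fin (N + 1)) k)) [I.IsPrime] (hI : ∀ p ∈ I, ∀ m, homogeneousComponent m p ∈ I)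
    (hdim : Algebra.trdeg k (MvPolynomial (Fin (N + 1)) k ⧸ I) = n + 1) (S : Finset (Pl k))
    (f : Pl k → Fin q → MvPolynomial (Fin (N + 1)) k) (hf : ∀ v ∈ S, ∀ i, (f v i).IsHomogeneous d)
    (hgp : ∀ v ∈ S, ∀ J : Finset (Fin q), J.card = n + 1 → ∀ x : Fin (N + 1) → AlgebraicClosure k, (∀ p ∈ I, aeval x p = 0) →
      (∀ i ∈ J, aeval x (f v i) = 0) → x = 0) {ε : ℝ} (hε : 0 < ε) {θ : ℝ} (hθ : 0 ≤ θ) (hθ1 : θ ≤ 1) :
    ∃ (Q : MvPolynomial (Fin (N + 1)) k) (C : ℝ), Q ∉ I ∧ (∃ e, Q.IsHomogeneous e) ∧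
      ∀ x : Fin (N + 1) → AlgebraicClosure k, (∃ j, x j = 1) → (∀ p ∈ I, aeval x p = 0) → dg x ≤ r →
        (∀ v ∈ S, ∀ i, aeval (crd x) (f v i) ≠ 0) → aeval x Q ≠ 0 → ∀ w : Pl k → Pl (fld x), (∀ v, w v ∈ above (fld x) v) →
        ∑ ν ∈ S, max ((r * Eq n θ - (r - 1) * θ) * ∑ i, lamP d (f ν i) ν x)
          (max ((∑ i, lamW d (f ν i) x (w ν)) / (r * (n + 1))) ((∑ i, lamP d (f ν i) ν x) / (gnum x ν * (n + 1)))) ≤
          (d + ε) * hgt x + C :=
  fin_gen hd hr I hI hdim S f (Or.inl hq) hf hgp hε hθ hθ1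

/-- with a parameter `θ`, one family, any number of sections -/
theorem fin_q {k : Type u} [Field k] [NumberField k] {N n d q r : ℕ} (hd : 0 < d) (hr : 0 < r)
    (I : Ideal (MvPolynomial (Fin (N + 1)) k)) [I.IsPrime] (hI : ∀ p ∈ I, ∀ m, homogeneousComponent m p ∈ I)
    (hdim : Algebra.trdeg k (MvPolynomial (Fin (N + 1)) k ⧸ I) = n + 1)
    (f : Fin q → MvPolynomial (Fin (N + 1)) k) (hf : ∀ i, (f i).IsHomogeneous d)
    (hgp : ∀ J : Finset (Fin q), J.card = n + 1 → ∀ x : Fin (N + 1) → AlgebraicClosure k, (∀ p ∈ I, aeval x p = 0) →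
      (∀ i ∈ J, aeval x (f i) = 0) → x = 0) (S : Finset (Pl k)) {ε : ℝ} (hε : 0 < ε) {θ : ℝ} (hθ : 0 ≤ θ) (hθ1 : θ ≤ 1) :
    ∃ (Q : MvPolynomial (Fin (N + 1)) k) (C : ℝ), Q ∉ I ∧ (∃ e, Q.IsHomogeneous e) ∧
      ∀ x : Fin (N + 1) → AlgebraicClosure k, (∃ j, x j = 1) → (∀ p ∈ I, aeval x p = 0) → dg x ≤ r →
        (∀ i, aeval (crd x) (f i) ≠ 0) → aeval x Q ≠ 0 → ∀ w : Pl k → Pl (fld x), (∀ v, w v ∈ above (fld x) v) →
        ∑ ν ∈ S, max ((r * Eq n θ - (r - 1) * θ) * ∑ i, lamP d (f i) ν x)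
          (max ((∑ i, lamW d (f i) x (w ν)) / (r * (n + 1))) ((∑ i, lamP d (f i) ν x) / (gnum x ν * (n + 1)))) ≤
          (d + ε) * hgt x + C := by
  obtain ⟨Q, C, hQ, hQh, h⟩ := fin_gen hd hr I hI hdim S (fun _ => f) (Or.inr ⟨f, rfl⟩) (fun _ _ => hf) (fun _ _ => hgp) hε
    hθ hθ1
  exact ⟨Q, C, hQ, hQh, fun x h1 h2 h3 h4 h5 w hw => h x h1 h2 h3 (fun _ _ => h4) h5 w hw⟩

end Pool.Agent.SQ
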