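import Pool.Agent.Helper42.SQ.GERg
import Pool.Agent.Helper42.SQ.OMg
import Pool.Agent.Helper42.SQ.SUBg
import Pool.Agent.Helper67.SQ4.THMm

/-!
# SQ, stages 4 and 5, block GAm: from the abstract theorem to sequences of points
-/

set_option autoImplicit false

namespace Pool.Agent.SQ

open NumberField Filter Module MvPolynomial
open Pool.Agent.Helper64.Vojta (Pl nv sn above)
open Pool.Agent.V2
open Pool.Agent.Chart (fld dg crd hgt)

universe u

section

variable {k : Type u} [Field k] [NumberField k] {G : Type} [Group G] [Fintype G] {D : SqG k G}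

/-- the germ of the value of a linear form -/
private noncomputable def phi80 (F : GFG D) {ι : Type} [Fintype ι] (ξ : ι → F.K) : (ι → k) →ₗ[k] F.K where
  toFun m := ∑ j, m j • ξ j
  map_add' m m' := by simp [add_smul, Finset.sum_add_distrib]
  map_smul' c m := by simp [Finset.smul_sum, mul_smul]

private theorem ker80 (F : GFG D) {ι : Type} [Fintype ι] (x : ∀ n, ι → D.L n) (hx : Ptg D x) (ξ : ι → F.K)
    (hξ : ∀ j, ∀ᶠ n in (D.U : Filter ℕ), F.rp (ξ j) n = x n j) : LinearMap.ker (phi80 F ξ) = vang D x := by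
  have h0 : ∀ᶠ n in (D.U : Filter ℕ), F.rp 0 n = 0 := by
    have h := F.rp_alg 0
    rw [map_zero] at h
    filter_upwards [h] with n hn
    rw [hn, map_zero]
  ext m
  rw [LinearMap.mem_ker]
  have h1 := rp_lvg F x hx ξ hξ m
  constructor
  · intro h
    have h' : ∑ j, m j • ξ j = 0 := h
    rw [h'] at h1
    show ∀ᶠ n in (D.U : Filter ℕ), lvg m (x n) = 0
    filter_upwards [h0, h1] with n h2 h3
    rw [← h3, h2]
  · intro h
    have h' : ∀ᶠ n in (D.U : Filter ℕ), lvg m (x n) = 0 := h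
    show ∑ j, m j • ξ j = 0
    refine F.rp_inj _ _ ?_
    filter_upwards [h0, h1, h'] with n h2 h3 h4
    rw [h3, h4, h2]

private theorem range80 (F : GFG D) {ι : Type} [Fintype ι] (ξ : ι → F.K) :
    LinearMap.range (phi80 F ξ) = Submodule.span k (Set.range ξ) := by
  ext z
  rw [LinearMap.mem_range, Submodule.mem_span_range_iff_exists_fun]
  rfl

private theorem cinv80 {H : Subgroup G} {ι : Type} [Fintype ι] (x : ∀ n, ι → D.L n)
    (hxH : ∀ n, ∀ h ∈ H, ∀ j, D.s n h (x n j) = x n j) (v : Pl k) (g h : G) (hh : h ∈ H) :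
    cg D x v (g * h) = cg D x v g := by
  unfold cg
  congr 1
  funext n
  congr 3
  funext j
  rw [map_mul, AlgEquiv.mul_apply, hxH n h hh j]

private theorem vinv80 (F : GFG D) {H : Subgroup G} {ι : Type} [Fintype ι] (x : ∀ n, ι → D.L n)
    (hxH : ∀ n, ∀ h ∈ H, ∀ j, D.s n h (x n j) = x n j) (ξ : ι → F.K)
    (hξ : ∀ j, ∀ᶠ n in (D.U : Filter ℕ), F.rp (ξ j) n = x n j) (z : F.K)
    (hz : z ∈ Submodule.span k (Set.range ξ)) (h : G) (hh : h ∈ H) : F.s h z = z := by
  induction hz using Submodule.span_induction with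
  | mem z hz =>
    obtain ⟨j, rfl⟩ := hz
    refine F.rp_inj _ _ ?_
    filter_upwards [F.rp_s h (ξ j), hξ j] with n h1 h2
    rw [h1, h2, hxH n h hh j]
  | zero => exact map_zero _
  | add a b _ _ ha hb => rw [map_add, ha, hb]
  | smul c a _ ha => rw [map_smul, ha]

/-- two elements of the group give the same absolute value on the elements fixed by `H`: the same for the germs -/
private theorem omg80 (F : GFG D) (H : Subgroup G) (v : Pl k) (u g : G)
    (h0 : ∀ a, ∀ z : D.L a, (∀ h ∈ H, D.s a h z = z) → D.N a v (D.s a (u * g) z) = D.N a v (D.s a g z)) (x : F.K)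
    (hx : ∀ h ∈ H, F.s h x = x) : omg F v (F.s (u * g) x) = omg F v (F.s g x) := by
  rcases eq_or_ne x 0 with rfl | hx0
  · rw [map_zero, map_zero]
  have h1 := omg_tendsto F v (F.s (u * g) x) (by rwa [Ne, EmbeddingLike.map_eq_zero_iff])
  have h2 := omg_tendsto F v (F.s g x) (by rwa [Ne, EmbeddingLike.map_eq_zero_iff])
  refine tendsto_nhds_unique h1 (h2.congr' ?_)
  have h3 : ∀ᶠ n in (D.U : Filter ℕ), ∀ h ∈ H, D.s n h (F.rp x n) = F.rp x n := by
    have : ∀ h : G, ∀ᶠ n in (D.U : Filter ℕ), h ∈ H → D.s n h (F.rp x n) = F.rp x n := by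
      intro h
      by_cases hh : h ∈ H
      · filter_upwards [F.rp_s h x] with n hn _
        rw [← hn, hx h hh]
      · exact Eventually.of_forall fun n hn => absurd hn hh
    exact (eventually_all (ι := G)).2 this
  filter_upwards [h3, F.rp_s (u * g) x, F.rp_s g x] with n h4 h5 h6
  rw [h5, h6, h0 n (F.rp x n) h4]

private theorem cg80 (H : Subgroup G) {ι : Type} [Fintype ι] (x : ∀ n, ι → D.L n)
    (hxH : ∀ n, ∀ h ∈ H, ∀ j, D.s n h (x n j) = x n j) (v : Pl k) (u g : G)
    (h0 : ∀ a, ∀ z : D.L a, (∀ h ∈ H, D.s a h z = z) → D.N a v (D.s a (u * g) z) = D.N a v (D.s a g z)) :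
    cg D x v (u * g) = cg D x v g := by
  unfold cg
  congr 1
  funext n
  congr 2
  unfold mxn
  congr 1
  funext j
  exact h0 n (x n j) fun h hh => hxH n h hh j

/-- uses `thm_m` -/
theorem germs_m {ι : Type} [Fintype ι] (x : ∀ n, ι → D.L n) (hx : Ptg D x) (P : Finset (Pl k))
    (Hs : Subgroup G) (hH : ∀ a, ∀ h ∈ Hs, ∀ j, D.s a h (x a j) = x a j)
    (lin : Pl k → Prop) [DecidablePred lin] (Gd T : Pl k → Finset G)
    (hC : ∀ a, ∀ v ∈ P, lin v → ∀ u ∈ Gd v, ∀ g ∈ T v, ∀ z : D.L a, (∀ h ∈ Hs, D.s a h z = z) →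
      D.N a v (D.s a (u * g) z) = D.N a v (D.s a g z))
    {r : ℕ} (ρ : Fin r → G) (hρ : ∀ g, ∃! j, (ρ j)⁻¹ * g ∈ Hs)
    (n : Pl k → G → ℕ) (e : ∀ v g, Fin (n v g) → ι → k)
    (he : ∀ v ∈ P, ∀ g, LinearIndependent k fun i => (vang D x).mkQ (e v g i))
    (B : Pl k → Fin r → ℝ) (hB : ∀ v j, 0 ≤ B v j) (n' : Pl k → Fin r → ℕ) (e' : ∀ v j, Fin (n' v j) → ι → k)
    (he' : ∀ v ∈ P, ∀ j, LinearIndependent k fun i => (vang D x).mkQ (e' v j i)) {ε : ℝ} (hε : 0 < ε) :
    ∀ᶠ a in (D.U : Filter ℕ), ∑ v ∈ P, (if lin v then ((Gd v).card : ℝ) * ∑ g ∈ T v,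
        ∑ i, (Real.log (mxn (D.N a v) fun l => D.s a g (x a l)) - Real.log (D.N a v (D.s a g (lvg (e v g i) (x a))))) else
      (Fintype.card G : ℝ) ^ 2 * ∑ j, (∑ i, min (B v j * D.H a) (Real.log (mxn (D.N a v) fun l => D.s a (ρ j) (x a l)) -
        Real.log (D.N a v (D.s a (ρ j) (lvg (e' v j i) (x a))))) -
        (1 - 1 / (r : ℝ)) * (B v j * D.H a) * finrank k ((ι → k) ⧸ vang D x))) ≤
      (Fintype.card G * finrank k ((ι → k) ⧸ vang D x) + ε) * D.H a := by
  obtain ⟨F⟩ := ger_g D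
  obtain ⟨ξ, hξ⟩ := exists_xig F x hx
  have hker := ker80 F x hx ξ hξ
  have hran := range80 F ξ
  have hfr : finrank k ((ι → k) ⧸ vang D x) = finrank k (Submodule.span k (Set.range ξ)) := by
    rw [← hker, ← hran]
    exact (LinearMap.quotKerEquivRange (phi80 F ξ)).finrank_eq
  have hfd : FiniteDimensional k (Submodule.span k (Set.range ξ)) := FiniteDimensional.span_of_finite k (Set.finite_range ξ)
  have hlin : ∀ {m : ℕ} (e : Fin m → ι → k), (LinearIndependent k fun i => (vang D x).mkQ (e i)) →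
      LinearIndependent k fun i => phi80 F ξ (e i) := by
    intro m e h
    rw [Fintype.linearIndependent_iff] at h ⊢
    intro c hc
    refine h c ?_
    have h2 : phi80 F ξ (∑ i, c i • e i) = 0 := by
      rw [map_sum]
      simp only [map_smul]
      exact hc
    have h3 : ∑ i, c i • e i ∈ vang D x := by rw [← hker]; exact h2
    have h4 : (vang D x).mkQ (∑ i, c i • e i) = 0 := by
      rw [Submodule.mkQ_apply, Submodule.Quotient.mk_eq_zero]; exact h3
    rw [map_sum] at h4
    simpa only [map_smul] using h4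
  have hli : ∀ v ∈ P, ∀ g, LinearIndependent k fun i => phi80 F ξ (e v g i) := fun v hv g => hlin _ (he v hv g)
  have hli' : ∀ v ∈ P, ∀ j, LinearIndependent k fun i => phi80 F ξ (e' v j i) := fun v hv j => hlin _ (he' v hv j)
  have hmain := thm_m F.s (P := P) (fun v => omg F v) (fun v => omg_RV F v) (fun v g => cg D x v g)
    (Submodule.span k (Set.range ξ)) (fun v g z hz hz0 => omg_nonneg F x hx ξ hξ v g z hz hz0)
    (fun m E hE hEs n' z hz hzE => sub_g F x hx ξ hξ P m E hE hEs n' z hz hzE)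
    Hs (fun h hh z hz => vinv80 F x hH ξ hξ z hz h hh) (fun v g h hh => cinv80 x hH v g h hh)
    (fun v => lin v) (fun v => Gd v) (fun v => T v)
    (fun v hv u hu g hg => ⟨cg80 Hs x hH v u g fun a z hz => hC a v v.2 hv u hu g hg z hz,
      fun z hz => omg80 F Hs v u g (fun a z hz => hC a v v.2 hv u hu g hg z hz) z hz⟩)
    ρ hρ (fun v g => n v g) (fun v g i => phi80 F ξ (e v g i)) (fun v g => hli v v.2 g)
    (fun v g i => by rw [← hran]; exact LinearMap.mem_range_self _ _)
    (fun v j => B v j) (fun v j => hB v j) (fun v j => n' v j) (fun v j i => phi80 F ξ (e' v j i)) (fun v j => hli' v v.2 j)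
    (fun v g i => by rw [← hran]; exact LinearMap.mem_range_self _ _)
  rw [← hfr] at hmain
  have hterm : ∀ (v : Pl k) (g : G) (m : ι → k), phi80 F ξ m ≠ 0 → Tendsto (fun a =>
      (Real.log (mxn (D.N a v) fun j => D.s a g (x a j)) -
      Real.log (D.N a v (D.s a g (lvg m (x a))))) / D.H a) (D.U : Filter ℕ)
      (nhds (omg F v (F.s g (phi80 F ξ m)) + cg D x v g)) := by
    intro v g m hm
    have hne : F.s g (phi80 F ξ m) ≠ 0 := by
      rwa [Ne, EmbeddingLike.map_eq_zero_iff]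
    have h1 := omg_tendsto F v _ hne
    have h2 := cg_tendsto x hx v g
    refine (h1.add h2).congr' ?_
    filter_upwards [F.rp_s g (phi80 F ξ m), rp_lvg F x hx ξ hξ m] with a h3 h4
    have h5 : F.rp (phi80 F ξ m) a = lvg m (x a) := h4
    rw [h3, h5]
    ring
  have hsum : Tendsto (fun a => ∑ v : P, (if lin v then ((Gd v).card : ℝ) * ∑ g ∈ T v,
        ∑ i, (Real.log (mxn (D.N a v) fun l => D.s a g (x a l)) - Real.log (D.N a v (D.s a g (lvg (e v g i) (x a))))) / D.H a
        else (Fintype.card G : ℝ) ^ 2 * ∑ j, (∑ i, min (B v j) ((Real.log (mxn (D.N a v) fun l => D.s a (ρ j) (x a l)) -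
        Real.log (D.N a v (D.s a (ρ j) (lvg (e' v j i) (x a))))) / D.H a) -
        (1 - 1 / (r : ℝ)) * B v j * finrank k ((ι → k) ⧸ vang D x)))) (D.U : Filter ℕ)
      (nhds (∑ v : P, (if lin v then ((Gd v).card : ℝ) * ∑ g ∈ T v, ∑ i, (omg F v (F.s g (phi80 F ξ (e v g i))) + cg D x v g)
        else (Fintype.card G : ℝ) ^ 2 * ∑ j, (∑ i, min (B v j) (omg F v (F.s (ρ j) (phi80 F ξ (e' v j i))) + cg D x v (ρ j)) -
        (1 - 1 / (r : ℝ)) * B v j * finrank k ((ι → k) ⧸ vang D x))))) := by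
    refine tendsto_finset_sum _ fun v _ => ?_
    by_cases hv : lin v
    · simp only [hv, if_true]
      exact (tendsto_finset_sum _ fun g _ => tendsto_finset_sum _ fun i _ =>
        hterm v g _ ((hli v v.2 g).ne_zero i)).const_mul _
    · simp only [hv, if_false]
      exact (tendsto_finset_sum _ fun j _ => (tendsto_finset_sum _ fun i _ =>
        tendsto_const_nhds.min (hterm v (ρ j) _ ((hli' v v.2 j).ne_zero i))).sub tendsto_const_nhds).const_mul _
  have hlt := hsum.eventually_lt_const (hmain.trans_lt (lt_add_of_pos_right _ hε))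
  filter_upwards [hlt, D.H1.eventually_gt_atTop 0] with a h1 h2
  have hH0 : D.H a ≠ 0 := h2.ne'
  rw [← Finset.sum_coe_sort P (fun v => (if lin v then ((Gd v).card : ℝ) * ∑ g ∈ T v,
        ∑ i, (Real.log (mxn (D.N a v) fun l => D.s a g (x a l)) - Real.log (D.N a v (D.s a g (lvg (e v g i) (x a))))) else
      (Fintype.card G : ℝ) ^ 2 * ∑ j, (∑ i, min (B v j * D.H a) (Real.log (mxn (D.N a v) fun l => D.s a (ρ j) (x a l)) -
        Real.log (D.N a v (D.s a (ρ j) (lvg (e' v j i) (x a))))) -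
        (1 - 1 / (r : ℝ)) * (B v j * D.H a) * finrank k ((ι → k) ⧸ vang D x))))]
  refine le_trans (le_of_eq ?_) (mul_le_mul_of_nonneg_right h1.le h2.le)
  rw [Finset.sum_mul]
  refine Finset.sum_congr rfl fun v _ => ?_
  by_cases hv : lin v
  · simp only [hv, if_true]
    rw [mul_assoc, Finset.sum_mul]
    congr 1
    refine Finset.sum_congr rfl fun g _ => ?_
    rw [Finset.sum_mul]
    exact Finset.sum_congr rfl fun i _ => (div_mul_cancel₀ _ hH0).symm
  · simp only [hv, if_false]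
    rw [mul_assoc, Finset.sum_mul]
    congr 1
    refine Finset.sum_congr rfl fun j _ => ?_
    conv_rhs => rw [sub_mul, Finset.sum_mul]
    congr 1
    · refine Finset.sum_congr rfl fun i _ => ?_
      rw [min_mul_of_nonneg _ _ h2.le, div_mul_cancel₀ _ hH0]
    · ring

end

end Pool.Agent.SQ
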